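import Mathlib

/-!
Definitions for the small pcf theory used in the full answer to MP_56e317_lc (paper proof: team
note 751). Families `lam : ι → Cardinal` of regular cardinals `≥ ℵ₄` on an index type with
at most `ℵ₁` elements; `cf lam c` is the least size of a family of functions in the product
that dominates the whole product on the set `c` of indices.
-/

open Cardinal Ordinal Set

universe u v

namespace Pool.Agent.Helper14.PCF

/-- a regular cardinal `≥ ℵ₄` -/
def Big (σ : Cardinal.{u}) : Prop := σ.IsRegular ∧ ℵ_ 4 ≤ σ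

section

variable {ι : Type u}

/-- a family of regular cardinals `≥ ℵ₄` -/
def Fam (lam : ι → Cardinal.{u}) : Prop := ∀ a, Big (lam a)

/-- the product of a family of cardinals -/
def Pr (lam : ι → Cardinal.{u}) : Set (ι → Ordinal.{u}) := {f | ∀ a, f a < (lam a).ord}

/-- at most `μ` functions in the product dominate it on `c` -/
def Dom (lam : ι → Cardinal.{u}) (μ : Cardinal.{u}) (c : Set ι) : Prop :=
  ∃ (T : Type u) (g : T → ι → Ordinal.{u}), #T ≤ μ ∧ (∀ t, g t ∈ Pr lam) ∧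
    ∀ f ∈ Pr lam, ∃ t, ∀ a ∈ c, f a ≤ g t a

/-- the cofinality (everywhere domination) of the product restricted to `c` -/
noncomputable def cf (lam : ι → Cardinal.{u}) (c : Set ι) : Cardinal.{u} :=
  sInf {μ | Dom lam μ c}

/-- a scale on `c`: increasing modulo the sets of smaller cofinality, and everywhere
dominating on `c` -/
def IsScale (lam : ι → Cardinal.{u}) (c : Set ι) (F : Ordinal.{u} → ι → Ordinal.{u}) : Prop :=
  (∀ γ, F γ ∈ Pr lam) ∧
  (∀ β γ, β < γ → γ < (cf lam c).ord → cf lam {a | F γ a < F β a} < cf lam c) ∧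
  ∀ f ∈ Pr lam, ∃ γ < (cf lam c).ord, ∀ a ∈ c, f a ≤ F γ a

open Classical in
/-- a chosen scale -/
noncomputable def scale (lam : ι → Cardinal.{u}) (c : Set ι) : Ordinal.{u} → ι → Ordinal.{u} :=
  if h : ∃ F, IsScale lam c F then h.choose else fun _ _ => 0

/-- the least `γ` with `f ≤ scale γ` everywhere on `c` -/
noncomputable def rk (lam : ι → Cardinal.{u}) (c : Set ι) (f : ι → Ordinal.{u}) : Ordinal.{u} :=
  sInf {γ | ∀ a ∈ c, f a ≤ scale lam c γ a}

/-- a family of sets generating the sets of cofinality `< σ` -/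
def IsGen (lam : ι → Cardinal.{u}) (σ : Cardinal.{u}) (T : Type u) (e : T → Set ι) : Prop :=
  #T ≤ σ ∧ (∀ t, cf lam (e t) < σ) ∧ ∀ c, cf lam c < σ → ∃ t, c ⊆ e t

open Classical in
/-- index type of a chosen generating family -/
noncomputable def GenT (lam : ι → Cardinal.{u}) (σ : Cardinal.{u}) : Type u :=
  if h : ∃ (T : Type u) (e : T → Set ι), IsGen lam σ T e then h.choose else PUnit

open Classical in
/-- a chosen generating family -/
noncomputable def gen (lam : ι → Cardinal.{u}) (σ : Cardinal.{u}) (t : GenT lam σ) : Set ι :=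
  if h : ∃ (T : Type u) (e : T → Set ι), IsGen lam σ T e then
    h.choose_spec.choose (cast (by unfold GenT; rw [dif_pos h]) t) else ∅

/-- `E` is a club of the ordinal `δ` -/
def ClubIn (E : Set Ordinal.{u}) (δ : Ordinal.{u}) : Prop :=
  (∀ γ ∈ E, γ < δ) ∧ (∀ β < δ, ∃ γ ∈ E, β < γ) ∧
  ∀ γ < δ, (∃ β, β < γ) → (∀ β < γ, ∃ γ' ∈ E, β < γ' ∧ γ' < γ) → γ ∈ E

/-- the least bound of `scale γ a` on a club of `γ < δ` (the least one below `lam a`, if any) -/
noncomputable def Fhat (lam : ι → Cardinal.{u}) (c : Set ι) (δ : Ordinal.{u}) (a : ι) :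
    Ordinal.{u} :=
  sInf {ξ | ξ < (lam a).ord ∧ ∃ E, ClubIn E δ ∧ ∀ γ ∈ E, scale lam c γ a ≤ ξ}

/-- The function `u` is caught on `c` after finitely many steps. -/
inductive Caught (lam : ι → Cardinal.{u}) (u : ι → Ordinal.{u}) : Set ι → Prop
  | empty : Caught lam u ∅
  | step (c : Set ι) (δ : Ordinal.{u}) (t : GenT lam (cf lam c))
      (hδ : δ < (cf lam c).ord)
      (h : ∀ a ∈ c, a ∉ gen lam (cf lam c) t → u a = Fhat lam c δ a)
      (ht : Caught lam u (c ∩ gen lam (cf lam c) t)) : Caught lam u c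

/-- states: a function on cardinals with values ordinals, and a set of objects (family, set) -/
structure St (ι : Type u) where
  /-- the characteristic function -/
  K : Cardinal.{u} → Ordinal.{u}
  /-- the objects -/
  C : Set ((ι → Cardinal.{u}) × Set ι)

end

/-- A chain of states satisfying requirements. -/
structure IsChain {ι : Type u} (Req : St ι → St ι → Cardinal.{u} → Set Ordinal.{u})
    (New : St ι → St ι → Set ((ι → Cardinal.{u}) × Set ι))
    (C0 : Set ((ι → Cardinal.{u}) × Set ι)) (S : Ordinal.{u} → St ι) : Prop where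
  lt_ord : ∀ ε ≤ ω_ 3, ∀ σ, Big σ → (S ε).K σ < σ.ord
  strict : ∀ ε ε', ε < ε' → ∀ σ, (S ε).K σ < (S ε').K σ
  cont : ∀ ε, Order.IsSuccLimit ε → ∀ σ β, β < (S ε).K σ → ∃ ε' < ε, β < (S ε').K σ
  monoC : ∀ ε ε', ε ≤ ε' → (S ε).C ⊆ (S ε').C
  contC : ∀ ε, Order.IsSuccLimit ε → ∀ o ∈ (S ε).C, ∃ ε' < ε, o ∈ (S ε').C
  cardC : ∀ ε < ω_ 3, #(S ε).C ≤ ℵ_ 2
  subC : C0 ⊆ (S 0).C
  req : ∀ ε ε', ε ≤ ε' → ∀ σ, ∀ β ∈ Req (S ε) (S ε') σ, β < σ.ord → β < (S (ε' + 1)).K σ
  new : ∀ ε ε', ε ≤ ε' → New (S ε) (S ε') ⊆ (S (ε' + 1)).C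

end Pool.Agent.Helper14.PCF
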