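import Mathlib
import Pool.Agent.Helper14.PCF.Defs

/-!
Module M1: basic facts about `cf`.
-/

open Cardinal Ordinal Set

universe u v

namespace Pool.Agent.Helper14.PCF

theorem exists_bound {σ : Cardinal.{u}} (hσ : σ.IsRegular) {T : Type v}
    (hT : Cardinal.lift.{u} #T < Cardinal.lift.{v} σ) (f : T → Ordinal.{u})
    (hf : ∀ t, f t < σ.ord) : ∃ β < σ.ord, ∀ t, f t < β := by
  have hsm : Small.{u} T := by
    obtain ⟨d, hd⟩ := Cardinal.mem_range_lift_of_le hT.le
    induction d using Cardinal.inductionOn with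
    | _ α =>
      obtain ⟨e⟩ := Cardinal.lift_mk_eq'.1 hd
      exact ⟨⟨α, ⟨e.symm⟩⟩⟩
  refine ⟨⨆ t, f t + 1, ?_, fun t => ?_⟩
  · apply Ordinal.lift_iSup_add_one_lt_of_lt_cof _ hf
    rw [← Ordinal.lift_cof, hσ.cof_ord]
    exact hT
  · exact Ordinal.lt_iSup_add_one (f := f) t

theorem Fam.pos {ι : Type u} {lam : ι → Cardinal.{u}} (hlam : Fam lam) (a : ι) :
    0 < (lam a).ord := (hlam a).1.ord_pos

theorem aleph3_lt_aleph4 : (ℵ_ 3 : Cardinal.{u}) < ℵ_ 4 := by
  rw [aleph_lt_aleph]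
  norm_num

theorem aleph1_le_aleph3 : (ℵ₁ : Cardinal.{u}) ≤ ℵ_ 3 := by
  rw [aleph_le_aleph]
  norm_num

/-- families of at most `ℵ₃` functions in the product have a strict upper bound -/
theorem exists_bound_fun {ι : Type u} {lam : ι → Cardinal.{u}} (hlam : Fam lam) {T : Type v}
    (hT : Cardinal.lift.{u} #T ≤ ℵ_ 3) (f : T → ι → Ordinal.{u}) (hf : ∀ t, f t ∈ Pr lam) :
    ∃ h ∈ Pr lam, ∀ t a, f t a < h a := by
  have h1 : ∀ a, Cardinal.lift.{u} #T < Cardinal.lift.{v} (lam a) := by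
    intro a
    refine hT.trans_lt (aleph3_lt_aleph4.trans_le ?_)
    have h2 := Cardinal.lift_le.{v}.2 (hlam a).2
    rw [lift_aleph] at h2
    refine le_trans (le_of_eq ?_) h2
    congr 1
    simp
  have h2 : ∀ a, ∃ β < (lam a).ord, ∀ t, f t a < β := fun a =>
    exists_bound (hlam a).1 (h1 a) (fun t => f t a) fun t => hf t a
  choose h hh hh' using h2
  exact ⟨h, hh, fun t a => hh' a t⟩

section

variable {ι : Type u} {lam : ι → Cardinal.{u}} {c c' : Set ι} {μ : Cardinal.{u}}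

theorem Dom.mono {μ' : Cardinal.{u}} (h : Dom lam μ c) (hμ : μ ≤ μ') : Dom lam μ' c := by
  obtain ⟨T, g, hT, hg, hd⟩ := h
  exact ⟨T, g, hT.trans hμ, hg, hd⟩

theorem Dom.anti (h : Dom lam μ c') (hc : c ⊆ c') : Dom lam μ c := by
  obtain ⟨T, g, hT, hg, hd⟩ := h
  refine ⟨T, g, hT, hg, fun f hf => ?_⟩
  obtain ⟨t, ht⟩ := hd f hf
  exact ⟨t, fun a ha => ht a (hc ha)⟩

theorem dom_nonempty : ∃ μ, Dom lam μ c := by
  refine ⟨#(∀ a, (lam a).ord.ToType), ∀ a, (lam a).ord.ToType,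
    fun t a => (ToType.mk.symm (t a) : Ordinal.{u}), le_rfl, fun t a => ?_, fun f hf => ?_⟩
  · exact (ToType.mk.symm (t a)).2
  · refine ⟨fun a => ToType.mk ⟨f a, hf a⟩, fun a _ => ?_⟩
    simp

theorem cf_le_iff : cf lam c ≤ μ ↔ Dom lam μ c := by
  constructor
  · intro h
    have h1 : Dom lam (cf lam c) c := csInf_mem (s := {μ | Dom lam μ c}) dom_nonempty
    exact h1.mono h
  · intro h
    exact csInf_le' h

theorem dom_cf : Dom lam (cf lam c) c := cf_le_iff.1 le_rfl

theorem cf_mono (h : c ⊆ c') : cf lam c ≤ cf lam c' :=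
  cf_le_iff.2 (dom_cf.anti h)

theorem cf_empty : cf lam ∅ ≤ 1 := by
  rw [cf_le_iff]
  by_cases h : (Pr lam).Nonempty
  · obtain ⟨f0, hf0⟩ := h
    refine ⟨PUnit, fun _ => f0, by simp, fun _ => hf0, fun f _ => ⟨PUnit.unit, fun a ha => ?_⟩⟩
    exact absurd ha (Set.notMem_empty a)
  · rw [Set.not_nonempty_iff_eq_empty] at h
    refine ⟨PEmpty, fun t => t.elim, by simp, fun t => t.elim, fun f hf => ?_⟩
    rw [h] at hf
    exact absurd hf (Set.notMem_empty f)

theorem Dom.union {μ' : Cardinal.{u}} (h : Dom lam μ c) (h' : Dom lam μ' c') :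
    Dom lam (μ * μ') (c ∪ c') := by
  obtain ⟨T, g, hT, hg, hd⟩ := h
  obtain ⟨T', g', hT', hg', hd'⟩ := h'
  refine ⟨T × T', fun t a => max (g t.1 a) (g' t.2 a), ?_, fun t a => ?_, fun f hf => ?_⟩
  · rw [mk_prod, Cardinal.lift_id, Cardinal.lift_id]
    exact mul_le_mul' hT hT'
  · exact max_lt (hg _ _) (hg' _ _)
  · obtain ⟨t, ht⟩ := hd f hf
    obtain ⟨t', ht'⟩ := hd' f hf
    refine ⟨(t, t'), fun a ha => ?_⟩
    rcases ha with ha | ha
    · exact le_max_of_le_left (ht a ha)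
    · exact le_max_of_le_right (ht' a ha)

theorem cf_union (hμ : ℵ₀ ≤ μ) (h : cf lam c ≤ μ) (h' : cf lam c' ≤ μ) :
    cf lam (c ∪ c') ≤ μ := by
  rw [cf_le_iff] at h h' ⊢
  have := h.union h'
  rwa [Cardinal.mul_eq_self hμ] at this

theorem cf_union_lt (hμ : ℵ₀ ≤ μ) (h : cf lam c < μ) (h' : cf lam c' < μ) :
    cf lam (c ∪ c') < μ :=
  (cf_le_iff.2 (dom_cf.union dom_cf)).trans_lt (Cardinal.mul_lt_of_lt hμ h h')

theorem cf_iUnion_nat (hlam : Fam lam) (hμ : μ ^ ℵ₀ = μ) (d : ℕ → Set ι) (h : ∀ n, cf lam (d n) ≤ μ) :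
    cf lam (⋃ n, d n) ≤ μ := by
  rw [cf_le_iff]
  have h1 : ∀ n, Dom lam μ (d n) := fun n => cf_le_iff.1 (h n)
  choose T g hT hg hd using h1
  have h2 : ∀ t : (∀ n, T n), ∃ h ∈ Pr lam, ∀ n a, g n (t n) a < h a := by
    intro t
    refine exists_bound_fun hlam ?_ (fun n => g n (t n)) fun n => hg n (t n)
    rw [Cardinal.mk_nat, Cardinal.lift_aleph0]
    exact aleph0_le_aleph 3
  choose H hH hH' using h2
  refine ⟨∀ n, T n, H, ?_, hH, fun f hf => ?_⟩
  · rw [mk_pi]
    refine (prod_le_prod _ (fun _ => μ) hT).trans ?_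
    rw [prod_const, Cardinal.mk_nat, Cardinal.lift_aleph0, Cardinal.lift_id', hμ]
  · have h3 : ∀ n, ∃ t, ∀ a ∈ d n, f a ≤ g n t a := fun n => hd n f hf
    choose t ht using h3
    refine ⟨t, fun a ha => ?_⟩
    obtain ⟨n, hn⟩ := mem_iUnion.1 ha
    exact (ht n a hn).trans (hH' t n a).le

theorem cf_singleton (hlam : Fam lam) (a : ι) : cf lam {a} ≤ lam a := by
  classical
  rw [cf_le_iff]
  refine ⟨(lam a).ord.ToType, fun t => Function.update (fun _ => 0) a
    (ToType.mk.symm t : Ordinal.{u}), ?_, fun t b => ?_, fun f hf => ?_⟩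
  · simp
  · by_cases hb : b = a
    · subst hb
      simp only [Function.update_self]
      exact (ToType.mk.symm t).2
    · simp only [Function.update_of_ne hb]
      exact hlam.pos b
  · refine ⟨ToType.mk ⟨f a, hf a⟩, fun b hb => ?_⟩
    rw [mem_singleton_iff] at hb
    subst hb
    simp

theorem cf_countable (hlam : Fam lam) (hμ : μ ^ ℵ₀ = μ) (hμ1 : 1 ≤ μ) (hc : c.Countable)
    (h : ∀ a ∈ c, lam a ≤ μ) : cf lam c ≤ μ := by
  rcases c.eq_empty_or_nonempty with h0 | h0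
  · subst h0
    exact cf_empty.trans hμ1
  · obtain ⟨e, he⟩ := hc.exists_eq_range h0
    have h1 : c = ⋃ n, {e n} := by
      rw [he]
      ext x
      simp [eq_comm]
    rw [h1]
    refine cf_iUnion_nat hlam hμ _ fun n => (cf_singleton hlam (e n)).trans (h _ ?_)
    rw [he]
    exact mem_range_self n

theorem le_cf (hlam : Fam lam) {a : ι} (ha : a ∈ c) : lam a ≤ cf lam c := by
  classical
  by_contra hcon
  rw [not_le] at hcon
  obtain ⟨T, g, hT, hg, hd⟩ := dom_cf (lam := lam) (c := c)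
  obtain ⟨β, hβ, hβ'⟩ := exists_bound (hlam a).1 (T := T)
    (by simpa using hT.trans_lt hcon) (fun t => g t a) fun t => hg t a
  have hf : Function.update (fun _ => 0) a β ∈ Pr lam := by
    intro b
    by_cases hb : b = a
    · subst hb
      simpa using hβ
    · simp only [Function.update_of_ne hb]
      exact hlam.pos b
  obtain ⟨t, ht⟩ := hd _ hf
  have := ht a ha
  simp only [Function.update_self] at this
  exact absurd (hβ' t) (not_lt.2 this)

/-- constant families -/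
theorem cf_const (hι : #ι ≤ ℵ₁) {σ : Cardinal.{u}} (hσ : Big σ) (h : ∀ a ∈ c, lam a = σ) :
    cf lam c ≤ σ := by
  classical
  rw [cf_le_iff]
  by_cases h0 : (Pr lam).Nonempty
  · obtain ⟨f0, hf0⟩ := h0
    refine ⟨σ.ord.ToType, fun t a => if a ∈ c then (ToType.mk.symm t : Ordinal.{u}) else f0 a,
      by simp, fun t a => ?_, fun f hf => ?_⟩
    · by_cases ha : a ∈ c
      · simp only [if_pos ha]
        rw [h a ha]
        exact (ToType.mk.symm t).2
      · simp only [if_neg ha]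
        exact hf0 a
    · obtain ⟨β, hβ, hβ'⟩ := exists_bound hσ.1 (T := c) (by
        simpa using ((mk_set_le c).trans hι).trans_lt
          ((aleph1_le_aleph3.trans_lt aleph3_lt_aleph4).trans_le hσ.2)) (fun a => f a)
          (fun a => by rw [← h a a.2]; exact hf a)
      refine ⟨ToType.mk ⟨β, hβ⟩, fun a ha => ?_⟩
      simp only [if_pos ha]
      simpa using (hβ' ⟨a, ha⟩).le
  · rw [Set.not_nonempty_iff_eq_empty] at h0
    refine ⟨PEmpty, fun t => t.elim, by simp, fun t => t.elim, fun f hf => ?_⟩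
    rw [h0] at hf
    exact absurd hf (Set.notMem_empty f)

/-- pulling back along a surjection -/
theorem cf_comap {ι' : Type u} (hι' : #ι' ≤ ℵ₁) (π : ι' → ι) (hπ : Function.Surjective π)
    (hlam : Fam lam) (s : Set ι) : cf (fun a => lam (π a)) (π ⁻¹' s) = cf lam s := by
  apply le_antisymm
  · rw [cf_le_iff]
    obtain ⟨T, g, hT, hg, hd⟩ := dom_cf (lam := lam) (c := s)
    refine ⟨T, fun t a => g t (π a), hT, fun t a => hg t (π a), fun f hf => ?_⟩
    have h1 : ∀ a, ∃ β < (lam a).ord, ∀ b : {b // π b = a}, f b < β := by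
      intro a
      refine exists_bound (hlam a).1 (T := {b // π b = a}) (by
        simpa using ((mk_subtype_le _).trans hι').trans_lt
          ((aleph1_le_aleph3.trans_lt aleph3_lt_aleph4).trans_le (hlam a).2)) (fun b => f b) ?_
      rintro ⟨b, rfl⟩
      exact hf b
    choose F hF hF' using h1
    obtain ⟨t, ht⟩ := hd F hF
    exact ⟨t, fun a ha => (hF' (π a) ⟨a, rfl⟩).le.trans (ht (π a) ha)⟩
  · rw [cf_le_iff]
    obtain ⟨T, g, hT, hg, hd⟩ := dom_cf (lam := fun a => lam (π a)) (c := π ⁻¹' s)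
    choose r hr using hπ
    refine ⟨T, fun t a => g t (r a), hT, fun t a => ?_, fun f hf => ?_⟩
    · have := hg t (r a)
      simp only [hr] at this
      exact this
    · obtain ⟨t, ht⟩ := hd (fun a => f (π a)) fun a => hf (π a)
      refine ⟨t, fun a ha => ?_⟩
      have := ht (r a) (by
        rw [mem_preimage, hr]
        exact ha)
      simpa [hr] using this

/-- a set is not dominated by fewer functions than its cofinality -/
theorem exists_not_le (hc : μ < cf lam c) {T : Type u} (hT : #T ≤ μ) (g : T → ι → Ordinal.{u})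
    (hg : ∀ t, g t ∈ Pr lam) : ∃ f ∈ Pr lam, ∀ t, ∃ a ∈ c, g t a < f a := by
  by_contra hcon
  push Not at hcon
  exact absurd (cf_le_iff.2 ⟨T, g, hT, hg, hcon⟩) (not_le.2 hc)

end

end Pool.Agent.Helper14.PCF
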