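import Mathlib
import Pool.Agent.Helper14.PCF.Defs

/-!
Module PCF-8a: clubs of ordinals, intersections, closure points.
-/

open Cardinal Ordinal Set

universe u v

namespace Pool.Agent.Helper14.PCF

theorem exists_bound_cof {δ : Ordinal.{u}} {T : Type v}
    (hT : Cardinal.lift.{u} #T < Cardinal.lift.{v} δ.cof) (f : T → Ordinal.{u})
    (hf : ∀ t, f t < δ) : ∃ β < δ, ∀ t, f t < β := by
  have h1 : ⨆ i, f i + 1 < δ := by
    apply Ordinal.lift_iSup_add_one_lt_of_lt_cof _ hf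
    rwa [← Ordinal.lift_cof]
  refine ⟨⨆ i, f i + 1, h1, fun t => ?_⟩
  have hb : BddAbove (range fun i => f i + 1) := by
    refine ⟨δ, ?_⟩
    rintro _ ⟨i, rfl⟩
    exact Order.add_one_le_of_lt (hf i)
  exact (Order.lt_add_one_iff.2 le_rfl).trans_le (le_ciSup hb t)

/-- intersections of few clubs -/
theorem ClubIn.iInter {T : Type v} [Nonempty T] {δ : Ordinal.{u}} (E : T → Set Ordinal.{u})
    (hE : ∀ i, ClubIn (E i) δ) (hT : Cardinal.lift.{u} #T < Cardinal.lift.{v} δ.cof)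
    (hδ : ℵ₀ < δ.cof) : ClubIn (⋂ i, E i) δ := by
  refine ⟨?_, ?_, ?_⟩
  · intro γ hγ
    obtain ⟨i⟩ := ‹Nonempty T›
    exact (hE i).1 γ (mem_iInter.1 hγ i)
  · intro β hβ
    have hnext : ∀ x : Iio δ, ∃ y : Iio δ, x.1 < y.1 ∧ ∀ i, ∃ γ ∈ E i, x.1 < γ ∧ γ < y.1 := by
      rintro ⟨x, hx⟩
      choose g hg1 hg2 using fun i => (hE i).2.1 x hx
      obtain ⟨y, hy, hy'⟩ := exists_bound_cof hT g (fun i => (hE i).1 _ (hg1 i))
      obtain ⟨i⟩ := ‹Nonempty T›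
      exact ⟨⟨y, hy⟩, (hg2 i).trans (hy' i), fun j => ⟨g j, hg1 j, hg2 j, hy' j⟩⟩
    choose nx hnx1 hnx2 using hnext
    let s : ℕ → Iio δ := fun n => nx^[n + 1] ⟨β, hβ⟩
    have hs : ∀ n, s (n + 1) = nx (s n) := fun n => Function.iterate_succ_apply' nx _ _
    obtain ⟨γ, hγ, hγ'⟩ := exists_bound_cof (T := ℕ) (δ := δ) (by simpa using hδ)
      (fun n => (s n).1) (fun n => (s n).2)
    -- take the least upper bound
    let γ0 := sInf {γ | ∀ n, (s n).1 < γ}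
    have hmem : γ0 ∈ {γ | ∀ n, (s n).1 < γ} := csInf_mem ⟨γ, hγ'⟩
    have hγ0 : γ0 < δ := (csInf_le' (show γ ∈ {γ | ∀ n, (s n).1 < γ} from hγ')).trans_lt hγ
    have hcof : ∀ x < γ0, ∃ n, x ≤ (s n).1 := by
      intro x hx
      have := notMem_of_lt_csInf' hx
      simp only [mem_ofPred_eq, not_forall, not_lt] at this
      exact this
    have hβ0 : β < (s 0).1 := hnx1 _
    refine ⟨γ0, mem_iInter.2 fun i => ?_, hβ0.trans (hmem 0)⟩
    refine (hE i).2.2 γ0 hγ0 ⟨_, hmem 0⟩ ?_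
    intro x hx
    obtain ⟨n, hn⟩ := hcof x hx
    obtain ⟨y, hy1, hy2, hy3⟩ := hnx2 (s n) i
    refine ⟨y, hy1, hn.trans_lt hy2, hy3.trans ?_⟩
    rw [← hs]
    exact hmem (n + 1)
  · intro γ hγ h0 h
    refine mem_iInter.2 fun i => (hE i).2.2 γ hγ h0 ?_
    intro β hβ
    obtain ⟨y, hy, hy'⟩ := h β hβ
    exact ⟨y, mem_iInter.1 hy i, hy'⟩

/-- the image of a normal function is a club -/
theorem clubIn_image {f : Ordinal.{u} → Ordinal.{u}} (hf : Order.IsNormal f) {ε : Ordinal.{u}}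
    (hε : Order.IsSuccLimit ε) (ε1 : Ordinal.{u}) (hε1 : ε1 < ε) :
    ClubIn {γ | ∃ x, ε1 ≤ x ∧ x < ε ∧ γ = f x} (f ε) := by
  refine ⟨?_, ?_, ?_⟩
  · rintro _ ⟨x, _, hx, rfl⟩
    exact hf.strictMono hx
  · intro β hβ
    obtain ⟨x, hx, hx'⟩ := (hf.lt_iff_exists_lt hε).1 hβ
    refine ⟨f (max x ε1), ⟨max x ε1, le_max_right _ _, max_lt hx hε1, rfl⟩, ?_⟩
    exact hx'.trans_le (hf.strictMono.monotone (le_max_left _ _))
  · intro γ hγ h0 h
    obtain ⟨x, hx, hx'⟩ := (hf.lt_iff_exists_lt hε).1 hγ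
    let y := sInf {y | γ ≤ f y}
    have hy : γ ≤ f y := csInf_mem (s := {y | γ ≤ f y}) ⟨x, hx'.le⟩
    have hyx : y ≤ x := csInf_le' (show x ∈ {y | γ ≤ f y} from hx'.le)
    have hlt : ∀ z < y, f z < γ := by
      intro z hz
      have := notMem_of_lt_csInf' hz
      simpa using this
    have hge : ∀ z, f z < γ → z < y := by
      intro z hz
      by_contra hcon
      exact absurd (hy.trans (hf.strictMono.monotone (not_lt.1 hcon))) (not_le.2 hz)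
    obtain ⟨β0, hβ0⟩ := h0
    have hne : y ≠ 0 := by
      rintro h0
      obtain ⟨γ', ⟨z, _, _, rfl⟩, _, hz⟩ := h β0 hβ0
      have := hge z hz
      rw [h0] at this
      exact absurd this (not_lt.2 zero_le)
    have hlim : Order.IsSuccLimit y := by
      rcases zero_or_succ_or_isSuccLimit y with h0 | ⟨z, hz⟩ | h1
      · exact absurd h0 hne
      · exfalso
        have hz' : z < y := by rw [← hz]; exact Order.lt_succ z
        obtain ⟨γ', ⟨w, _, _, rfl⟩, hw1, hw2⟩ := h (f z) (hlt z hz')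
        have h1 := hf.strictMono.lt_iff_lt.1 hw1
        have h2 := hge w hw2
        rw [← hz] at h2
        exact absurd (Order.lt_succ_iff.1 h2) (not_le.2 h1)
      · exact h1
    have heq : γ = f y := by
      apply le_antisymm hy
      by_contra hcon
      obtain ⟨z, hz, hz'⟩ := (hf.lt_iff_exists_lt hlim).1 (not_le.1 hcon)
      exact absurd (hlt z hz) (not_lt.2 hz'.le)
    obtain ⟨γ', ⟨w, hw0, _, rfl⟩, _, hw2⟩ := h β0 hβ0
    exact ⟨y, hw0.trans (hge w hw2).le, hyx.trans_lt hx, heq⟩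

/-- the sequence of closure points -/
noncomputable def cl (g : Ordinal.{u} → Ordinal.{u}) (ε0 : Ordinal.{u}) (ξ : Ordinal.{u}) :
    Ordinal.{u} :=
  sInf {β | ε0 < β ∧ ∀ ξ' : Iio ξ, cl g ε0 ξ'.1 < β ∧ ∀ y ≤ cl g ε0 ξ'.1, g y < β}
termination_by ξ
decreasing_by exact ξ'.2

theorem cl_ne (g : Ordinal.{u} → Ordinal.{u}) (ε0 ξ : Ordinal.{u}) :
    ({β | ε0 < β ∧ ∀ ξ' : Iio ξ, cl g ε0 ξ'.1 < β ∧ ∀ y ≤ cl g ε0 ξ'.1, g y < β} :
      Set Ordinal.{u}).Nonempty := by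
  have h1 : BddAbove (range fun ξ' : Iio ξ => cl g ε0 ξ'.1) := bddAbove_of_small
  have h2 : BddAbove (range fun p : (Σ ξ' : Iio ξ, Iic (cl g ε0 ξ'.1)) => g p.2.1) :=
    bddAbove_of_small
  obtain ⟨b1, hb1⟩ := h1
  obtain ⟨b2, hb2⟩ := h2
  refine ⟨max ε0 (max b1 b2) + 1, ?_, ?_⟩
  · exact Order.lt_add_one_iff.2 (le_max_left _ _)
  · intro ξ'
    refine ⟨Order.lt_add_one_iff.2 ?_, ?_⟩
    · exact (hb1 ⟨ξ', rfl⟩).trans ((le_max_left _ _).trans (le_max_right _ _))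
    · intro y hy
      exact Order.lt_add_one_iff.2 ((hb2 ⟨⟨ξ', ⟨y, hy⟩⟩, rfl⟩).trans
        ((le_max_right _ _).trans (le_max_right _ _)))

theorem cl_mem (g : Ordinal.{u} → Ordinal.{u}) (ε0 ξ : Ordinal.{u}) :
    ε0 < cl g ε0 ξ ∧ ∀ ξ' : Iio ξ, cl g ε0 ξ'.1 < cl g ε0 ξ ∧
      ∀ y ≤ cl g ε0 ξ'.1, g y < cl g ε0 ξ := by
  have := csInf_mem (cl_ne g ε0 ξ)
  rw [← cl] at this
  exact this

theorem cl_isNormal (g : Ordinal.{u} → Ordinal.{u}) (ε0 : Ordinal.{u}) :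
    Order.IsNormal (cl g ε0) := by
  rw [Order.isNormal_iff]
  refine ⟨fun a b hab => ((cl_mem g ε0 b).2 ⟨a, hab⟩).1, ?_⟩
  intro o ho a ha
  rw [cl]
  by_contra hcon
  have h1 := notMem_of_lt_csInf' (not_le.1 hcon)
  apply h1
  have hlt : ∀ b < o, cl g ε0 b < a := by
    intro b hb
    exact (((cl_mem g ε0 (Order.succ b)).2 ⟨b, Order.lt_succ b⟩).1).trans_le
      (ha _ (ho.succ_lt hb))
  refine ⟨?_, ?_⟩
  · have h0 : 0 < o := ho.bot_lt
    exact (cl_mem g ε0 0).1.trans (hlt 0 h0)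
  · rintro ⟨b, hb⟩
    refine ⟨hlt b hb, fun y hy => ?_⟩
    exact (((cl_mem g ε0 (Order.succ b)).2 ⟨b, Order.lt_succ b⟩).2 y hy).trans_le
      (ha _ (ho.succ_lt hb))

theorem cof_omega_three : (ω_ 3 : Ordinal.{u}).cof = ℵ_ 3 := by
  have h : (3 : Ordinal.{u}) = 2 + 1 := by norm_num
  rw [h, cof_omega_add_one]

theorem cof_omega_two : (ω_ 2 : Ordinal.{u}).cof = ℵ_ 2 := by
  have h : (2 : Ordinal.{u}) = 1 + 1 := by norm_num
  rw [h, cof_omega_add_one]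

theorem exists_closed (g : Ordinal.{u} → Ordinal.{u}) (hg : ∀ ε < ω_ 3, g ε < ω_ 3)
    (ε0 : Ordinal.{u}) (hε0 : ε0 < ω_ 3) :
    ∃ ε, ε0 < ε ∧ ε < ω_ 3 ∧ ε.cof = ℵ_ 2 ∧ Order.IsSuccLimit ε ∧ ∀ ε' < ε, g ε' < ε := by
  have h23 : (ω_ 2 : Ordinal.{u}) < ω_ 3 := omega_lt_omega.2 (by norm_num)
  have hlt : ∀ ξ ≤ ω_ 2, cl g ε0 ξ < ω_ 3 := by
    intro ξ
    induction ξ using WellFoundedLT.induction with
    | ind ξ ih =>
    intro hξ
    have hcard : ∀ x : Ordinal.{u}, x < ω_ 3 → x.card ≤ ℵ_ 2 := by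
      intro x hx
      rw [← ord_aleph, Cardinal.lt_ord] at hx
      have h : (3 : Ordinal.{u}) = 2 + 1 := by norm_num
      rw [h, ← succ_aleph, Order.lt_succ_iff] at hx
      exact hx
    -- a bound for every `ξ'`
    have hb : ∀ ξ' : Iio ξ, ∃ β < ω_ 3, cl g ε0 ξ'.1 < β ∧ ∀ y ≤ cl g ε0 ξ'.1, g y < β := by
      rintro ⟨ξ', hξ'⟩
      have h1 := ih ξ' hξ' (hξ'.le.trans hξ)
      obtain ⟨β, hβ, hβ'⟩ := exists_bound_cof (δ := ω_ 3)
        (T := Iio (Order.succ (cl g ε0 ξ'))) (by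
          rw [cof_omega_three, Cardinal.mk_Iio_ordinal]
          have : (Order.succ (cl g ε0 ξ')).card ≤ ℵ_ 2 := by
            apply hcard
            have hl : Order.IsSuccLimit (ω_ 3 : Ordinal.{u}) := isSuccLimit_omega 3
            exact hl.succ_lt h1
          have h4 : (ℵ_ 2 : Cardinal.{u}) < ℵ_ 3 := aleph_lt_aleph.2 (by norm_num)
          have h5 := this.trans_lt h4
          rw [Cardinal.lift_lift]
          exact Cardinal.lift_lt.2 h5) (fun y => g y.1) (fun y => hg _ (by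
          refine (Order.lt_succ_iff.1 y.2).trans_lt h1))
      refine ⟨max β (Order.succ (cl g ε0 ξ')), ?_, ?_, ?_⟩
      · have hl : Order.IsSuccLimit (ω_ 3 : Ordinal.{u}) := isSuccLimit_omega 3
        exact max_lt hβ (hl.succ_lt h1)
      · exact (Order.lt_succ _).trans_le (le_max_right _ _)
      · intro y hy
        exact (hβ' ⟨y, Order.lt_succ_iff.2 hy⟩).trans_le (le_max_left _ _)
    choose b hb1 hb2 hb3 using hb
    obtain ⟨β, hβ, hβ'⟩ := exists_bound_cof (δ := ω_ 3) (T := Iio ξ) (by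
      rw [cof_omega_three, Cardinal.mk_Iio_ordinal]
      have h5 := (hcard ξ (hξ.trans_lt h23)).trans_lt
        (show (ℵ_ 2 : Cardinal.{u}) < ℵ_ 3 from aleph_lt_aleph.2 (by norm_num))
      rw [Cardinal.lift_lift]
      exact Cardinal.lift_lt.2 h5) b hb1
    refine lt_of_le_of_lt ?_ (max_lt hβ (show ε0 + 1 < ω_ 3 from
      (isSuccLimit_omega 3).add_one_lt hε0))
    rw [cl]
    apply csInf_le'
    refine ⟨(Order.lt_add_one_iff.2 le_rfl).trans_le (le_max_right _ _), fun ξ' => ⟨?_, ?_⟩⟩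
    · exact (hb2 ξ').trans ((hβ' ξ').trans_le (le_max_left _ _))
    · intro y hy
      exact (hb3 ξ' y hy).trans ((hβ' ξ').trans_le (le_max_left _ _))
  have hlim : Order.IsSuccLimit (ω_ 2 : Ordinal.{u}) := isSuccLimit_omega 2
  refine ⟨cl g ε0 (ω_ 2), (cl_mem g ε0 _).1, hlt _ le_rfl, ?_, ?_, ?_⟩
  · rw [cof_map_of_isNormal (cl_isNormal g ε0) hlim, cof_omega_two]
  · exact (cl_isNormal g ε0).map_isSuccLimit hlim
  · intro x hx
    obtain ⟨ξ', hξ', hx'⟩ := ((cl_isNormal g ε0).lt_iff_exists_lt hlim).1 hx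
    exact ((cl_mem g ε0 (ω_ 2)).2 ⟨ξ', hξ'⟩).2 x hx'.le

end Pool.Agent.Helper14.PCF
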