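import Mathlib
import Pool.Agent.Helper14.PCF.Basic

/-!
Module M2a: the induction steps of the small pcf theory for small and for singular `μ`, and the
increasing-sequence lemma (note 751, step 2).
-/

open Cardinal Ordinal Set

universe u v

namespace Pool.Agent.Helper14.PCF

/-- recursive construction along a well order -/
theorem chain_rec' {X : Type*} {W : Type*} [LinearOrder W] [WellFoundedLT W] (P : W → X → Prop)
    (R : W → W → X → X → Prop)
    (step : ∀ (w : W) (x : Set.Iio w → X), (∀ i, P i.1 (x i)) →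
      ∃ y, P w y ∧ ∀ i, R i.1 w (x i) y) :
    ∃ x : W → X, (∀ w, P w (x w)) ∧ ∀ w' w, w' < w → R w' w (x w') (x w) := by
  let F : ∀ w : W, (∀ w' : W, w' < w → {x // P w' x}) → {x // P w x} := fun w r =>
    ⟨(step w (fun i => (r i.1 i.2).1) (fun i => (r i.1 i.2).2)).choose,
      (step w (fun i => (r i.1 i.2).1) (fun i => (r i.1 i.2).2)).choose_spec.1⟩
  let x : ∀ w : W, {x // P w x} := wellFounded_lt.fix F
  have hx : ∀ w, x w = F w (fun w' _ => x w') := fun w => wellFounded_lt.fix_eq F w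
  refine ⟨fun w => (x w).1, fun w => (x w).2, ?_⟩
  intro w' w hw
  show R w' w (x w').1 (x w).1
  rw [hx w]
  exact (step w (fun i => (x i.1).1) (fun i => (x i.1).2)).choose_spec.2 ⟨w', hw⟩

/-- recursive construction along a well order -/
theorem chain_rec {X : Type*} {W : Type*} [LinearOrder W] [WellFoundedLT W] (P : X → Prop)
    (R : X → X → Prop)
    (step : ∀ (w : W) (x : Set.Iio w → X), (∀ i, P (x i)) → ∃ y, P y ∧ ∀ i, R (x i) y) :
    ∃ x : W → X, (∀ w, P (x w)) ∧ ∀ w' w, w' < w → R (x w') (x w) :=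
  chain_rec' (fun _ => P) (fun _ _ => R) step

variable {ι : Type u} {lam : ι → Cardinal.{u}} {μ : Cardinal.{u}}

/-- (D_μ): at most `μ` functions are bounded modulo the sets of cofinality `≤ μ`. -/
def BD (lam : ι → Cardinal.{u}) (μ : Cardinal.{u}) : Prop :=
  ∀ (T : Type u) (f : T → ι → Ordinal.{u}), #T ≤ μ → (∀ t, f t ∈ Pr lam) →
    ∃ h ∈ Pr lam, ∀ t, cf lam {a | h a < f t a} ≤ μ

/-- (G_μ): the sets of cofinality `≤ μ` are generated by `μ` of them. -/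
def GE (lam : ι → Cardinal.{u}) (μ : Cardinal.{u}) : Prop :=
  ∃ (T : Type u) (e : T → Set ι), #T ≤ μ ∧ (∀ t, cf lam (e t) ≤ μ) ∧
    ∀ c, cf lam c ≤ μ → ∃ t, c ⊆ e t

theorem zero_mem_Pr (hlam : Fam lam) : (fun _ => 0 : ι → Ordinal.{u}) ∈ Pr lam :=
  fun a => (hlam a).1.ord_pos

theorem max_mem_Pr {f g : ι → Ordinal.{u}} (hf : f ∈ Pr lam) (hg : g ∈ Pr lam) :
    (fun a => max (f a) (g a)) ∈ Pr lam := fun a => max_lt (hf a) (hg a)

theorem succ_mem_Pr (hlam : Fam lam) {f : ι → Ordinal.{u}} (hf : f ∈ Pr lam) :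
    (fun a => Order.succ (f a)) ∈ Pr lam := fun a =>
  (isSuccLimit_ord (hlam a).1.aleph0_le).succ_lt (hf a)

/-- a family of at most `μ` elements is enumerated by `μ` -/
theorem exists_enum {T : Type u} (hT : #T ≤ μ) [Nonempty T] :
    ∃ e : μ.ord.ToType → T, Function.Surjective e := by
  have h1 : #T ≤ #(μ.ord.ToType) := by rwa [mk_ord_toType]
  obtain ⟨j⟩ := (Cardinal.le_def _ _).1 h1
  exact ⟨Function.invFun j, Function.invFun_surjective j.injective⟩

/-- only the empty set has cofinality below `ℵ₄` -/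
theorem eq_empty_of_cf_lt (hlam : Fam lam) {c : Set ι} (h : cf lam c < ℵ_ 4) : c = ∅ := by
  by_contra hne
  obtain ⟨a, ha⟩ := Set.nonempty_iff_ne_empty.2 hne
  exact absurd (((hlam a).2.trans (le_cf hlam ha)).trans_lt h) (lt_irrefl _)

theorem dg_small (hlam : Fam lam) (hμ : ℵ₀ ≤ μ) (h3 : μ ≤ ℵ_ 3) : BD lam μ ∧ GE lam μ := by
  have h1 : (1 : Cardinal.{u}) ≤ μ := one_le_aleph0.trans hμ
  constructor
  · intro T f hT hf
    obtain ⟨h, hh, hb⟩ := exists_bound_fun hlam (T := T) (by simpa using hT.trans h3) f hf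
    refine ⟨h, hh, fun t => ?_⟩
    have h2 : {a | h a < f t a} = ∅ := by
      refine Set.eq_empty_iff_forall_notMem.2 fun a ha => ?_
      exact absurd ((hb t a).trans ha) (lt_irrefl _)
    rw [h2]
    exact cf_empty.trans h1
  · refine ⟨PUnit, fun _ => ∅, by simpa using h1, fun _ => cf_empty.trans h1, fun c hc => ?_⟩
    refine ⟨PUnit.unit, ?_⟩
    rw [eq_empty_of_cf_lt hlam (hc.trans_lt (h3.trans_lt
      (Cardinal.aleph_lt_aleph.2 (by norm_num))))]

theorem isGen_of_lt (hlam : Fam lam) (hμ : ℵ₀ ≤ μ) (IH : ∀ ν < μ, ℵ₀ ≤ ν → GE lam ν) :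
    ∃ (T : Type u) (e : T → Set ι), IsGen lam μ T e := by
  rcases hμ.eq_or_lt with rfl | hμ'
  · refine ⟨PUnit, fun _ => ∅, by simp, fun _ => cf_empty.trans_lt one_lt_aleph0,
      fun c hc => ⟨PUnit.unit, ?_⟩⟩
    rw [eq_empty_of_cf_lt hlam (hc.trans_le (aleph0_le_aleph _))]
  have hν : ∀ x : μ.ord.ToType, max ((ToType.toOrd x : Set.Iio _) : Ordinal.{u}).card ℵ₀ < μ :=
    fun x => max_lt (Cardinal.lt_ord.1 (ToType.toOrd x).2) hμ'
  choose T e hT he hgen using fun x => IH _ (hν x) (le_max_right _ _)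
  refine ⟨Σ x, T x, fun p => e p.1 p.2, ?_, fun p => (he p.1 p.2).trans_lt (hν p.1), ?_⟩
  · rw [Cardinal.mk_sigma]
    calc Cardinal.sum (fun x => #(T x)) ≤ Cardinal.sum (fun _ : μ.ord.ToType => μ) :=
          Cardinal.sum_le_sum _ _ (fun x => (hT x).trans (hν x).le)
      _ = #(μ.ord.ToType) * μ := by rw [Cardinal.sum_const']
      _ = μ := by rw [mk_ord_toType, Cardinal.mul_eq_self hμ]
  · intro c hc
    have h1 : (cf lam c).ord < μ.ord := Cardinal.ord_lt_ord.2 hc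
    obtain ⟨t, ht⟩ := hgen (ToType.mk ⟨(cf lam c).ord, Set.mem_Iio.2 h1⟩) c (by
      refine le_trans ?_ (le_max_left _ _)
      simp)
    exact ⟨⟨_, t⟩, ht⟩

/-- strong form of (D_μ) for singular `μ` -/
theorem sing_bound (hμ : ℵ₀ ≤ μ) (hreg : ¬ μ.IsRegular)
    (IHD : ∀ ν < μ, ℵ₀ ≤ ν → BD lam ν) (hlam : Fam lam) (T : Type u) (f : T → ι → Ordinal.{u})
    (hT : #T ≤ μ) (hf : ∀ t, f t ∈ Pr lam) :
    ∃ h ∈ Pr lam, ∀ t, cf lam {a | h a < f t a} < μ := by
  rcases isEmpty_or_nonempty T with hTe | hTe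
  · exact ⟨_, zero_mem_Pr hlam, fun t => (hTe.false t).elim⟩
  have hcof : μ.ord.cof < μ := by
    refine lt_of_le_of_ne (cof_ord_le μ) fun h => hreg ⟨hμ, h.ge⟩
  have hμ' : ℵ₀ < μ := by
    refine lt_of_le_of_ne hμ fun h => hreg (h ▸ isRegular_aleph0)
  obtain ⟨en, hen⟩ := exists_enum hT
  obtain ⟨S, hS, hScard⟩ := Order.exists_cof_eq μ.ord.ToType
  rw [cof_toType] at hScard
  have hν : ∀ x : μ.ord.ToType, max #(Set.Iic x) ℵ₀ < μ := by
    intro x
    refine max_lt ?_ hμ'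
    have h1 : #(Set.Iic x) ≤ #(Set.Iio x) + 1 := by
      rw [← Set.Iio_insert]
      exact Cardinal.mk_insert_le
    refine h1.trans_lt (Cardinal.add_lt_of_lt hμ ?_ (one_lt_aleph0.trans hμ'))
    have h2 := Cardinal.mk_Iio_lt (α := μ.ord.ToType) x (by
      rw [mk_ord_toType, type_toType])
    rwa [mk_ord_toType] at h2
  choose H hH hHb using fun s : S => IHD _ (hν s.1) (le_max_right _ _) (Set.Iic s.1)
    (fun w => f (en w.1)) (le_max_left _ _) (fun w => hf _)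
  obtain ⟨h, hh, hb⟩ := IHD _ (max_lt (hScard.trans_lt hcof) hμ') (le_max_right _ _) S H
    (le_max_left _ _) hH
  refine ⟨h, hh, fun t => ?_⟩
  obtain ⟨w, rfl⟩ := hen t
  obtain ⟨s, hs, hws⟩ := hS w
  have h1 := hHb ⟨s, hs⟩ ⟨w, hws⟩
  have h2 := hb ⟨s, hs⟩
  have h3 : {a | h a < f (en w) a} ⊆ {a | H ⟨s, hs⟩ a < f (en w) a} ∪ {a | h a < H ⟨s, hs⟩ a} := by
    intro a ha
    by_cases h4 : H ⟨s, hs⟩ a < f (en w) a
    · exact Or.inl h4
    · exact Or.inr (lt_of_lt_of_le ha (not_lt.1 h4))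
  exact (cf_mono h3).trans_lt (cf_union_lt hμ (h1.trans_lt (hν s))
    (h2.trans_lt (max_lt (hScard.trans_lt hcof) hμ')))

theorem sing (hμ : ℵ₀ ≤ μ) (hreg : ¬ μ.IsRegular)
    (IHD : ∀ ν < μ, ℵ₀ ≤ ν → BD lam ν) (IHG : ∀ ν < μ, ℵ₀ ≤ ν → GE lam ν) (hlam : Fam lam) :
    BD lam μ ∧ GE lam μ ∧ ∀ c, cf lam c ≤ μ → cf lam c < μ := by
  have h1 : ∀ c, cf lam c ≤ μ → cf lam c < μ := by
    intro c hc
    obtain ⟨T, g, hT, hg, hdom⟩ := cf_le_iff.1 hc
    obtain ⟨h, hh, hb⟩ := sing_bound hμ hreg IHD hlam T g hT hg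
    obtain ⟨t, ht⟩ := hdom _ (succ_mem_Pr hlam hh)
    exact (cf_mono fun a ha => (Order.lt_succ (h a)).trans_le (ht a ha)).trans_lt (hb t)
  refine ⟨?_, ?_, h1⟩
  · intro T f hT hf
    obtain ⟨h, hh, hb⟩ := sing_bound hμ hreg IHD hlam T f hT hf
    exact ⟨h, hh, fun t => (hb t).le⟩
  · obtain ⟨T, e, hT, he, hgen⟩ := isGen_of_lt hlam hμ IHG
    exact ⟨T, e, hT, fun t => (he t).le, fun c hc => hgen c (h1 c hc)⟩

theorem inc (hlam : Fam lam) (hμ : μ.IsRegular) (h4 : ℵ_ 4 ≤ μ)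
    (IHD : ∀ ν < μ, ℵ₀ ≤ ν → BD lam ν)
    (b : μ.ord.ToType → ι → Ordinal.{u}) (hb : ∀ w, b w ∈ Pr lam) :
    ∃ g : μ.ord.ToType → ι → Ordinal.{u}, (∀ w, g w ∈ Pr lam) ∧ (∀ w a, b w a ≤ g w a) ∧
      ∀ w w', w < w' → cf lam {a | g w' a < g w a} < μ := by
  have hμ' : ℵ₀ < μ := by
    refine lt_of_lt_of_le ?_ h4
    rw [← Cardinal.aleph_zero]
    exact Cardinal.aleph_lt_aleph.2 (by norm_num)
  obtain ⟨g, hgP, hgR⟩ := chain_rec' (W := μ.ord.ToType)
    (P := fun w (x : ι → Ordinal.{u}) => x ∈ Pr lam ∧ ∀ a, b w a ≤ x a)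
    (R := fun _ _ x y => cf lam {a | y a < x a} < μ) (by
      intro w x hx
      have hν : max #(Set.Iio w) ℵ₀ < μ := by
        refine max_lt ?_ hμ'
        have h2 := Cardinal.mk_Iio_lt (α := μ.ord.ToType) w (by
          rw [mk_ord_toType, type_toType])
        rwa [mk_ord_toType] at h2
      obtain ⟨h, hh, hhb⟩ := IHD _ hν (le_max_right _ _) (Set.Iio w) x (le_max_left _ _)
        (fun i => (hx i).1)
      refine ⟨fun a => max (b w a) (h a), ⟨max_mem_Pr (hb w) hh, fun a => le_max_left _ _⟩,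
        fun i => ?_⟩
      refine (cf_mono fun a ha => ?_).trans_lt ((hhb i).trans_lt hν)
      have ha' : max (b w a) (h a) < x i a := ha
      exact (le_max_right _ _).trans_lt ha')
  exact ⟨g, fun w => (hgP w).1, fun w => (hgP w).2, fun w w' hww => hgR w w' hww⟩

end Pool.Agent.Helper14.PCF
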