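import Mathlib
import Pool.Agent.Helper14.PCF.Mini1

/-!
Module M2b: the induction step of the small pcf theory for regular `μ` (note 751, step 2).
-/

open Cardinal Ordinal Set

universe u v

namespace Pool.Agent.Helper14.PCF

/-! ### Tools -/

/-- the drop lemma: decreasing sequences of subsets of a small set are not strictly
decreasing -/
theorem drop {ι : Type u} (hι : #ι ≤ ℵ₁) (X : (ℵ_ 2 : Cardinal.{u}).ord.ToType → Set ι)
    (hX : ∀ w w', w ≤ w' → X w' ⊆ X w) (hd : ∀ w w', w < w' → ∃ a ∈ X w, a ∉ X w') : False := by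
  have hex : ∀ w : (ℵ_ 2 : Cardinal.{u}).ord.ToType, ∃ w', w < w' := by
    intro w
    have hl : Order.IsSuccLimit (ℵ_ 2 : Cardinal.{u}).ord := isSuccLimit_ord (aleph0_le_aleph 2)
    have h1 := (ToType.toOrd w).2
    have h2 : Order.succ ((ToType.toOrd w : Set.Iio _) : Ordinal.{u}) < (ℵ_ 2).ord :=
      hl.succ_lt h1
    refine ⟨ToType.mk ⟨_, Set.mem_Iio.2 h2⟩, ?_⟩
    have h3 : ToType.mk (ToType.toOrd w) < ToType.mk ⟨_, Set.mem_Iio.2 h2⟩ := by
      rw [OrderIso.lt_iff_lt, ← Subtype.coe_lt_coe]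
      exact Order.lt_succ _
    simpa using h3
  choose s hs using fun w => (wellFounded_lt (α := (ℵ_ 2 : Cardinal.{u}).ord.ToType)).has_min
    {w' | w < w'} (hex w)
  choose p hp using fun w => hd w (s w) (hs w).1
  have hinj : Function.Injective p := by
    have key : ∀ w w', w < w' → p w ≠ p w' := by
      intro w w' hww h
      apply (hp w).2
      rw [h]
      refine hX (s w) w' ?_ (hp w').1
      exact not_lt.1 ((hs w).2 w' hww)
    intro w w' h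
    by_contra hne
    rcases lt_or_gt_of_ne hne with h1 | h1
    · exact key _ _ h1 h
    · exact key _ _ h1 h.symm
  have h1 := Cardinal.mk_le_of_injective hinj
  rw [mk_ord_toType] at h1
  have h2 : (ℵ_ 2 : Cardinal.{u}) ≤ ℵ₁ := h1.trans hι
  rw [Cardinal.aleph_le_aleph] at h2
  norm_num at h2

/-- fewer than `μ` points of `μ` are bounded, `μ` regular -/
theorem bound_toType {μ : Cardinal.{u}} (hμ : μ.IsRegular) {T : Type u} (hT : #T < μ)
    (f : T → μ.ord.ToType) : ∃ w, ∀ t, f t < w := by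
  obtain ⟨β, hβ, h⟩ := exists_bound.{u, u} hμ (T := T) (by simpa using hT)
    (fun t => ((ToType.toOrd (f t) : Set.Iio _) : Ordinal.{u})) (fun t => (ToType.toOrd (f t)).2)
  refine ⟨ToType.mk ⟨β, hβ⟩, fun t => ?_⟩
  have h3 : ToType.mk (ToType.toOrd (f t)) < ToType.mk ⟨β, hβ⟩ := by
    rw [OrderIso.lt_iff_lt, ← Subtype.coe_lt_coe]
    exact h t
  simpa using h3

theorem mk_Iio_le3 (w : (ℵ_ 2 : Cardinal.{u}).ord.ToType) : #(Set.Iio w) ≤ ℵ_ 3 := by
  have h2 := Cardinal.mk_Iio_lt (α := (ℵ_ 2 : Cardinal.{u}).ord.ToType) w (by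
    rw [mk_ord_toType, type_toType])
  rw [mk_ord_toType] at h2
  exact h2.le.trans (Cardinal.aleph_le_aleph.2 (by norm_num))

section

variable {ι : Type u} {lam : ι → Cardinal.{u}} {μ : Cardinal.{u}}

theorem mk_index_le {T : Type u} (hμ : ℵ₀ ≤ μ) {S : T → Type u} (hT : #T ≤ μ)
    (hS : ∀ t, #(S t) ≤ μ) : #(μ.ord.ToType × (Σ t, S t)) ≤ μ := by
  have h1 : #(Σ t, S t) ≤ μ := by
    rw [Cardinal.mk_sigma]
    calc Cardinal.sum (fun t => #(S t)) ≤ Cardinal.sum (fun _ : T => μ) :=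
          Cardinal.sum_le_sum _ _ hS
      _ = #T * μ := by rw [Cardinal.sum_const']
      _ ≤ μ * μ := by gcongr
      _ = μ := Cardinal.mul_eq_self hμ
  calc #(μ.ord.ToType × (Σ t, S t)) = #(μ.ord.ToType) * #(Σ t, S t) := by
        rw [Cardinal.mk_prod, Cardinal.lift_id, Cardinal.lift_id]
    _ ≤ μ * μ := by
        rw [mk_ord_toType]
        gcongr
    _ = μ := Cardinal.mul_eq_self hμ

/-! ### Bounds -/

/-- if `g` is increasing modulo small sets and the set `c` is not dominated by `μ` functions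
then some function is not small-below all `g w` on `c` -/
theorem escape (hlam : Fam lam) (hμ : ℵ₀ ≤ μ) (IHG : ∀ ν < μ, ℵ₀ ≤ ν → GE lam ν)
    (g : μ.ord.ToType → ι → Ordinal.{u}) (hg : ∀ w, g w ∈ Pr lam) (c : Set ι)
    (hc : μ < cf lam c) :
    ∃ h ∈ Pr lam, ∀ w, ¬ cf lam {a | a ∈ c ∧ g w a < h a} < μ := by
  by_contra hcon
  push Not at hcon
  obtain ⟨T, e, hT, he, hgen⟩ := isGen_of_lt hlam hμ IHG
  choose S G hS hG hdom using fun t => cf_le_iff.1 (le_refl (cf lam (e t)))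
  apply hc.not_ge
  rw [cf_le_iff]
  refine ⟨μ.ord.ToType × (Σ t, S t), fun p a => max (g p.1 a) (G p.2.1 p.2.2 a),
    mk_index_le hμ hT (fun t => (hS t).trans (he t).le), ?_, ?_⟩
  · rintro ⟨w, t, s⟩
    exact max_mem_Pr (hg w) (hG t s)
  · intro f hf
    obtain ⟨w, hw⟩ := hcon f hf
    obtain ⟨t, ht⟩ := hgen _ hw
    obtain ⟨s, hs⟩ := hdom t f hf
    refine ⟨(w, ⟨t, s⟩), ?_⟩
    intro a ha
    by_cases hfa : g w a < f a
    · exact (hs a (ht ⟨ha, hfa⟩)).trans (le_max_right _ _)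
    · exact (not_lt.1 hfa).trans (le_max_left _ _)

theorem regD (hι : #ι ≤ ℵ₁) (hlam : Fam lam) (hμ : μ.IsRegular) (h4 : ℵ_ 4 ≤ μ)
    (IHD : ∀ ν < μ, ℵ₀ ≤ ν → BD lam ν) (IHG : ∀ ν < μ, ℵ₀ ≤ ν → GE lam ν) : BD lam μ := by
  intro T f hT hf
  rcases isEmpty_or_nonempty T with hTe | hTe
  · exact ⟨_, zero_mem_Pr hlam, fun t => (hTe.false t).elim⟩
  have hμ0 : ℵ₀ ≤ μ := hμ.aleph0_le
  obtain ⟨en, hen⟩ := exists_enum (μ := μ) hT
  obtain ⟨g, hgm, hgb, hginc⟩ := inc hlam hμ h4 IHD (fun w => f (en w)) (fun w => hf _)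
  by_contra hcon
  push Not at hcon
  have h1 : ∀ h ∈ Pr lam, ∃ w, μ < cf lam {a | h a < g w a} := by
    intro h hh
    obtain ⟨t, ht⟩ := hcon h hh
    obtain ⟨w, rfl⟩ := hen t
    exact ⟨w, ht.trans_le (cf_mono fun a (ha : h a < f (en w) a) => ha.trans_le (hgb w a))⟩
  have h2 : ∀ h : ι → Ordinal.{u}, ∃ (w : μ.ord.ToType) (h' : ι → Ordinal.{u}), h ∈ Pr lam →
      (h' ∈ Pr lam ∧ ∀ w', ¬ cf lam {a | a ∈ {a | h a < g w a} ∧ g w' a < h' a} < μ) := by
    intro h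
    by_cases hh : h ∈ Pr lam
    · obtain ⟨w, hw⟩ := h1 h hh
      obtain ⟨h', hh', hw'⟩ := escape hlam hμ0 IHG g hgm _ hw
      exact ⟨w, h', fun _ => ⟨hh', hw'⟩⟩
    · obtain ⟨w⟩ : Nonempty μ.ord.ToType := by
        rw [nonempty_toType_iff]
        exact hμ.ord_pos.ne'
      exact ⟨w, h, fun h => (hh h).elim⟩
  choose al N hN using h2
  obtain ⟨x, hxP, hxR⟩ := chain_rec (W := (ℵ_ 2 : Cardinal.{u}).ord.ToType)
    (P := fun h : ι → Ordinal.{u} => h ∈ Pr lam)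
    (R := fun h h' => (∀ a, h a ≤ h' a) ∧ ∀ a, N h a ≤ h' a) (by
      intro w x hx
      obtain ⟨y, hy, hxy⟩ := exists_bound_fun hlam (T := Set.Iio w) (by simpa using mk_Iio_le3 w)
        (fun i a => max (x i a) (N (x i) a)) (fun i => max_mem_Pr (hx i) (hN _ (hx i)).1)
      exact ⟨y, hy, fun i => ⟨fun a => (le_max_left _ _).trans (hxy i a).le,
        fun a => (le_max_right _ _).trans (hxy i a).le⟩⟩)
  obtain ⟨wt, hwt⟩ := bound_toType hμ (T := (ℵ_ 2 : Cardinal.{u}).ord.ToType)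
    (by
      rw [mk_ord_toType]
      exact (Cardinal.aleph_lt_aleph.2 (by norm_num)).trans_le h4)
    (fun w => al (x w))
  refine drop hι (fun w => {a | x w a < g wt a}) ?_ ?_
  · intro w w' hww a ha
    rcases hww.eq_or_lt with rfl | h
    · exact ha
    · exact ((hxR w w' h).1 a).trans_lt ha
  · intro w w' hww
    have h3 := (hN _ (hxP w)).2 wt
    have h4' := hginc _ _ (hwt w)
    have h5 : ¬ ({a | a ∈ {a | x w a < g (al (x w)) a} ∧ g wt a < N (x w) a} ⊆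
        {a | g wt a < g (al (x w)) a}) := fun hsub => h3 ((cf_mono hsub).trans_lt h4')
    obtain ⟨a, ha, ha'⟩ := Set.not_subset.1 h5
    refine ⟨a, ?_, ?_⟩
    · have h8 : g (al (x w)) a ≤ g wt a := not_lt.1 ha'
      exact lt_of_lt_of_le ha.1 h8
    · intro h6
      have h7 : x w' a < g wt a := h6
      exact absurd (h7.trans (ha.2.trans_le ((hxR w w' hww).2 a))) (lt_irrefl _)

/-- the universal sequence -/
theorem universal (hι : #ι ≤ ℵ₁) (hlam : Fam lam) (hμ : μ.IsRegular) (h4 : ℵ_ 4 ≤ μ)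
    (IHD : ∀ ν < μ, ℵ₀ ≤ ν → BD lam ν) :
    ∃ g : μ.ord.ToType → ι → Ordinal.{u}, (∀ w, g w ∈ Pr lam) ∧
      (∀ w w', w < w' → cf lam {a | g w' a < g w a} < μ) ∧
      ∀ c, cf lam c ≤ μ → ∀ h ∈ Pr lam, ∃ w, cf lam {a | a ∈ c ∧ g w a ≤ h a} < μ := by
  by_contra hcon
  push Not at hcon
  have hμ0 : ℵ₀ ≤ μ := hμ.aleph0_le
  have h1 : ∀ g : μ.ord.ToType → ι → Ordinal.{u}, ∃ (c : Set ι) (h : ι → Ordinal.{u})
      (d : μ.ord.ToType → ι → Ordinal.{u}), ((∀ w, g w ∈ Pr lam) ∧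
      (∀ w w', w < w' → cf lam {a | g w' a < g w a} < μ)) →
      (h ∈ Pr lam ∧ (∀ w, μ ≤ cf lam {a | a ∈ c ∧ g w a ≤ h a}) ∧ (∀ w, d w ∈ Pr lam) ∧
        ∀ f ∈ Pr lam, ∃ w, ∀ a ∈ c, f a ≤ d w a) := by
    intro g
    by_cases hg : (∀ w, g w ∈ Pr lam) ∧
      (∀ w w', w < w' → cf lam {a | g w' a < g w a} < μ)
    · obtain ⟨c, hc, h, hh, hw⟩ := hcon g hg.1 hg.2
      obtain ⟨T, G, hT, hG, hdom⟩ := cf_le_iff.1 hc
      obtain ⟨t0, _⟩ := hdom _ (zero_mem_Pr hlam)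
      have : Nonempty T := ⟨t0⟩
      obtain ⟨en, hen⟩ := exists_enum (μ := μ) hT
      refine ⟨c, h, fun w => G (en w), fun _ => ⟨hh, hw, fun w => hG _, fun f hf => ?_⟩⟩
      obtain ⟨t, ht⟩ := hdom f hf
      obtain ⟨w, rfl⟩ := hen t
      exact ⟨w, ht⟩
    · exact ⟨∅, fun _ => 0, g, fun h => (hg h).elim⟩
  choose c h d hP using h1
  obtain ⟨G, hGP, hGR⟩ := chain_rec (W := (ℵ_ 2 : Cardinal.{u}).ord.ToType)
    (P := fun g : μ.ord.ToType → ι → Ordinal.{u} => (∀ w, g w ∈ Pr lam) ∧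
      (∀ w w', w < w' → cf lam {a | g w' a < g w a} < μ))
    (R := fun g g' => ∀ al a, g al a ≤ g' al a ∧ d g al a ≤ g' al a) (by
      intro w x hx
      choose b hb hxb using fun al => exists_bound_fun hlam (T := Set.Iio w)
        (by simpa using mk_Iio_le3 w)
        (fun i a => max (x i al a) (d (x i) al a))
        (fun i => max_mem_Pr ((hx i).1 al) ((hP _ (hx i)).2.2.1 al))
      obtain ⟨g, hgm, hgb, hginc⟩ := inc hlam hμ h4 IHD b hb
      refine ⟨g, ⟨hgm, hginc⟩, fun i al a => ⟨?_, ?_⟩⟩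
      · exact ((le_max_left _ _).trans (hxb al i a).le).trans (hgb al a)
      · exact ((le_max_right _ _).trans (hxb al i a).le).trans (hgb al a))
  obtain ⟨hs, hhs, hhb⟩ := exists_bound_fun hlam (T := (ℵ_ 2 : Cardinal.{u}).ord.ToType)
    (by
      rw [mk_ord_toType, Cardinal.lift_id]
      exact Cardinal.aleph_le_aleph.2 (by norm_num))
    (fun w => h (G w)) (fun w => (hP _ (hGP w)).1)
  have hhs' : (fun a => Order.succ (hs a)) ∈ Pr lam := fun a =>
    (isSuccLimit_ord (hlam a).1.aleph0_le).succ_lt (hhs a)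
  choose al hal using fun w => (hP _ (hGP w)).2.2.2 _ hhs'
  obtain ⟨wt, hwt⟩ := bound_toType hμ (T := (ℵ_ 2 : Cardinal.{u}).ord.ToType)
    (by
      rw [mk_ord_toType]
      exact (Cardinal.aleph_lt_aleph.2 (by norm_num)).trans_le h4) al
  refine drop hι (fun w => {a | G w wt a ≤ hs a}) ?_ ?_
  · intro w w' hww a ha
    rcases hww.eq_or_lt with rfl | hlt
    · exact ha
    · exact ((hGR w w' hlt wt a).1).trans ha
  · intro w w' hww
    have h3 := (hP _ (hGP w)).2.1 wt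
    have h4' := (hGP w').2 _ _ (hwt w)
    have h5 : ¬ ({a | a ∈ c (G w) ∧ G w wt a ≤ h (G w) a} ⊆
        {a | G w' wt a < G w' (al w) a}) := fun hsub =>
      absurd ((cf_mono hsub).trans_lt h4') (not_lt.2 h3)
    obtain ⟨a, ha, ha'⟩ := Set.not_subset.1 h5
    refine ⟨a, ?_, ?_⟩
    · exact ha.2.trans (hhb w a).le
    · intro h6
      have h7 : G w' wt a ≤ hs a := h6
      have h8 : Order.succ (hs a) ≤ d (G w) (al w) a := hal w a ha.1
      have h9 : d (G w) (al w) a ≤ G w' (al w) a := (hGR w w' hww (al w) a).2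
      have h10 : G w' (al w) a ≤ G w' wt a := not_lt.1 ha'
      exact absurd ((h8.trans h9).trans (h10.trans h7)) (not_le.2 (Order.lt_succ _))

theorem regG (hι : #ι ≤ ℵ₁) (hlam : Fam lam) (hμ : μ.IsRegular) (h4 : ℵ_ 4 ≤ μ)
    (IHD : ∀ ν < μ, ℵ₀ ≤ ν → BD lam ν) (IHG : ∀ ν < μ, ℵ₀ ≤ ν → GE lam ν)
    (hD : BD lam μ) : GE lam μ := by
  have hμ0 : ℵ₀ ≤ μ := hμ.aleph0_le
  obtain ⟨g, hgm, -, hgu⟩ := universal hι hlam hμ h4 IHD
  obtain ⟨h, hh, hgh⟩ := hD _ g (by rw [mk_ord_toType]) hgm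
  obtain ⟨T, e, hT, he, hgen⟩ := isGen_of_lt hlam hμ0 IHG
  refine ⟨μ.ord.ToType × T, fun p => {a | h a < g p.1 a} ∪ e p.2, ?_, ?_, ?_⟩
  · calc #(μ.ord.ToType × T) = #(μ.ord.ToType) * #T := by
          rw [Cardinal.mk_prod, Cardinal.lift_id, Cardinal.lift_id]
      _ ≤ μ * μ := by
          rw [mk_ord_toType]
          gcongr
      _ = μ := Cardinal.mul_eq_self hμ0
  · rintro ⟨w, t⟩
    exact cf_union hμ0 (hgh w) (he t).le
  · intro c hc
    obtain ⟨w, hw⟩ := hgu c hc h hh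
    obtain ⟨t, ht⟩ := hgen _ hw
    refine ⟨(w, t), fun a ha => ?_⟩
    by_cases hga : g w a ≤ h a
    · exact Or.inr (ht ⟨ha, hga⟩)
    · exact Or.inl (not_le.1 hga)

end

end Pool.Agent.Helper14.PCF
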