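import Mathlib
import Pool.Agent.Helper14.PCF.Mini2

/-!
Module M2 + M3: the small pcf theory: bounds modulo the sets of small cofinality, generators,
regularity of cofinalities and scales (paper proof: note 751, step 2).
-/

open Cardinal Ordinal Set

universe u v

namespace Pool.Agent.Helper14.PCF

variable {ι : Type u} {lam : ι → Cardinal.{u}} {c : Set ι} {μ : Cardinal.{u}}

theorem dg_all (hι : #ι ≤ ℵ₁) (hlam : Fam lam) (μ : Cardinal.{u}) (hμ : ℵ₀ ≤ μ) :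
    BD lam μ ∧ GE lam μ := by
  induction μ using WellFoundedLT.induction with
  | ind μ ih =>
  by_cases h3 : μ ≤ ℵ_ 3
  · exact dg_small hlam hμ h3
  have h4 : ℵ_ 4 ≤ μ := by
    have h5 : (ℵ_ 4 : Cardinal.{u}) = Order.succ (ℵ_ 3) := by
      rw [Cardinal.succ_aleph]
      congr 1
    rw [h5]
    exact Order.succ_le_of_lt (not_le.1 h3)
  by_cases hreg : μ.IsRegular
  · have hD := regD hι hlam hreg h4 (fun ν hν h0 => (ih ν hν h0).1) (fun ν hν h0 => (ih ν hν h0).2)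
    exact ⟨hD, regG hι hlam hreg h4 (fun ν hν h0 => (ih ν hν h0).1)
      (fun ν hν h0 => (ih ν hν h0).2) hD⟩
  · have h := sing hμ hreg (fun ν hν h0 => (ih ν hν h0).1) (fun ν hν h0 => (ih ν hν h0).2) hlam
    exact ⟨h.1, h.2.1⟩

/-- (D_μ): at most `μ` functions are bounded modulo the sets of cofinality `≤ μ`. -/
theorem exists_bound_mod (hι : #ι ≤ ℵ₁) (hlam : Fam lam) (hμ : ℵ₀ ≤ μ) {T : Type u}
    (hT : #T ≤ μ) (f : T → ι → Ordinal.{u}) (hf : ∀ t, f t ∈ Pr lam) :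
    ∃ h ∈ Pr lam, ∀ t, cf lam {a | h a < f t a} ≤ μ :=
  (dg_all hι hlam μ hμ).1 T f hT hf

/-- (G_μ), for the sets of cofinality `< μ` -/
theorem exists_isGen (hι : #ι ≤ ℵ₁) (hlam : Fam lam) (hμ : ℵ₀ ≤ μ) :
    ∃ (T : Type u) (e : T → Set ι), IsGen lam μ T e :=
  isGen_of_lt hlam hμ fun ν _ h0 => (dg_all hι hlam ν h0).2

theorem big_cf (hι : #ι ≤ ℵ₁) (hlam : Fam lam) (hc : c.Nonempty) : Big (cf lam c) := by
  obtain ⟨a, ha⟩ := hc
  have h4 : ℵ_ 4 ≤ cf lam c := (hlam a).2.trans (le_cf hlam ha)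
  have h0 : ℵ₀ ≤ cf lam c := (aleph0_le_aleph 4).trans h4
  refine ⟨?_, h4⟩
  by_contra hreg
  exact absurd ((sing h0 hreg (fun ν _ h => (dg_all hι hlam ν h).1)
    (fun ν _ h => (dg_all hι hlam ν h).2) hlam).2.2 c le_rfl) (lt_irrefl _)

theorem exists_scale (hι : #ι ≤ ℵ₁) (hlam : Fam lam) (hc : c.Nonempty) :
    ∃ F, IsScale lam c F := by
  classical
  have hbig := big_cf hι hlam hc
  obtain ⟨T, g, hT, hg, hdom⟩ := cf_le_iff.1 (le_refl (cf lam c))
  obtain ⟨t0, _⟩ := hdom _ (zero_mem_Pr hlam)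
  have : Nonempty T := ⟨t0⟩
  obtain ⟨en, hen⟩ := exists_enum hT
  obtain ⟨G, hGm, hGb, hGinc⟩ := inc hlam hbig.1 hbig.2 (fun ν _ h => (dg_all hι hlam ν h).1)
    (fun w => g (en w)) (fun w => hg _)
  refine ⟨fun γ => if h : γ < (cf lam c).ord then G (ToType.mk ⟨γ, Set.mem_Iio.2 h⟩)
    else fun _ => 0, ?_, ?_, ?_⟩
  · intro γ
    dsimp only
    split_ifs with h
    · exact hGm _
    · exact zero_mem_Pr hlam
  · intro β γ hβγ hγ
    dsimp only
    rw [dif_pos hγ, dif_pos (hβγ.trans hγ)]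
    refine hGinc _ _ ?_
    rw [OrderIso.lt_iff_lt, ← Subtype.coe_lt_coe]
    exact hβγ
  · intro f hf
    obtain ⟨t, ht⟩ := hdom f hf
    obtain ⟨w, rfl⟩ := hen t
    refine ⟨((ToType.toOrd w : Set.Iio _) : Ordinal.{u}), (ToType.toOrd w).2, fun a ha => ?_⟩
    dsimp only
    rw [dif_pos (Set.mem_Iio.1 (ToType.toOrd w).2)]
    refine ((ht a ha).trans (hGb w a)).trans_eq ?_
    congr 1
    simp

/-! ### Consequences for the chosen objects -/

theorem isScale_scale (hι : #ι ≤ ℵ₁) (hlam : Fam lam) (hc : c.Nonempty) :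
    IsScale lam c (scale lam c) := by
  have h := exists_scale hι hlam hc
  unfold scale
  rw [dif_pos h]
  exact h.choose_spec

theorem scale_mem (hlam : Fam lam) (γ : Ordinal.{u}) : scale lam c γ ∈ Pr lam := by
  unfold scale
  split_ifs with h
  · exact h.choose_spec.1 γ
  · exact fun a => (hlam a).1.ord_pos

theorem isGen_gen (hι : #ι ≤ ℵ₁) (hlam : Fam lam) (hμ : ℵ₀ ≤ μ) :
    IsGen lam μ (GenT lam μ) (gen lam μ) := by
  have h : ∃ (T : Type u) (e : T → Set ι), IsGen lam μ T e := exists_isGen hι hlam hμ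
  have hT : GenT lam μ = h.choose := by
    unfold GenT
    rw [dif_pos h]
  have key : ∀ (T' : Type u) (hT' : T' = h.choose),
      IsGen lam μ T' (fun t => h.choose_spec.choose (cast hT' t)) := by
    intro T' hT'
    subst hT'
    exact h.choose_spec.choose_spec
  have h2 : gen lam μ = fun t => h.choose_spec.choose (cast hT t) := by
    funext t
    unfold gen
    rw [dif_pos h]
  rw [h2]
  exact key _ hT

theorem rk_spec (hι : #ι ≤ ℵ₁) (hlam : Fam lam) (hc : c.Nonempty) {f : ι → Ordinal.{u}}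
    (hf : f ∈ Pr lam) : rk lam c f < (cf lam c).ord ∧ ∀ a ∈ c, f a ≤ scale lam c (rk lam c f) a := by
  obtain ⟨γ, hγ, h⟩ := (isScale_scale hι hlam hc).2.2 f hf
  have hmem : γ ∈ {γ | ∀ a ∈ c, f a ≤ scale lam c γ a} := h
  exact ⟨(csInf_le' hmem).trans_lt hγ, csInf_mem ⟨γ, hmem⟩⟩

theorem Fhat_mem (hlam : Fam lam) (δ : Ordinal.{u}) : Fhat lam c δ ∈ Pr lam := by
  intro a
  unfold Fhat
  rcases Set.eq_empty_or_nonempty
    {ξ | ξ < (lam a).ord ∧ ∃ E, ClubIn E δ ∧ ∀ γ ∈ E, scale lam c γ a ≤ ξ} with h | h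
  · rw [h, Ordinal.sInf_empty]
    exact (hlam a).1.ord_pos
  · exact (csInf_mem h).1

end Pool.Agent.Helper14.PCF
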