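import Mathlib
import Pool.Agent.Helper14.PCF.Mini
import Pool.Agent.Helper14.PCF.Clubs

/-!
Module PCF-8b: catching the characteristic functions along a chain (note 751, step 5).
-/

open Cardinal Ordinal Set

universe u v

namespace Pool.Agent.Helper14.PCF

/-- the objects -/
abbrev Ob (ι : Type u) : Type (u + 1) := (ι → Cardinal.{u}) × Set ι

section

variable {ι : Type u}

open Classical in
/-- a chosen generator covering the set where `scale β` is not below `scale γ` -/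
noncomputable def cover (lam : ι → Cardinal.{u}) (c : Set ι) (β γ : Ordinal.{u}) : Set ι :=
  if h : ∃ t : GenT lam (cf lam c),
      {a | scale lam c γ a < scale lam c β a} ⊆ gen lam (cf lam c) t then
    gen lam (cf lam c) h.choose else ∅

/-- basic lower bounds -/
def Req0 (_S S' : St ι) (σ : Cardinal.{u}) : Set Ordinal.{u} :=
  {β | ∃ o ∈ S'.C, cf o.1 o.2 = σ ∧ β = rk o.1 o.2 (fun a => S'.K (o.1 a))} ∪
  {β | ∃ o ∈ S'.C, ∃ a, o.1 a = σ ∧ β = scale o.1 o.2 (S'.K (cf o.1 o.2)) a}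

/-- basic new objects -/
def New0 (S S' : St ι) : Set (Ob ι) :=
  {o' | ∃ o ∈ S'.C, o' = (o.1, o.2 ∩ cover o.1 o.2 (rk o.1 o.2 (fun a => S.K (o.1 a)))
    (S'.K (cf o.1 o.2)))}

theorem card_Req0 (hι : #ι ≤ ℵ₁) (S S' : St ι) (σ : Cardinal.{u}) (h' : #S'.C ≤ ℵ_ 2) :
    #(Req0 S S' σ) ≤ ℵ_ 2 := by
  have h2 : (ℵ₀ : Cardinal.{u + 1}) ≤ ℵ_ 2 := aleph0_le_aleph 2
  refine (mk_union_le _ _).trans ?_
  have e1 : #{β | ∃ o ∈ S'.C, cf o.1 o.2 = σ ∧ β = rk o.1 o.2 (fun a => S'.K (o.1 a))} ≤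
      ℵ_ 2 := by
    have hsub : {β | ∃ o ∈ S'.C, cf o.1 o.2 = σ ∧ β = rk o.1 o.2 (fun a => S'.K (o.1 a))} ⊆
        range fun o : S'.C => rk o.1.1 o.1.2 (fun a => S'.K (o.1.1 a)) := by
      rintro β ⟨o, ho, _, rfl⟩
      exact ⟨⟨o, ho⟩, rfl⟩
    exact (mk_le_mk_of_subset hsub).trans (mk_range_le.trans h')
  have e2 : #{β | ∃ o ∈ S'.C, ∃ a, o.1 a = σ ∧ β = scale o.1 o.2 (S'.K (cf o.1 o.2)) a} ≤
      ℵ_ 2 := by
    have hsub : {β | ∃ o ∈ S'.C, ∃ a, o.1 a = σ ∧ β = scale o.1 o.2 (S'.K (cf o.1 o.2)) a} ⊆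
        range fun p : S'.C × ι => scale p.1.1.1 p.1.1.2 (S'.K (cf p.1.1.1 p.1.1.2)) p.2 := by
      rintro β ⟨o, ho, a, _, rfl⟩
      exact ⟨⟨⟨o, ho⟩, a⟩, rfl⟩
    refine (mk_le_mk_of_subset hsub).trans (mk_range_le.trans ?_)
    rw [mk_prod]
    have h3 : Cardinal.lift.{u + 1} #ι ≤ ℵ_ 2 := by
      have h12 : (ℵ₁ : Cardinal.{u + 1}) ≤ ℵ_ 2 := aleph_le_aleph.2 (by norm_num)
      refine le_trans ?_ h12
      simpa using Cardinal.lift_le.{u + 1}.2 hι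
    calc Cardinal.lift.{u} #S'.C * Cardinal.lift.{u + 1} #ι ≤ ℵ_ 2 * ℵ_ 2 := by
          apply mul_le_mul' _ h3
          simpa using h'
      _ = ℵ_ 2 := mul_eq_self h2
  exact (add_le_add e1 e2).trans (add_eq_self h2).le

theorem card_New0 (S S' : St ι) (h' : #S'.C ≤ ℵ_ 2) : #(New0 S S') ≤ ℵ_ 2 := by
  have hsub : New0 S S' ⊆ range fun o : S'.C => (o.1.1, o.1.2 ∩ cover o.1.1 o.1.2
      (rk o.1.1 o.1.2 (fun a => S.K (o.1.1 a))) (S'.K (cf o.1.1 o.1.2))) := by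
    rintro o' ⟨o, ho, rfl⟩
    exact ⟨⟨o, ho⟩, rfl⟩
  exact (mk_le_mk_of_subset hsub).trans (mk_range_le.trans h')

variable {Req : St ι → St ι → Cardinal.{u} → Set Ordinal.{u}}
  {New : St ι → St ι → Set (Ob ι)} {C0 : Set (Ob ι)} {S : Ordinal.{u} → St ι}

theorem IsChain.isNormal (hS : IsChain Req New C0 S) (σ : Cardinal.{u}) :
    Order.IsNormal (fun ε => (S ε).K σ) := by
  rw [Order.isNormal_iff]
  refine ⟨fun a b hab => hS.strict a b hab σ, ?_⟩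
  intro o ho a ha
  by_contra hcon
  obtain ⟨ε', hε', h⟩ := hS.cont o ho σ a (not_le.1 hcon)
  exact absurd (ha ε' hε') (not_le.2 h)

theorem IsChain.mono (hS : IsChain Req New C0 S) (σ : Cardinal.{u}) {ε ε' : Ordinal.{u}}
    (h : ε ≤ ε') : (S ε).K σ ≤ (S ε').K σ :=
  (hS.isNormal σ).monotone h

/-- the club of values of the characteristic function bounding the scale -/
theorem IsChain.bound (hS : IsChain Req New C0 S) (hR : ∀ S S' σ, Req0 S S' σ ⊆ Req S S' σ)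
    {ε : Ordinal.{u}} {lam : ι → Cardinal.{u}} {c : Set ι} (hlam : Fam lam)
    (ho : (lam, c) ∈ (S ε).C) (a : ι) {ε' : Ordinal.{u}} (h : ε ≤ ε') :
    scale lam c ((S ε').K (cf lam c)) a < (S (ε' + 1)).K (lam a) := by
  refine hS.req ε' ε' le_rfl (lam a) _ (hR _ _ _ (Or.inr ⟨(lam, c), hS.monoC _ _ h ho, a, rfl,
    rfl⟩)) ?_
  exact scale_mem hlam _ a

/-- `Fhat` is at most the characteristic function, and is attained. -/
theorem IsChain.Fhat_spec (hS : IsChain Req New C0 S)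
    (hR : ∀ S S' σ, Req0 S S' σ ⊆ Req S S' σ)
    {ε : Ordinal.{u}} (hε : ε ≤ ω_ 3) (hlim : Order.IsSuccLimit ε)
    {lam : ι → Cardinal.{u}} {c : Set ι} (hlam : Fam lam)
    (ho : (lam, c) ∈ (S ε).C) (a : ι) :
    Fhat lam c ((S ε).K (cf lam c)) a ≤ (S ε).K (lam a) ∧
    ∃ E, ClubIn E ((S ε).K (cf lam c)) ∧
      ∀ γ ∈ E, scale lam c γ a ≤ Fhat lam c ((S ε).K (cf lam c)) a := by
  obtain ⟨ε1, hε1, ho1⟩ := hS.contC ε hlim _ ho
  have hmem : (S ε).K (lam a) ∈ {ξ | ξ < (lam a).ord ∧ ∃ E, ClubIn E ((S ε).K (cf lam c)) ∧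
      ∀ γ ∈ E, scale lam c γ a ≤ ξ} := by
    refine ⟨hS.lt_ord ε hε _ (hlam a), _, clubIn_image (hS.isNormal (cf lam c)) hlim ε1 hε1, ?_⟩
    rintro _ ⟨x, hx1, hx2, rfl⟩
    exact (hS.bound hR hlam ho1 a hx1).le.trans (hS.mono _ (hlim.succ_lt hx2).le)
  exact ⟨csInf_le' hmem, (csInf_mem ⟨_, hmem⟩).2⟩

theorem cover_spec (hι : #ι ≤ ℵ₁) {lam : ι → Cardinal.{u}} {c : Set ι} (hlam : Fam lam)
    (hc : c.Nonempty) {β γ : Ordinal.{u}} (h : β < γ) (hγ : γ < (cf lam c).ord) :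
    ∃ t : GenT lam (cf lam c), cover lam c β γ = gen lam (cf lam c) t ∧
      {a | scale lam c γ a < scale lam c β a} ⊆ gen lam (cf lam c) t := by
  have hg := isGen_gen (μ := cf lam c) hι hlam (big_cf hι hlam hc).1.aleph0_le
  have hex : ∃ t : GenT lam (cf lam c),
      {a | scale lam c γ a < scale lam c β a} ⊆ gen lam (cf lam c) t :=
    hg.2.2 _ ((isScale_scale hι hlam hc).2.1 β γ h hγ)
  refine ⟨hex.choose, ?_, hex.choose_spec⟩
  unfold cover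
  rw [dif_pos hex]

/-- one catching step -/
theorem IsChain.catch_step (hι : #ι ≤ ℵ₁) (hS : IsChain Req New C0 S)
    (hR : ∀ S S' σ, Req0 S S' σ ⊆ Req S S' σ) (hN : ∀ S S', New0 S S' ⊆ New S S')
    {ε : Ordinal.{u}} (hε : ε ≤ ω_ 3) (hcof : ℵ₁ < ε.cof)
    {lam : ι → Cardinal.{u}} {c : Set ι} (hlam : Fam lam) (hc : c.Nonempty)
    (ho : (lam, c) ∈ (S ε).C) :
    ∃ t : GenT lam (cf lam c), (lam, c ∩ gen lam (cf lam c) t) ∈ (S ε).C ∧
      ∀ a ∈ c, a ∉ gen lam (cf lam c) t →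
        (S ε).K (lam a) = Fhat lam c ((S ε).K (cf lam c)) a := by
  have hlim : Order.IsSuccLimit ε := by
    rw [← one_lt_cof_iff]
    exact (one_lt_aleph0.trans_le (aleph0_le_aleph 1)).trans hcof
  have h01 : (ℵ₀ : Cardinal.{u}) < ℵ₁ := aleph0_lt_aleph_one
  have hbig := big_cf hι hlam hc
  obtain ⟨ε1, hε1, ho1⟩ := hS.contC ε hlim _ ho
  choose hle E hE1 hE2 using fun a => hS.Fhat_spec hR hε hlim hlam ho a
  -- a stage where all strict inequalities are already visible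
  have h1 : ∀ a, ∃ x < ε, Fhat lam c ((S ε).K (cf lam c)) a < (S ε).K (lam a) →
      Fhat lam c ((S ε).K (cf lam c)) a < (S x).K (lam a) := by
    intro a
    by_cases h : Fhat lam c ((S ε).K (cf lam c)) a < (S ε).K (lam a)
    · obtain ⟨x, hx, hx'⟩ := hS.cont ε hlim _ _ h
      exact ⟨x, hx, fun _ => hx'⟩
    · exact ⟨0, hlim.bot_lt, fun h' => absurd h' h⟩
  choose x hx1 hx2 using h1
  obtain ⟨ε2, hε2, hε2'⟩ := exists_bound_cof (δ := ε) (T := ι)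
    (by rw [Cardinal.lift_lt]; exact hι.trans_lt hcof) x hx1
  let ε0 := max ε1 ε2
  have hε0 : ε0 < ε := max_lt hε1 hε2
  have hε01 : ε0 + 1 < ε := hlim.succ_lt hε0
  have hkey : ∀ a, Fhat lam c ((S ε).K (cf lam c)) a < (S ε).K (lam a) →
      Fhat lam c ((S ε).K (cf lam c)) a < (S ε0).K (lam a) := by
    intro a ha
    exact (hx2 a ha).trans_le (hS.mono _ ((hε2' a).le.trans (le_max_right _ _)))
  -- the rank of the characteristic function at that stage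
  have hmem : (fun a => (S ε0).K (lam a)) ∈ Pr lam :=
    fun a => hS.lt_ord _ (hε0.le.trans hε) _ (hlam a)
  obtain ⟨hrk1, hrk2⟩ := rk_spec hι hlam hc hmem
  have hrk3 : rk lam c (fun a => (S ε0).K (lam a)) < (S (ε0 + 1)).K (cf lam c) :=
    hS.req ε0 ε0 le_rfl _ _ (hR _ _ _ (Or.inl ⟨(lam, c),
      hS.monoC _ _ (le_max_left _ _) ho1, rfl, rfl⟩)) hrk1
  -- a stage on all clubs
  have hclub : ClubIn (⋂ i : Option ι, (Option.elim i
      {γ | ∃ x, ε0 + 1 ≤ x ∧ x < ε ∧ γ = (S x).K (cf lam c)} E))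
      ((S ε).K (cf lam c)) := by
    apply ClubIn.iInter
    · rintro (_ | a)
      · exact clubIn_image (hS.isNormal (cf lam c)) hlim _ hε01
      · exact hE1 a
    · rw [Cardinal.lift_lt, cof_map_of_isNormal (hS.isNormal (cf lam c)) hlim, mk_option]
      refine lt_of_le_of_lt (add_le_add hι (one_le_aleph0.trans (aleph0_le_aleph 1))) ?_
      rw [add_eq_self (aleph0_le_aleph 1)]
      exact hcof
    · rw [cof_map_of_isNormal (hS.isNormal (cf lam c)) hlim]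
      exact h01.trans hcof
  obtain ⟨γ, hγ, -⟩ := hclub.2.1 0 (by
    have := hS.strict 0 ε hlim.bot_lt (cf lam c)
    exact lt_of_le_of_lt zero_le this)
  rw [mem_iInter] at hγ
  obtain ⟨y, hy1, hy2, rfl⟩ := hγ none
  have hγE : ∀ a, scale lam c ((S y).K (cf lam c)) a ≤ Fhat lam c ((S ε).K (cf lam c)) a :=
    fun a => hE2 a _ (hγ (some a))
  have hlt : rk lam c (fun a => (S ε0).K (lam a)) < (S y).K (cf lam c) :=
    hrk3.trans_le (hS.mono _ hy1)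
  obtain ⟨t, ht1, ht2⟩ := cover_spec hι hlam hc hlt (hS.lt_ord y (hy2.le.trans hε) _ hbig)
  have hy0 : ε0 ≤ y := (Order.lt_add_one_iff.2 le_rfl).le.trans hy1
  refine ⟨t, ?_, ?_⟩
  · rw [← ht1]
    exact hS.monoC _ _ (hlim.succ_lt hy2).le (hS.new ε0 y hy0 (hN _ _ ⟨(lam, c),
      hS.monoC _ _ ((le_max_left _ _).trans hy0) ho1, rfl⟩))
  · intro a ha hat
    apply le_antisymm _ (hle a)
    by_contra hcon
    have h2 := hkey a (not_le.1 hcon)
    apply hat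
    apply ht2
    show scale lam c ((S y).K (cf lam c)) a < scale lam c (rk lam c fun a => (S ε0).K (lam a)) a
    exact ((hγE a).trans_lt h2).trans_le (hrk2 a ha)

/-- everything in the chain is caught -/
theorem IsChain.caught (hι : #ι ≤ ℵ₁) (hS : IsChain Req New C0 S)
    (hR : ∀ S S' σ, Req0 S S' σ ⊆ Req S S' σ) (hN : ∀ S S', New0 S S' ⊆ New S S')
    {ε : Ordinal.{u}} (hε : ε ≤ ω_ 3) (hcof : ℵ₁ < ε.cof)
    {lam : ι → Cardinal.{u}} (hlam : Fam lam) (c : Set ι)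
    (ho : (lam, c) ∈ (S ε).C) : Caught lam (fun a => (S ε).K (lam a)) c := by
  generalize hμ : cf lam c = μ
  induction μ using WellFoundedLT.induction generalizing c with
  | ind μ ih =>
  rcases c.eq_empty_or_nonempty with rfl | hc
  · exact Caught.empty
  · obtain ⟨t, ht1, ht2⟩ := hS.catch_step hι hR hN hε hcof hlam hc ho
    have hbig := big_cf hι hlam hc
    have hg := isGen_gen (μ := cf lam c) hι hlam hbig.1.aleph0_le
    refine Caught.step c _ t (hS.lt_ord ε hε _ hbig) ht2 ?_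
    refine ih _ ?_ _ ht1 rfl
    rw [← hμ]
    exact (cf_mono inter_subset_right).trans_lt (hg.2.1 t)

/-- a finite list of good objects (a set `c` with the property `P` is followed further) -/
theorem IsChain.exists_list (hι : #ι ≤ ℵ₁) (hS : IsChain Req New C0 S)
    (hR : ∀ S S' σ, Req0 S S' σ ⊆ Req S S' σ) (hN : ∀ S S', New0 S S' ⊆ New S S')
    {ε : Ordinal.{u}} (hε : ε ≤ ω_ 3) (hcof : ℵ₁ < ε.cof)
    {lam : ι → Cardinal.{u}} (hlam : Fam lam) (P : Set ι → Prop) (hP : ¬ P ∅) (c : Set ι)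
    (ho : (lam, c) ∈ (S ε).C) :
    ∃ (L : List (Set ι)) (d : Set ι), (∀ e ∈ L, P e ∧ e ⊆ c ∧ (lam, e) ∈ (S ε).C) ∧
      ¬ P d ∧ ∀ a ∈ c, a ∈ d ∨ ∃ e ∈ L, a ∈ e ∧
        (S ε).K (lam a) = Fhat lam e ((S ε).K (cf lam e)) a := by
  generalize hμ : cf lam c = μ
  induction μ using WellFoundedLT.induction generalizing c with
  | ind μ ih =>
  by_cases hPc : P c
  · have hc : c.Nonempty := by
      rw [nonempty_iff_ne_empty]
      rintro rfl
      exact hP hPc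
    obtain ⟨t, ht1, ht2⟩ := hS.catch_step hι hR hN hε hcof hlam hc ho
    have hbig := big_cf hι hlam hc
    have hg := isGen_gen (μ := cf lam c) hι hlam hbig.1.aleph0_le
    obtain ⟨L, d, hL1, hd, hL2⟩ := ih _ (by
      rw [← hμ]
      exact (cf_mono inter_subset_right).trans_lt (hg.2.1 t)) _ ht1 rfl
    refine ⟨c :: L, d, ?_, hd, ?_⟩
    · intro e he
      rcases List.mem_cons.1 he with rfl | he
      · exact ⟨hPc, Subset.rfl, ho⟩
      · obtain ⟨h1, h2, h3⟩ := hL1 e he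
        exact ⟨h1, h2.trans inter_subset_left, h3⟩
    · intro a ha
      by_cases hat : a ∈ gen lam (cf lam c) t
      · rcases hL2 a ⟨ha, hat⟩ with h | ⟨e, he, h⟩
        · exact Or.inl h
        · exact Or.inr ⟨e, List.mem_cons_of_mem _ he, h⟩
      · exact Or.inr ⟨c, List.mem_cons_self, ha, ht2 a ha hat⟩
  · exact ⟨[], c, by simp, hPc, fun a ha => Or.inl ha⟩

/-- there are few caught functions -/
theorem card_caught (hι : #ι ≤ ℵ₁) {lam : ι → Cardinal.{u}} (hlam : Fam lam) (c : Set ι) :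
    ∃ (T : Type u) (H : T → ι → Ordinal.{u}), #T ≤ max (cf lam c) ℵ₀ ∧ (∀ t, H t ∈ Pr lam) ∧
      ∀ w, Caught lam w c → ∃ t, ∀ a ∈ c, w a = H t a := by
  classical
  generalize hμ : cf lam c = μ
  induction μ using WellFoundedLT.induction generalizing c with
  | ind μ ih =>
  rcases c.eq_empty_or_nonempty with rfl | hc
  · refine ⟨PUnit, fun _ _ => 0, ?_, fun _ a => (hlam a).1.ord_pos, fun w _ => ⟨PUnit.unit, ?_⟩⟩
    · simp
    · rintro a ⟨⟩
  · have hbig := big_cf hι hlam hc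
    have hg := isGen_gen (μ := cf lam c) hι hlam hbig.1.aleph0_le
    have hlt : ∀ t, cf lam (c ∩ gen lam (cf lam c) t) < μ := fun t => by
      rw [← hμ]
      exact (cf_mono inter_subset_right).trans_lt (hg.2.1 t)
    choose T H h1 h2 h3 using fun t => ih _ (hlt t) (c ∩ gen lam (cf lam c) t) rfl
    refine ⟨Σ t : GenT lam (cf lam c), μ.ord.ToType × T t, fun p a =>
      if a ∈ gen lam (cf lam c) p.1 then H p.1 p.2.2 a else
        Fhat lam c (Ordinal.ToType.toOrd p.2.1).1 a, ?_, ?_, ?_⟩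
    · rw [hμ] at hbig hg
      have h0 : ℵ₀ ≤ μ := hbig.1.aleph0_le
      rw [max_eq_left h0, mk_sigma]
      calc Cardinal.sum (fun t : GenT lam (cf lam c) => #(μ.ord.ToType × T t))
          ≤ Cardinal.sum (fun _ : GenT lam (cf lam c) => μ) := by
            refine sum_le_sum _ _ fun t => ?_
            rw [mk_prod, Cardinal.lift_id, Cardinal.lift_id, mk_ord_toType]
            refine (mul_le_mul' le_rfl ((h1 t).trans (max_le (hlt t).le h0))).trans ?_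
            exact (mul_eq_self h0).le
        _ = #(GenT lam (cf lam c)) * μ := by simp
        _ ≤ μ * μ := by
            refine mul_le_mul' ?_ le_rfl
            rw [hμ]
            exact hg.1
        _ = μ := mul_eq_self h0
    · rintro ⟨t, δ, s⟩ a
      dsimp only
      split_ifs
      · exact h2 t s a
      · exact Fhat_mem hlam _ a
    · intro w hw
      cases hw with
      | empty => exact absurd hc (by simp)
      | step _ δ t hδ h ht =>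
        obtain ⟨s, hs⟩ := h3 t w ht
        rw [hμ] at hδ
        refine ⟨⟨t, Ordinal.ToType.mk ⟨δ, hδ⟩, s⟩, ?_⟩
        intro a ha
        dsimp only
        split_ifs with hat
        · exact hs a ⟨ha, hat⟩
        · rw [h a ha hat]
          simp [Ordinal.ToType.toOrd]

/-- reflection of goodness -/
theorem IsChain.transfer (hι : #ι ≤ ℵ₁) (hS : IsChain Req New C0 S)
    (hR : ∀ S S' σ, Req0 S S' σ ⊆ Req S S' σ) (ε0 : Ordinal.{u}) (hε0 : ε0 < ω_ 3) :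
    ∃ ε, ε0 < ε ∧ ε < ω_ 3 ∧ ε.cof = ℵ_ 2 ∧ ∀ (lam : ι → Cardinal.{u}) (c : Set ι), Fam lam →
      (lam, c) ∈ (S ε).C → ∀ a, (S ε).K (lam a) = Fhat lam c ((S ε).K (cf lam c)) a →
        (S (ω_ 3)).K (lam a) = Fhat lam c ((S (ω_ 3)).K (cf lam c)) a := by
  have hlim3 : Order.IsSuccLimit (ω_ 3 : Ordinal.{u}) := isSuccLimit_omega 3
  -- chosen clubs at the last stage
  have h1 : ∀ (o : Ob ι) (a : ι), ∃ E : Set Ordinal.{u}, Fam o.1 → o ∈ (S (ω_ 3)).C →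
      ClubIn E ((S (ω_ 3)).K (cf o.1 o.2)) ∧
      ∀ γ ∈ E, scale o.1 o.2 γ a ≤ Fhat o.1 o.2 ((S (ω_ 3)).K (cf o.1 o.2)) a := by
    intro o a
    by_cases h : Fam o.1 ∧ o ∈ (S (ω_ 3)).C
    · obtain ⟨-, E, hE⟩ := hS.Fhat_spec hR le_rfl hlim3 h.1 (c := o.2) h.2 a
      exact ⟨E, fun _ _ => hE⟩
    · exact ⟨∅, fun h1 h2 => absurd ⟨h1, h2⟩ h⟩
  choose E hE using h1
  -- the step function
  have h2 : ∀ x : Ordinal.{u}, ∃ y, (x < ω_ 3 → y < ω_ 3) ∧ (x < ω_ 3 → x < y ∧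
      ∀ o ∈ (S x).C, Fam o.1 → ∀ a : ι,
      (∃ γ ∈ E o a, (S x).K (cf o.1 o.2) < γ ∧ γ < (S y).K (cf o.1 o.2)) ∧
      (Fhat o.1 o.2 ((S (ω_ 3)).K (cf o.1 o.2)) a < (S (ω_ 3)).K (o.1 a) →
        Fhat o.1 o.2 ((S (ω_ 3)).K (cf o.1 o.2)) a < (S y).K (o.1 a))) := by
    intro x
    by_cases hx : x < ω_ 3
    swap
    · exact ⟨0, fun h => absurd h hx, fun h => absurd h hx⟩
    have h3 : ∀ p : (S x).C × ι, ∃ y < ω_ 3, Fam p.1.1.1 →
        (∃ γ ∈ E p.1 p.2, (S x).K (cf p.1.1.1 p.1.1.2) < γ ∧ γ < (S y).K (cf p.1.1.1 p.1.1.2)) ∧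
        (Fhat p.1.1.1 p.1.1.2 ((S (ω_ 3)).K (cf p.1.1.1 p.1.1.2)) p.2 <
          (S (ω_ 3)).K (p.1.1.1 p.2) →
          Fhat p.1.1.1 p.1.1.2 ((S (ω_ 3)).K (cf p.1.1.1 p.1.1.2)) p.2 <
          (S y).K (p.1.1.1 p.2)) := by
      rintro ⟨⟨⟨lam, c⟩, ho⟩, a⟩
      dsimp only
      by_cases hlam : Fam lam
      swap
      · exact ⟨0, hlim3.bot_lt, fun h => absurd h hlam⟩
      obtain ⟨hE1, hE2⟩ := hE (lam, c) a hlam (hS.monoC _ _ hx.le ho)
      obtain ⟨γ, hγ1, hγ2⟩ := hE1.2.1 _ (hS.strict _ _ hx (cf lam c))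
      obtain ⟨y1, hy1, hy1'⟩ := hS.cont _ hlim3 _ _ (hE1.1 γ hγ1)
      by_cases h : Fhat lam c ((S (ω_ 3)).K (cf lam c)) a < (S (ω_ 3)).K (lam a)
      · obtain ⟨y2, hy2, hy2'⟩ := hS.cont _ hlim3 _ _ h
        refine ⟨max y1 y2, max_lt hy1 hy2, fun _ => ⟨⟨γ, hγ1, hγ2, ?_⟩, fun _ => ?_⟩⟩
        · exact hy1'.trans_le (hS.mono _ (le_max_left _ _))
        · exact hy2'.trans_le (hS.mono _ (le_max_right _ _))
      · exact ⟨y1, hy1, fun _ => ⟨⟨γ, hγ1, hγ2, hy1'⟩, fun h' => absurd h' h⟩⟩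
    choose y hy1 hy2 using h3
    obtain ⟨z, hz, hz'⟩ := exists_bound_cof (δ := ω_ 3) (T := (S x).C × ι) (by
      rw [cof_omega_three, mk_prod]
      have h23 : (ℵ_ 2 : Cardinal.{u + 1}) < ℵ_ 3 := aleph_lt_aleph.2 (by norm_num)
      have hι' : Cardinal.lift.{u + 1} #ι ≤ ℵ_ 2 := by
        have h12 : (ℵ₁ : Cardinal.{u + 1}) ≤ ℵ_ 2 := aleph_le_aleph.2 (by norm_num)
        refine le_trans ?_ h12
        simpa using Cardinal.lift_le.{u + 1}.2 hι
      have h4 : #(S x).C * Cardinal.lift.{u + 1} #ι ≤ ℵ_ 2 :=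
        (mul_le_mul' (hS.cardC x hx) hι').trans (mul_eq_self (aleph0_le_aleph 2)).le
      have h5 := h4.trans_lt h23
      have h6 : Cardinal.lift.{u, u + 1} #(S x).C = #(S x).C := Cardinal.lift_id'.{u, u + 1} _
      rw [h6]
      have h7 : Cardinal.lift.{u, u + 1} (#(S x).C * Cardinal.lift.{u + 1, u} #ι) =
          #(S x).C * Cardinal.lift.{u + 1, u} #ι := Cardinal.lift_id'.{u, u + 1} _
      rw [h7]
      simpa using h5) y hy1
    refine ⟨max z (x + 1), fun _ => max_lt hz (hlim3.add_one_lt hx), fun _ => ⟨?_, ?_⟩⟩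
    · exact (Order.lt_add_one_iff.2 le_rfl).trans_le (le_max_right _ _)
    · intro o ho hlam a
      obtain ⟨⟨γ, hγ1, hγ2, hγ3⟩, h5⟩ := hy2 (⟨o, ho⟩, a) hlam
      have hle : y (⟨o, ho⟩, a) ≤ max z (x + 1) := (hz' _).le.trans (le_max_left _ _)
      exact ⟨⟨γ, hγ1, hγ2, hγ3.trans_le (hS.mono _ hle)⟩,
        fun h => (h5 h).trans_le (hS.mono _ hle)⟩
  choose g hg1 hg2 using h2
  obtain ⟨ε, hε1, hε2, hε3, hε4, hε5⟩ := exists_closed g hg1 ε0 hε0
  refine ⟨ε, hε1, hε2, hε3, ?_⟩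
  intro lam c hlam ho a hgood
  obtain ⟨x0, hx0, ho0⟩ := hS.contC ε hε4 _ ho
  obtain ⟨hE1, hE2⟩ := hE (lam, c) a hlam (hS.monoC _ _ hε2.le ho)
  -- the club at stage `ε`
  have hclub : ClubIn (E (lam, c) a ∩ Iio ((S ε).K (cf lam c))) ((S ε).K (cf lam c)) := by
    refine ⟨fun γ hγ => hγ.2, ?_, ?_⟩
    · intro β hβ
      obtain ⟨x, hx, hx'⟩ := hS.cont ε hε4 _ _ hβ
      let x' := max x x0
      have hx'' : x' < ε := max_lt hx hx0
      obtain ⟨-, h⟩ := hg2 x' (hx''.trans hε2)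
      obtain ⟨⟨γ, hγ1, hγ2, hγ3⟩, -⟩ := h (lam, c) (hS.monoC _ _ (le_max_right _ _) ho0) hlam a
      refine ⟨γ, ⟨hγ1, hγ3.trans_le (hS.mono _ (hε5 x' hx'').le)⟩, ?_⟩
      exact (hx'.trans_le (hS.mono _ (le_max_left _ _))).trans hγ2
    · intro γ hγ h0 h
      refine ⟨hE1.2.2 γ (hγ.trans (hS.strict _ _ hε2 _)) h0 ?_, hγ⟩
      intro β hβ
      obtain ⟨γ', hγ', h'⟩ := h β hβ
      exact ⟨γ', hγ'.1, h'⟩
  have hle : Fhat lam c ((S ε).K (cf lam c)) a ≤ Fhat lam c ((S (ω_ 3)).K (cf lam c)) a := by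
    apply csInf_le'
    exact ⟨Fhat_mem hlam _ a, _, hclub, fun γ hγ => hE2 γ hγ.1⟩
  apply le_antisymm _ (hS.Fhat_spec hR le_rfl hlim3 hlam (hS.monoC _ _ hε2.le ho) a).1
  by_contra hcon
  obtain ⟨-, h⟩ := hg2 x0 (hx0.trans hε2)
  obtain ⟨-, h5⟩ := h (lam, c) ho0 hlam a
  have h6 := (h5 (not_le.1 hcon)).trans_le (hS.mono (lam a) (hε5 x0 hx0).le)
  rw [hgood] at h6
  exact absurd hle (not_le.2 h6)

end

end Pool.Agent.Helper14.PCF
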