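import Mathlib
import Pool.Agent.Helper14.PCF.Basic

/-!
Module M6b: existence of chains of states.
-/

open Cardinal Ordinal Set

universe u v

namespace Pool.Agent.Helper14.PCF

namespace ChainAux

section

variable {ι : Type u} (Req : St ι → St ι → Cardinal.{u} → Set Ordinal.{u})
    (New : St ι → St ι → Set ((ι → Cardinal.{u}) × Set ι))
    (C0 : Set ((ι → Cardinal.{u}) × Set ι))

/-- the recursion step -/
noncomputable def step (ε : Ordinal.{u}) (IH : ∀ ε', ε' < ε → St ι) : St ι where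
  K := fun σ => sInf {β | ∀ ε' (h : ε' < ε), (IH ε' h).K σ < β ∧
    ∀ ε'' (h' : ε'' ≤ ε'), ∀ ξ ∈ Req (IH ε'' (h'.trans_lt h)) (IH ε' h) σ, ξ < σ.ord → ξ < β}
  C := C0 ∪ {o | ∃ ε', ∃ h : ε' < ε, o ∈ (IH ε' h).C ∨
    ∃ ε'', ∃ h' : ε'' ≤ ε', o ∈ New (IH ε'' (h'.trans_lt h)) (IH ε' h)}

/-- the chain -/
noncomputable def S : Ordinal.{u} → St ι := Ordinal.lt_wf.fix (step Req New C0)

/-- the set whose infimum is taken -/
def KS (ε : Ordinal.{u}) (σ : Cardinal.{u}) : Set Ordinal.{u} :=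
  {β | ∀ ε' < ε, (S Req New C0 ε').K σ < β ∧
    ∀ ε'' ≤ ε', ∀ ξ ∈ Req (S Req New C0 ε'') (S Req New C0 ε') σ, ξ < σ.ord → ξ < β}

lemma S_K (ε : Ordinal.{u}) (σ : Cardinal.{u}) :
    (S Req New C0 ε).K σ = sInf (KS Req New C0 ε σ) := by
  unfold KS
  conv_lhs => unfold S
  rw [WellFounded.fix_eq]
  rfl

lemma S_C (ε : Ordinal.{u}) :
    (S Req New C0 ε).C = C0 ∪ {o | ∃ ε' < ε, o ∈ (S Req New C0 ε').C ∨
      ∃ ε'' ≤ ε', o ∈ New (S Req New C0 ε'') (S Req New C0 ε')} := by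
  conv_lhs => unfold S
  rw [WellFounded.fix_eq]
  unfold step
  simp only [exists_prop]
  rfl

lemma KS_nonempty (ε : Ordinal.{u}) (σ : Cardinal.{u}) : (KS Req New C0 ε σ).Nonempty := by
  have hb : BddAbove (range (fun x : Iio ε => (S Req New C0 x.1).K σ)) :=
    Ordinal.bddAbove_of_small
  obtain ⟨B, hB⟩ := hb
  refine ⟨max (B + 1) σ.ord, fun ε' hε' => ⟨?_, ?_⟩⟩
  · have h1 : (S Req New C0 ε').K σ ≤ B := hB ⟨⟨ε', hε'⟩, rfl⟩
    exact lt_of_le_of_lt h1 (lt_of_lt_of_le (lt_add_one B) (le_max_left _ _))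
  · intro ε'' _ ξ _ hξ
    exact lt_of_lt_of_le hξ (le_max_right _ _)

lemma K_mem (ε : Ordinal.{u}) (σ : Cardinal.{u}) :
    (S Req New C0 ε).K σ ∈ KS Req New C0 ε σ := by
  rw [S_K]
  exact csInf_mem (KS_nonempty Req New C0 ε σ)

lemma strict (ε ε' : Ordinal.{u}) (h : ε < ε') (σ : Cardinal.{u}) :
    (S Req New C0 ε).K σ < (S Req New C0 ε').K σ :=
  (K_mem Req New C0 ε' σ ε h).1

lemma req (ε ε' : Ordinal.{u}) (h : ε ≤ ε') (σ : Cardinal.{u}) (β : Ordinal.{u})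
    (hβ : β ∈ Req (S Req New C0 ε) (S Req New C0 ε') σ) (hβ' : β < σ.ord) :
    β < (S Req New C0 (ε' + 1)).K σ :=
  (K_mem Req New C0 (ε' + 1) σ ε' (lt_add_one ε')).2 ε h β hβ hβ'

lemma monoC (ε ε' : Ordinal.{u}) (h : ε ≤ ε') :
    (S Req New C0 ε).C ⊆ (S Req New C0 ε').C := by
  rcases h.eq_or_lt with rfl | h
  · exact subset_rfl
  · intro o ho
    rw [S_C Req New C0 ε']
    exact Or.inr ⟨ε, h, Or.inl ho⟩

lemma new (ε ε' : Ordinal.{u}) (h : ε ≤ ε') :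
    New (S Req New C0 ε) (S Req New C0 ε') ⊆ (S Req New C0 (ε' + 1)).C := by
  intro o ho
  rw [S_C Req New C0 (ε' + 1)]
  exact Or.inr ⟨ε', lt_add_one ε', Or.inr ⟨ε, h, ho⟩⟩

lemma aleph_succ' (n : ℕ) : (ℵ_ ((n + 1 : ℕ) : Ordinal.{v}) : Cardinal.{v}) =
    Order.succ (ℵ_ (n : Ordinal.{v})) := by
  rw [Cardinal.succ_aleph]
  push_cast
  rfl

/-- the initial segment below an ordinal `≤ ω₃` has at most `ℵ₃` elements -/
lemma card_Iio_le3 {ε : Ordinal.{u}} (h : ε ≤ ω_ 3) : #(Iio ε) ≤ ℵ_ 3 := by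
  rw [Cardinal.mk_Iio_ordinal]
  have h1 : ε.card ≤ ℵ_ 3 := by
    have := Ordinal.card_le_card h
    rwa [Ordinal.card_omega] at this
  have := Cardinal.lift_le.{u + 1}.2 h1
  simpa using this

/-- the initial segment below an ordinal `< ω₃` has at most `ℵ₂` elements -/
lemma card_Iio_le2 {ε : Ordinal.{u}} (h : ε < ω_ 3) : #(Iio ε) ≤ ℵ_ 2 := by
  rw [Cardinal.mk_Iio_ordinal]
  have h1 : ε.card < ℵ_ 3 := by
    rw [← Cardinal.lt_ord, Cardinal.ord_aleph]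
    exact h
  have h2 : ε.card ≤ ℵ_ 2 := by
    have h3 : (ℵ_ 3 : Cardinal.{u}) = Order.succ (ℵ_ 2) := by
      have := aleph_succ'.{u} 2
      simpa using this
    rw [h3, Order.lt_succ_iff] at h1
    exact h1
  have := Cardinal.lift_le.{u + 1}.2 h2
  simpa using this

variable (hReq : ∀ S S' σ, #S.C ≤ ℵ_ 2 → #S'.C ≤ ℵ_ 2 → #(Req S S' σ) ≤ ℵ_ 2)
    (hNew : ∀ S S', #S.C ≤ ℵ_ 2 → #S'.C ≤ ℵ_ 2 → #(New S S') ≤ ℵ_ 2)
    (hC0 : #C0 ≤ ℵ_ 2)

include hNew hC0 in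
lemma cardC (ε : Ordinal.{u}) (hε : ε < ω_ 3) : #(S Req New C0 ε).C ≤ ℵ_ 2 := by
  induction ε using Ordinal.lt_wf.induction with
  | _ ε IH =>
    have h2 : (ℵ₀ : Cardinal.{u + 1}) ≤ ℵ_ 2 := Cardinal.aleph0_le_aleph 2
    have hI := card_Iio_le2 hε
    have hsub : (S Req New C0 ε).C ⊆ (C0 ∪ ⋃ x : Iio ε, (S Req New C0 x.1).C) ∪
        ⋃ p : Iio ε × Iio ε, New (S Req New C0 p.1.1) (S Req New C0 p.2.1) := by
      rw [S_C Req New C0 ε]
      rintro o (ho | ⟨ε', h, ho | ⟨ε'', h', ho⟩⟩)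
      · exact Or.inl (Or.inl ho)
      · exact Or.inl (Or.inr (mem_iUnion.2 ⟨⟨ε', h⟩, ho⟩))
      · exact Or.inr (mem_iUnion.2 ⟨(⟨ε'', h'.trans_lt h⟩, ⟨ε', h⟩), ho⟩)
    refine (Cardinal.mk_le_mk_of_subset hsub).trans ?_
    refine (Cardinal.mk_union_le _ _).trans (Cardinal.add_le_of_le h2 ?_ ?_)
    · refine (Cardinal.mk_union_le _ _).trans (Cardinal.add_le_of_le h2 hC0 ?_)
      refine (Cardinal.mk_iUnion_le _).trans ?_
      refine (mul_le_mul' hI (ciSup_le' (a := ℵ_ 2) ?_)).trans (Cardinal.mul_eq_self h2).le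
      intro x
      exact IH x.1 x.2 (lt_trans x.2 hε)
    · refine (Cardinal.mk_iUnion_le _).trans ?_
      have hII : #(Iio ε × Iio ε) ≤ ℵ_ 2 := by
        rw [Cardinal.mk_prod]
        simp only [Cardinal.lift_id]
        exact (mul_le_mul' hI hI).trans (Cardinal.mul_eq_self h2).le
      refine (mul_le_mul' hII (ciSup_le' (a := ℵ_ 2) ?_)).trans (Cardinal.mul_eq_self h2).le
      intro p
      exact hNew _ _ (IH p.1.1 p.1.2 (lt_trans p.1.2 hε)) (IH p.2.1 p.2.2 (lt_trans p.2.2 hε))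

include hReq hNew hC0 in
lemma lt_ord (ε : Ordinal.{u}) (hε : ε ≤ ω_ 3) (σ : Cardinal.{u}) (hσ : Big σ) :
    (S Req New C0 ε).K σ < σ.ord := by
  classical
  induction ε using Ordinal.lt_wf.induction with
  | _ ε IH =>
    have h3 : (ℵ₀ : Cardinal.{u + 1}) ≤ ℵ_ 3 := Cardinal.aleph0_le_aleph 3
    have hI := card_Iio_le3 hε
    have h23 : (ℵ_ 2 : Cardinal.{u + 1}) ≤ ℵ_ 3 := Cardinal.aleph_le_aleph.2 (by norm_num)
    let T : Type (u + 1) := Iio ε ⊕ (Σ p : Iio ε × Iio ε,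
      (Req (S Req New C0 p.1.1) (S Req New C0 p.2.1) σ : Set Ordinal.{u}))
    let f : T → Ordinal.{u} := Sum.elim (fun x => (S Req New C0 x.1).K σ)
      (fun q => if q.2.1 < σ.ord then q.2.1 else 0)
    have hT : #T ≤ ℵ_ 3 := by
      have hII : #(Iio ε × Iio ε) ≤ ℵ_ 3 := by
        rw [Cardinal.mk_prod]
        simp only [Cardinal.lift_id]
        exact (mul_le_mul' hI hI).trans (Cardinal.mul_eq_self h3).le
      rw [Cardinal.mk_sum]
      simp only [Cardinal.lift_id]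
      refine Cardinal.add_le_of_le h3 hI ?_
      rw [Cardinal.mk_sigma]
      refine (Cardinal.sum_le_sum _ (fun _ => ℵ_ 3) ?_).trans ?_
      · intro p
        refine (hReq _ _ σ ?_ ?_).trans h23
        · exact cardC Req New C0 hNew hC0 _ (lt_of_lt_of_le p.1.2 hε)
        · exact cardC Req New C0 hNew hC0 _ (lt_of_lt_of_le p.2.2 hε)
      · rw [Cardinal.sum_const']
        exact (mul_le_mul' hII le_rfl).trans (Cardinal.mul_eq_self h3).le
    have hT' : Cardinal.lift.{u} #T < Cardinal.lift.{u + 1} σ := by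
      have h34 : (ℵ_ 3 : Cardinal.{u + 1}) < ℵ_ 4 := Cardinal.aleph_lt_aleph.2 (by norm_num)
      have h4 : (ℵ_ 4 : Cardinal.{u + 1}) ≤ Cardinal.lift.{u + 1} σ := by
        have := Cardinal.lift_le.{u + 1}.2 hσ.2
        simpa using this
      have h5 : Cardinal.lift.{u} #T = #T := Cardinal.lift_id'.{u, u + 1} #T
      rw [h5]
      exact lt_of_le_of_lt hT (lt_of_lt_of_le h34 h4)
    have h0 : (0 : Ordinal.{u}) < σ.ord := by
      rw [Cardinal.lt_ord, Ordinal.card_zero]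
      exact lt_of_lt_of_le Cardinal.aleph0_pos hσ.1.aleph0_le
    obtain ⟨β, hβ, hf⟩ := exists_bound hσ.1 hT' f (by
      rintro (x | q)
      · exact IH x.1 x.2 (le_trans (le_of_lt x.2) hε)
      · change (if q.2.1 < σ.ord then q.2.1 else 0) < σ.ord
        split_ifs with h
        · exact h
        · exact h0)
    have hmem : β ∈ KS Req New C0 ε σ := by
      intro ε' hε'
      refine ⟨hf (Sum.inl ⟨ε', hε'⟩), ?_⟩
      intro ε'' hε'' ξ hξ hξσ
      have := hf (Sum.inr ⟨(⟨ε'', hε''.trans_lt hε'⟩, ⟨ε', hε'⟩), ⟨ξ, hξ⟩⟩)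
      change (if ξ < σ.ord then ξ else 0) < β at this
      rwa [if_pos hξσ] at this
    rw [S_K]
    exact lt_of_le_of_lt (csInf_le' hmem) hβ

lemma cont (ε : Ordinal.{u}) (hε : Order.IsSuccLimit ε) (σ : Cardinal.{u}) (β : Ordinal.{u})
    (hβ : β < (S Req New C0 ε).K σ) : ∃ ε' < ε, β < (S Req New C0 ε').K σ := by
  have hnot : β ∉ KS Req New C0 ε σ := by
    intro h
    rw [S_K] at hβ
    exact absurd (csInf_le' h) (not_le.2 hβ)
  unfold KS at hnot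
  simp only [mem_ofPred_eq, not_forall] at hnot
  obtain ⟨ε', hε', h⟩ := hnot
  have hs : ε' + 1 < ε := by
    rw [← Order.succ_eq_add_one]
    exact hε.succ_lt hε'
  refine ⟨ε' + 1, hs, ?_⟩
  rw [not_and_or] at h
  rcases h with h | h
  · exact lt_of_le_of_lt (not_lt.1 h) (strict Req New C0 ε' (ε' + 1) (lt_add_one ε') σ)
  · simp only [not_forall] at h
    obtain ⟨ε'', h1, ξ, h2, h3, h4⟩ := h
    exact lt_of_le_of_lt (not_lt.1 h4) (req Req New C0 ε'' ε' h1 σ ξ h2 h3)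

lemma contC (ε : Ordinal.{u}) (hε : Order.IsSuccLimit ε)
    (o : (ι → Cardinal.{u}) × Set ι) (ho : o ∈ (S Req New C0 ε).C) :
    ∃ ε' < ε, o ∈ (S Req New C0 ε').C := by
  rw [S_C Req New C0 ε] at ho
  rcases ho with ho | ⟨ε', h, ho | ⟨ε'', h', ho⟩⟩
  · refine ⟨0, ?_, ?_⟩
    · exact hε.bot_lt
    · rw [S_C Req New C0 0]
      exact Or.inl ho
  · exact ⟨ε', h, ho⟩
  · refine ⟨ε' + 1, ?_, new Req New C0 ε'' ε' h' ho⟩
    rw [← Order.succ_eq_add_one]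
    exact hε.succ_lt h

end

end ChainAux

open ChainAux in
theorem exists_chain {ι : Type u} (Req : St ι → St ι → Cardinal.{u} → Set Ordinal.{u})
    (New : St ι → St ι → Set ((ι → Cardinal.{u}) × Set ι))
    (C0 : Set ((ι → Cardinal.{u}) × Set ι))
    (hReq : ∀ S S' σ, #S.C ≤ ℵ_ 2 → #S'.C ≤ ℵ_ 2 → #(Req S S' σ) ≤ ℵ_ 2)
    (hNew : ∀ S S', #S.C ≤ ℵ_ 2 → #S'.C ≤ ℵ_ 2 → #(New S S') ≤ ℵ_ 2)
    (hC0 : #C0 ≤ ℵ_ 2) : ∃ S : Ordinal.{u} → St ι, IsChain Req New C0 S := by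
  refine ⟨ChainAux.S Req New C0, ?_⟩
  constructor
  · intro ε hε σ hσ
    exact lt_ord Req New C0 hReq hNew hC0 ε hε σ hσ
  · intro ε ε' h σ
    exact strict Req New C0 ε ε' h σ
  · intro ε hε σ β hβ
    exact cont Req New C0 ε hε σ β hβ
  · intro ε ε' h
    exact monoC Req New C0 ε ε' h
  · intro ε hε o ho
    exact contC Req New C0 ε hε o ho
  · intro ε hε
    exact cardC Req New C0 hNew hC0 ε hε
  · rw [S_C Req New C0 0]
    exact subset_union_left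
  · intro ε ε' h σ β hβ hβ'
    exact req Req New C0 ε ε' h σ β hβ hβ'
  · intro ε ε' h
    exact new Req New C0 ε ε' h

end Pool.Agent.Helper14.PCF
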