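import Mathlib
import Pool.Agent.Helper14.PCF.Basic
import Pool.Agent.Helper14.NW.Cover

/-!
Module M8: if all products of at most `ℵ₁` regular cardinals in `[ℵ₄, κ]` are dominated by
`κ` functions, then the covering property holds for `κ` (note 751, step 1).
Proof written by helper76.
-/

open Cardinal Ordinal Set

universe u v

namespace Pool.Agent.Helper14.PCF

namespace HullAux

/-- a chosen cofinal increasing sequence of an ordinal -/
noncomputable def fs (o : Ordinal.{u}) : Iio o.cof.ord → Iio o :=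
  (exists_isFundamentalSeq (o := o) rfl).choose

theorem fs_spec (o : Ordinal.{u}) : IsFundamentalSeq (fs o) :=
  (exists_isFundamentalSeq (o := o) rfl).choose_spec

open Classical in
/-- the same as a function of ordinals -/
noncomputable def es (o ξ : Ordinal.{u}) : Ordinal.{u} :=
  if h : ξ < o.cof.ord then (fs o ⟨ξ, h⟩).1 else 0

theorem es_of_lt {o ξ : Ordinal.{u}} (h : ξ < o.cof.ord) : es o ξ = (fs o ⟨ξ, h⟩).1 := by
  unfold es; rw [dif_pos h]

theorem es_lt {o ξ : Ordinal.{u}} (h : ξ < o.cof.ord) : es o ξ < o := by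
  rw [es_of_lt h]; exact (fs o ⟨ξ, h⟩).2

theorem es_le (o ξ : Ordinal.{u}) : es o ξ ≤ o := by
  by_cases h : ξ < o.cof.ord
  · exact (es_lt h).le
  · unfold es; rw [dif_neg h]; exact bot_le

theorem es_mono {o ξ ξ' : Ordinal.{u}} (h : ξ ≤ ξ') (h' : ξ' < o.cof.ord) : es o ξ ≤ es o ξ' := by
  rw [es_of_lt h', es_of_lt (h.trans_lt h')]
  exact (fs_spec o).strictMono.monotone (by exact h)

theorem es_cof {o α : Ordinal.{u}} (h : α < o) : ∃ ξ < o.cof.ord, α ≤ es o ξ := by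
  obtain ⟨_, ⟨ξ, rfl⟩, h1⟩ := (fs_spec o).isCofinal_range ⟨α, h⟩
  refine ⟨ξ.1, ξ.2, ?_⟩
  rw [es_of_lt ξ.2]
  exact h1

open Classical in
/-- one step of the hull construction -/
noncomputable def stp (B : Set Ordinal.{u}) (G : Ordinal.{u} → Ordinal.{u}) : Set Ordinal.{u} :=
  B ∪ (⋃ β : B, if (β : Ordinal).cof ≤ ℵ₁ then es β '' Iio (β : Ordinal).cof.ord else ∅) ∪
    (fun β => es β (G β)) '' B

theorem subset_stp (B : Set Ordinal.{u}) (G : Ordinal.{u} → Ordinal.{u}) : B ⊆ stp B G := by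
  intro x hx
  exact Or.inl (Or.inl hx)

theorem small_mem_stp {B : Set Ordinal.{u}} (G : Ordinal.{u} → Ordinal.{u}) {β ξ : Ordinal.{u}}
    (hβ : β ∈ B) (hc : β.cof ≤ ℵ₁) (hξ : ξ < β.cof.ord) : es β ξ ∈ stp B G := by
  refine Or.inl (Or.inr (mem_iUnion.2 ⟨⟨β, hβ⟩, ?_⟩))
  rw [if_pos hc]
  exact ⟨ξ, hξ, rfl⟩

theorem big_mem_stp {B : Set Ordinal.{u}} (G : Ordinal.{u} → Ordinal.{u}) {β : Ordinal.{u}}
    (hβ : β ∈ B) : es β (G β) ∈ stp B G :=
  Or.inr ⟨β, hβ, rfl⟩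

theorem stp_le {B : Set Ordinal.{u}} {G : Ordinal.{u} → Ordinal.{u}} {κ : Ordinal.{u}}
    (hB : ∀ β ∈ B, β ≤ κ) : ∀ β ∈ stp B G, β ≤ κ := by
  rintro β ((h | h) | ⟨β', hβ', rfl⟩)
  · exact hB β h
  · obtain ⟨⟨β', hβ'⟩, h1⟩ := mem_iUnion.1 h
    split_ifs at h1 with h2
    · obtain ⟨ξ, hξ, rfl⟩ := h1
      exact (es_le _ _).trans (hB β' hβ')
    · exact absurd h1 (notMem_empty _)
  · exact (es_le _ _).trans (hB β' hβ')

theorem mk_stp {B : Set Ordinal.{u}} {G : Ordinal.{u} → Ordinal.{u}} (hB : #B ≤ ℵ₁) :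
    #(stp B G) ≤ ℵ₁ := by
  have h0 : ℵ₀ ≤ (ℵ₁ : Cardinal.{u + 1}) := aleph0_le_aleph 1
  unfold stp
  refine (mk_union_le _ _).trans ?_
  refine add_le_of_le h0 ((mk_union_le _ _).trans (add_le_of_le h0 hB ?_)) (mk_image_le.trans hB)
  refine mk_iUnion_le_sum_mk.trans ?_
  refine (sum_le_sum _ (fun _ => (ℵ₁ : Cardinal.{u + 1})) ?_).trans ?_
  · rintro ⟨β, hβ⟩
    dsimp only
    split_ifs with h1
    · refine mk_image_le.trans ?_
      rw [Cardinal.mk_Iio_ordinal, card_ord]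
      have h2 : Cardinal.lift.{u + 1} β.cof ≤ Cardinal.lift.{u + 1} (ℵ₁ : Cardinal.{u}) :=
        Cardinal.lift_le.2 h1
      simpa using h2
    · simp
  · rw [sum_const']
    exact mul_le_of_le h0 hB le_rfl

theorem cof_cases' {β : Ordinal.{u}} (h1 : ℵ₁ < β.cof) (h4 : ¬ ℵ_ 4 ≤ β.cof) :
    β.cof = ℵ_ 2 ∨ β.cof = ℵ_ 3 := by
  have h0 : ℵ₀ ≤ β.cof := (aleph0_le_aleph 1).trans h1.le
  obtain ⟨o, ho⟩ := mem_range_aleph_iff.2 h0
  rw [← ho] at h1 h4 ⊢
  rw [not_le] at h4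
  have h2 : (1 : Ordinal) < o := aleph_lt_aleph.1 h1
  have h3 : o < (4 : Ordinal) := aleph_lt_aleph.1 h4
  have h5 : o < ω := h3.trans (by exact_mod_cast natCast_lt_omega0 4)
  obtain ⟨n, rfl⟩ := lt_omega0.1 h5
  have h6 : 1 < n := by exact_mod_cast h2
  have h7 : n < 4 := by exact_mod_cast h3
  have h8 : n = 2 ∨ n = 3 := by omega
  rcases h8 with rfl | rfl
  · left; norm_num
  · right; norm_num

/-- the dominating families along a set of ordinals -/
theorem exists_GG {κ : Cardinal.{u}} (hκ4 : ℵ_ 4 ≤ κ) (J : Type u) (hJ : #J = κ)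
    (h : ∀ (ι : Type u), #ι ≤ ℵ₁ → ∀ lam : ι → Cardinal.{u}, Fam lam → (∀ a, lam a ≤ κ) →
      cf lam univ ≤ κ) (B : Set Ordinal.{u}) (hB : #B ≤ ℵ₁) (hB' : ∀ β ∈ B, β ≤ κ.ord) :
    ∃ G : J → Ordinal.{u} → Ordinal.{u}, ∀ f : Ordinal.{u} → Ordinal.{u},
      (∀ β ∈ B, ℵ₁ < β.cof → f β < β.cof.ord) →
      ∃ j, ∀ β ∈ B, ℵ₁ < β.cof → f β ≤ G j β ∧ G j β < β.cof.ord := by
  classical
  have hsm : Small.{u} B := small_subset (s := Iic κ.ord) (fun β hβ => hB' β hβ)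
  set ι : Type u := Shrink.{u} B with hι
  set bt : ι → Ordinal.{u} := fun a => ((equivShrink B).symm a : B) with hbt
  have hbtB : ∀ a, bt a ∈ B := fun a => ((equivShrink B).symm a).2
  have hbte : ∀ β (hβ : β ∈ B), bt (equivShrink B ⟨β, hβ⟩) = β := by
    intro β hβ
    simp [hbt]
  have hcard : #ι ≤ ℵ₁ := by
    have h1 : Cardinal.lift.{u + 1} #ι = Cardinal.lift.{u} #B := by
      have := Cardinal.mk_congr_lift (equivShrink B)
      rw [this]
    have h2 : Cardinal.lift.{u + 1} #ι ≤ Cardinal.lift.{u + 1} (ℵ₁ : Cardinal.{u}) := by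
      rw [h1]
      simpa using hB
    exact Cardinal.lift_le.1 h2
  set lam : ι → Cardinal.{u} := fun a => if ℵ_ 4 ≤ (bt a).cof then (bt a).cof else ℵ_ 4
    with hlam
  have h4reg : (ℵ_ 4 : Cardinal.{u}).IsRegular := by
    have := isRegular_aleph_add_one.{u} 3
    have h34 : (3 : Ordinal.{u}) + 1 = 4 := by norm_num
    rwa [h34] at this
  have hFam : Fam lam := by
    intro a
    simp only [hlam]
    split_ifs with h1
    · exact ⟨isRegular_cof (one_lt_cof_iff.1 (one_lt_aleph0.trans_le ((aleph0_le_aleph 4).trans h1))), h1⟩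
    · exact ⟨h4reg, le_rfl⟩
  have hle : ∀ a, lam a ≤ κ := by
    intro a
    simp only [hlam]
    split_ifs with h1
    · have h2 := Ordinal.card_le_card (hB' _ (hbtB a))
      rw [card_ord] at h2
      exact (cof_le_card _).trans h2
    · exact hκ4
  obtain ⟨T, g, hT, hg, hdom⟩ := cf_le_iff.1 (h ι hcard lam hFam hle)
  have hlampos : ∀ a, 0 < (lam a).ord := fun a => (hFam a).1.ord_pos
  have hTne : Nonempty T := by
    obtain ⟨t, _⟩ := hdom (fun _ => 0) (fun a => hlampos a)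
    exact ⟨t⟩
  set Θ : Type u := T × (ω_ 2 : Ordinal.{u}).ToType × (ω_ 3 : Ordinal.{u}).ToType with hΘ
  have hκ0 : ℵ₀ ≤ κ := (aleph0_le_aleph 4).trans hκ4
  have hΘκ : #Θ ≤ κ := by
    simp only [hΘ, mk_prod, Cardinal.lift_id]
    refine mul_le_of_le hκ0 hT (mul_le_of_le hκ0 ?_ ?_)
    · rw [mk_toType, card_omega]
      exact (aleph_le_aleph.2 (by exact_mod_cast (by norm_num : (2 : ℕ) ≤ 4))).trans hκ4
    · rw [mk_toType, card_omega]
      exact (aleph_le_aleph.2 (by exact_mod_cast (by norm_num : (3 : ℕ) ≤ 4))).trans hκ4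
  have h2pos : (0 : Ordinal.{u}) < ω_ 2 := omega_pos 2
  have h3pos : (0 : Ordinal.{u}) < ω_ 3 := omega_pos 3
  obtain ⟨φ⟩ : Nonempty (Θ ↪ J) := by
    rw [← Cardinal.le_def, hJ]
    exact hΘκ
  have hΘne : Nonempty Θ := ⟨(hTne.some, ToType.mk ⟨0, h2pos⟩, ToType.mk ⟨0, h3pos⟩)⟩
  set G' : Θ → Ordinal.{u} → Ordinal.{u} := fun θ β =>
    if β.cof = ℵ_ 2 then (θ.2.1.toOrd : Ordinal) else
    if β.cof = ℵ_ 3 then (θ.2.2.toOrd : Ordinal) else
    if hβ : β ∈ B then g θ.1 (equivShrink B ⟨β, hβ⟩) else 0 with hG'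
  refine ⟨fun j => G' (Function.invFun φ j), fun f hf => ?_⟩
  obtain ⟨t, ht⟩ := hdom (fun a => if ℵ_ 4 ≤ (bt a).cof then f (bt a) else 0) (by
    intro a
    simp only [hlam]
    split_ifs with h1
    · exact hf _ (hbtB a) (lt_of_lt_of_le (aleph_lt_aleph.2
        (by exact_mod_cast (by norm_num : (1 : ℕ) < 4))) h1)
    · exact h4reg.ord_pos)
  have h2lt : (⨆ a, if (bt a).cof = ℵ_ 2 then f (bt a) else 0) < ω_ 2 := by
    apply iSup_lt_of_lt_cof
    · have h5 : (ω_ 2 : Ordinal.{u}).cof = ℵ_ 2 := by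
        have := cof_omega_add_one.{u} 1
        have h34 : (1 : Ordinal.{u}) + 1 = 2 := by norm_num
        rwa [h34] at this
      rw [h5]
      exact hcard.trans_lt (aleph_lt_aleph.2 (by exact_mod_cast (by norm_num : (1 : ℕ) < 2)))
    · intro a
      split_ifs with h1
      · have := hf _ (hbtB a) (by
          rw [h1]; exact aleph_lt_aleph.2 (by exact_mod_cast (by norm_num : (1 : ℕ) < 2)))
        rwa [h1, ord_aleph] at this
      · exact h2pos
  have h3lt : (⨆ a, if (bt a).cof = ℵ_ 3 then f (bt a) else 0) < ω_ 3 := by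
    apply iSup_lt_of_lt_cof
    · have h5 : (ω_ 3 : Ordinal.{u}).cof = ℵ_ 3 := by
        have := cof_omega_add_one.{u} 2
        have h34 : (2 : Ordinal.{u}) + 1 = 3 := by norm_num
        rwa [h34] at this
      rw [h5]
      exact hcard.trans_lt (aleph_lt_aleph.2 (by exact_mod_cast (by norm_num : (1 : ℕ) < 3)))
    · intro a
      split_ifs with h1
      · have := hf _ (hbtB a) (by
          rw [h1]; exact aleph_lt_aleph.2 (by exact_mod_cast (by norm_num : (1 : ℕ) < 3)))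
        rwa [h1, ord_aleph] at this
      · exact h3pos
  refine ⟨φ (t, ToType.mk ⟨_, h2lt⟩, ToType.mk ⟨_, h3lt⟩), fun β hβ hc => ?_⟩
  have hinv : Function.invFun φ (φ (t, ToType.mk ⟨_, h2lt⟩, ToType.mk ⟨_, h3lt⟩)) =
      (t, ToType.mk ⟨_, h2lt⟩, ToType.mk ⟨_, h3lt⟩) := Function.leftInverse_invFun φ.injective _
  beta_reduce
  rw [hinv]
  have h23 : (ℵ_ 2 : Cardinal.{u}) ≠ ℵ_ 3 :=
    (aleph_lt_aleph.2 (by exact_mod_cast (by norm_num : (2 : ℕ) < 3))).ne
  by_cases h4 : ℵ_ 4 ≤ β.cof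
  · have hn2 : β.cof ≠ ℵ_ 2 := by
      intro h5
      rw [h5] at h4
      exact absurd (aleph_le_aleph.1 h4) (by exact_mod_cast (by norm_num : ¬ (4 : ℕ) ≤ 2))
    have hn3 : β.cof ≠ ℵ_ 3 := by
      intro h5
      rw [h5] at h4
      exact absurd (aleph_le_aleph.1 h4) (by exact_mod_cast (by norm_num : ¬ (4 : ℕ) ≤ 3))
    simp only [hG', if_neg hn2, if_neg hn3, dif_pos hβ]
    have h6 := ht (equivShrink B ⟨β, hβ⟩) (mem_univ _)
    have h7 := hg t (equivShrink B ⟨β, hβ⟩)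
    simp only [hbte, if_pos h4] at h6
    simp only [hlam, hbte, if_pos h4] at h7
    exact ⟨h6, h7⟩
  · rcases cof_cases' hc h4 with h5 | h5
    · simp only [hG', if_pos h5]
      constructor
      · have h6 := Ordinal.le_iSup (fun a => if (bt a).cof = ℵ_ 2 then f (bt a) else 0)
          (equivShrink B ⟨β, hβ⟩)
        simp only [hbte, if_pos h5] at h6
        simpa [ToType.toOrd] using h6
      · rw [h5, ord_aleph]
        simpa [ToType.toOrd] using h2lt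
    · have hn2 : β.cof ≠ ℵ_ 2 := by rw [h5]; exact h23.symm
      simp only [hG', if_neg hn2, if_pos h5]
      constructor
      · have h6 := Ordinal.le_iSup (fun a => if (bt a).cof = ℵ_ 3 then f (bt a) else 0)
          (equivShrink B ⟨β, hβ⟩)
        simp only [hbte, if_pos h5] at h6
        simpa [ToType.toOrd] using h6
      · rw [h5, ord_aleph]
        simpa [ToType.toOrd] using h3lt

end HullAux

open HullAux

theorem cov_of_cf {κ : Cardinal.{u}} (hκ : κ ^ ℵ₀ = κ) (hκ4 : ℵ_ 4 ≤ κ)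
    (h : ∀ (ι : Type u), #ι ≤ ℵ₁ → ∀ lam : ι → Cardinal.{u}, Fam lam → (∀ a, lam a ≤ κ) →
      cf lam univ ≤ κ) (T : Type u) (hT : #T = κ) : NW.Cov T κ := by
  classical
  obtain ⟨e⟩ : Nonempty (T ≃ κ.ord.ToType) := Cardinal.eq.1 (by rw [hT, mk_ord_toType])
  refine NW.Cov.congr e ?_
  have h01 : ℵ₀ ≤ (ℵ₁ : Cardinal.{u + 1}) := aleph0_le_aleph 1
  have hGG := exists_GG hκ4 T hT h
  choose GG0 hGG0 using hGG
  set GG : Set Ordinal.{u} → T → Ordinal.{u} → Ordinal.{u} := fun B =>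
    if hB : #B ≤ ℵ₁ ∧ ∀ β ∈ B, β ≤ κ.ord then GG0 B hB.1 hB.2 else fun _ _ => 0 with hGGdef
  have hGGs : ∀ B : Set Ordinal.{u}, (#B ≤ ℵ₁ ∧ ∀ β ∈ B, β ≤ κ.ord) →
      ∀ f : Ordinal.{u} → Ordinal.{u}, (∀ β ∈ B, ℵ₁ < β.cof → f β < β.cof.ord) →
      ∃ j, ∀ β ∈ B, ℵ₁ < β.cof → f β ≤ GG B j β ∧ GG B j β < β.cof.ord := by
    intro B hB f hf
    have h1 := hGG0 B hB.1 hB.2 f hf
    simp only [hGGdef, dif_pos hB]
    exact h1
  let Bs : (ℕ → T) → ℕ → Set Ordinal.{u} := fun s n =>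
    Nat.rec {κ.ord} (fun m B => stp B (GG B (s m))) n
  have Bs0 : ∀ s, Bs s 0 = {κ.ord} := fun s => rfl
  have BsS : ∀ s n, Bs s (n + 1) = stp (Bs s n) (GG (Bs s n) (s n)) := fun s n => rfl
  have hinv : ∀ (s : ℕ → T) (n : ℕ), #(↥(Bs s n)) ≤ ℵ₁ ∧ ∀ β ∈ Bs s n, β ≤ κ.ord := by
    intro s n
    induction n with
    | zero =>
      rw [Bs0]
      refine ⟨?_, ?_⟩
      · rw [mk_singleton]; exact one_le_aleph0.trans h01
      · intro β hβ
        rw [mem_singleton_iff] at hβ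
        exact hβ.le
    | succ n ih =>
      rw [BsS]
      exact ⟨mk_stp ih.1, stp_le ih.2⟩
  have htop : ∀ s n, κ.ord ∈ Bs s n := by
    intro s n
    induction n with
    | zero => rw [Bs0]; exact mem_singleton _
    | succ n ih => rw [BsS]; exact subset_stp _ _ ih
  set P : (ℕ → T) → Set κ.ord.ToType := fun s =>
    {τ | (τ.toOrd : Ordinal) ∈ ⋃ n, Bs s n} with hP
  refine ⟨range P, ?_, ?_, ?_⟩
  · refine mk_range_le.trans ?_
    have h1 : #(ℕ → T) = κ ^ (ℵ₀ : Cardinal.{u}) := by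
      simp [hT]
    rw [h1, hκ]
  · rintro _ ⟨s, rfl⟩
    have h1 : #(⋃ n, Bs s n : Set Ordinal.{u}) ≤ ℵ₁ := by
      have h2 := mk_iUnion_le_sum_mk_lift (f := Bs s)
      have h3 : Cardinal.sum (fun n => #(↥(Bs s n))) ≤ ℵ₁ := by
        refine (sum_le_sum _ (fun _ => (ℵ₁ : Cardinal.{u + 1})) fun n => (hinv s n).1).trans ?_
        rw [sum_const]
        simp only [mk_nat, Cardinal.lift_aleph0]
        exact mul_le_of_le h01 (by simp) (by simp)
      simpa using h2.trans h3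
    have h2 : Cardinal.lift.{u + 1} #(P s) ≤ Cardinal.lift.{u} #(⋃ n, Bs s n : Set Ordinal.{u}) := by
      have hinj : Function.Injective (fun τ : P s =>
        (⟨(τ.1.toOrd : Ordinal), τ.2⟩ : (⋃ n, Bs s n : Set Ordinal.{u}))) := by
       intro τ τ' hττ
       have h4 : τ.1.toOrd = τ'.1.toOrd := Subtype.ext (Subtype.mk.inj hττ)
       exact Subtype.ext (ToType.mk.symm.injective h4)
      exact Cardinal.lift_mk_le'.2 ⟨⟨_, hinj⟩⟩
    have h3 : Cardinal.lift.{u + 1} #(P s) ≤ Cardinal.lift.{u + 1} (ℵ₁ : Cardinal.{u}) := by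
      refine h2.trans ?_
      simpa using h1
    exact Cardinal.lift_le.1 h3
  · intro A hA
    -- the function used to choose the index
    have hr : ∀ (τ : A) (β : Ordinal.{u}), ∃ ξ : Ordinal.{u},
        (ξ = 0 ∨ ξ < β.cof.ord) ∧ ((τ.1.toOrd : Ordinal) < β → ξ < β.cof.ord ∧
          (τ.1.toOrd : Ordinal) ≤ es β ξ) := by
      intro τ β
      by_cases h1 : (τ.1.toOrd : Ordinal) < β
      · obtain ⟨ξ, h2, h3⟩ := es_cof h1
        exact ⟨ξ, Or.inr h2, fun _ => ⟨h2, h3⟩⟩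
      · exact ⟨0, Or.inl rfl, fun h2 => absurd h2 h1⟩
    choose r hr0 hr1 using hr
    set f : Ordinal.{u} → Ordinal.{u} := fun β => ⨆ τ : A, r τ β with hf
    have hflt : ∀ β, ℵ₁ < β.cof → f β < β.cof.ord := by
      intro β hβ
      have h0 : ℵ₀ ≤ β.cof := (aleph0_le_aleph 1).trans hβ.le
      have hreg : β.cof.IsRegular := isRegular_cof (one_lt_cof_iff.1 (one_lt_aleph0.trans_le h0))
      apply iSup_lt_of_lt_cof
      · rw [hreg.cof_ord]
        exact hA.trans_lt hβ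
      · intro τ
        rcases hr0 τ β with h1 | h1
        · rw [h1]; exact hreg.ord_pos
        · exact h1
    have hj : ∀ B : Set Ordinal.{u}, ∃ j : T, (#B ≤ ℵ₁ ∧ ∀ β ∈ B, β ≤ κ.ord) →
        ∀ β ∈ B, ℵ₁ < β.cof → f β ≤ GG B j β ∧ GG B j β < β.cof.ord := by
      intro B
      by_cases hB : #B ≤ ℵ₁ ∧ ∀ β ∈ B, β ≤ κ.ord
      · obtain ⟨j, hj⟩ := hGGs B hB f (fun β _ h1 => hflt β h1)
        exact ⟨j, fun _ => hj⟩
      · have hne : Nonempty T := by
          rw [← mk_ne_zero_iff, hT]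
          intro h1
          rw [h1] at hκ4
          exact absurd (lt_of_lt_of_le (aleph_pos 4) hκ4) (lt_irrefl _)
        exact ⟨hne.some, fun h1 => absurd h1 hB⟩
    choose jj hjj using hj
    let BX : ℕ → Set Ordinal.{u} := fun n => Nat.rec {κ.ord} (fun _ B => stp B (GG B (jj B))) n
    have BX0 : BX 0 = {κ.ord} := rfl
    have BXS : ∀ n, BX (n + 1) = stp (BX n) (GG (BX n) (jj (BX n))) := fun n => rfl
    set s : ℕ → T := fun n => jj (BX n) with hs
    have hBX : ∀ n, Bs s n = BX n := by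
      intro n
      induction n with
      | zero => rw [Bs0, BX0]
      | succ n ih => rw [BsS, BXS, ih]
    refine ⟨fun _ => P s, fun _ => ⟨s, rfl⟩, ?_⟩
    intro τ hτ
    refine mem_iUnion.2 ⟨0, ?_⟩
    have key : ∀ β : Ordinal.{u}, ∀ n, β ∈ Bs s n → (τ.toOrd : Ordinal) ≤ β →
        ∃ m, (τ.toOrd : Ordinal) ∈ Bs s m := by
      intro β
      induction β using WellFoundedLT.induction with
      | ind β ih =>
      intro n hβ hle
      rcases hle.eq_or_lt with h1 | h1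
      · exact ⟨n, by rw [h1]; exact hβ⟩
      · have hS : Bs s (n + 1) = stp (Bs s n) (GG (Bs s n) (s n)) := BsS s n
        obtain ⟨hξ, hle'⟩ := hr1 ⟨τ, hτ⟩ β h1
        by_cases hc : β.cof ≤ ℵ₁
        · exact ih (es β (r ⟨τ, hτ⟩ β)) (es_lt hξ) (n + 1)
            (by rw [hS]; exact small_mem_stp _ hβ hc hξ) hle'
        · rw [not_le] at hc
          have h2 : s n = jj (Bs s n) := by rw [hBX n]
          obtain ⟨h3, h4⟩ := hjj (Bs s n) (hinv s n) β hβ hc
          rw [← h2] at h3 h4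
          have h5 : r ⟨τ, hτ⟩ β ≤ f β := Ordinal.le_iSup (fun τ : A => r τ β) ⟨τ, hτ⟩
          exact ih (es β (GG (Bs s n) (s n) β)) (es_lt h4) (n + 1)
            (by rw [hS]; exact big_mem_stp _ hβ)
            (hle'.trans (es_mono (h5.trans h3) h4))
    have hlt : (τ.toOrd : Ordinal) < κ.ord := τ.toOrd.2
    obtain ⟨m, hm⟩ := key κ.ord 0 (htop s 0) hlt.le
    exact mem_iUnion.2 ⟨m, hm⟩

end Pool.Agent.Helper14.PCF
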