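import Mathlib
import Pool.Agent.Helper14.PCF.Mini

/-!
Module M4: weak transitivity (note 751, step 3).
-/

open Cardinal Ordinal Set

universe u v

namespace Pool.Agent.Helper14.PCF

variable {ι R : Type u} {lam : ι → Cardinal.{u}} {rho : R → Cardinal.{u}} {μ : Cardinal.{u}}

namespace LemW

theorem card_le (hR : #R ≤ ℵ₁) : Cardinal.lift.{u} #R ≤ ℵ_ 3 := by
  rw [Cardinal.lift_id]
  exact hR.trans (Cardinal.aleph_le_aleph.2 (by norm_num))

/-- the upper bound `f_h` -/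
theorem exists_sup (hR : #R ≤ ℵ₁) (hlam : Fam lam) (b : R → Set ι) (h : R → Ordinal.{u}) :
    ∃ f ∈ Pr lam, ∀ r a, scale lam (b r) (h r) a < f a :=
  exists_bound_fun hlam (card_le hR) (fun r => scale lam (b r) (h r))
    fun r => scale_mem hlam (h r)

open Classical in
/-- the ranks of a function on the sets `b r` -/
noncomputable def gam (lam : ι → Cardinal.{u}) (s : Set R) (b : R → Set ι)
    (g : ι → Ordinal.{u}) (r : R) : Ordinal.{u} :=
  if r ∈ s then rk lam (b r) g else 0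

theorem gam_spec (hι : #ι ≤ ℵ₁) (hlam : Fam lam) (s : Set R) (b : R → Set ι)
    (hne : ∀ r ∈ s, (b r).Nonempty) (hb : ∀ r ∈ s, cf lam (b r) = rho r)
    {g : ι → Ordinal.{u}} (hg : g ∈ Pr lam) {r : R} (hr : r ∈ s) :
    gam lam s b g r < (rho r).ord ∧ ∀ a ∈ b r, g a ≤ scale lam (b r) (gam lam s b g r) a := by
  unfold gam
  rw [if_pos hr, ← hb r hr]
  exact rk_spec hι hlam (hne r hr) hg

theorem gam_mem (hι : #ι ≤ ℵ₁) (hlam : Fam lam) (s : Set R) (b : R → Set ι)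
    (hne : ∀ r ∈ s, (b r).Nonempty) (hb : ∀ r ∈ s, cf lam (b r) = rho r) (hrho : Fam rho)
    {g : ι → Ordinal.{u}} (hg : g ∈ Pr lam) : gam lam s b g ∈ Pr rho := by
  intro r
  by_cases hr : r ∈ s
  · exact (gam_spec hι hlam s b hne hb hg hr).1
  · unfold gam
    rw [if_neg hr]
    exact (hrho r).1.ord_pos

end LemW

open LemW

theorem W_a (hι : #ι ≤ ℵ₁) (hR : #R ≤ ℵ₁) (hlam : Fam lam) (s : Set R) (b : R → Set ι)
    (hne : ∀ r ∈ s, (b r).Nonempty) (hb : ∀ r ∈ s, cf lam (b r) = rho r) (hrho : Fam rho) :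
    cf rho s ≤ cf lam (⋃ r ∈ s, b r) := by
  obtain ⟨T, g, hT, hg, hdom⟩ := cf_le_iff.1 (le_refl (cf lam (⋃ r ∈ s, b r)))
  refine cf_le_iff.2 ⟨T, fun t => gam lam s b (g t), hT,
    fun t => gam_mem hι hlam s b hne hb hrho (hg t), fun h hh => ?_⟩
  obtain ⟨f, hf, hfs⟩ := exists_sup hR hlam b h
  obtain ⟨t, ht⟩ := hdom f hf
  refine ⟨t, fun r hr => ?_⟩
  by_contra hc
  rw [not_le] at hc
  have hγ : h r < (cf lam (b r)).ord := by rw [hb r hr]; exact hh r
  have h1 := (isScale_scale hι hlam (hne r hr)).2.1 _ _ hc hγ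
  refine absurd (lt_of_le_of_lt (cf_mono (lam := lam) (fun a ha => ?_)) h1) (lt_irrefl _)
  show scale lam (b r) (h r) a < scale lam (b r) (gam lam s b (g t) r) a
  exact ((hfs r a).trans_le (ht a (mem_biUnion hr ha))).trans_le
    ((gam_spec hι hlam s b hne hb (hg t) hr).2 a ha)

theorem W_b (hι : #ι ≤ ℵ₁) (hR : #R ≤ ℵ₁) (hlam : Fam lam) (s : Set R) (b : R → Set ι)
    (hne : ∀ r ∈ s, (b r).Nonempty) (hb : ∀ r ∈ s, cf lam (b r) = rho r) (hrho : Fam rho)
    (hμ : ℵ₀ ≤ μ) (hs : cf rho s ≤ μ) :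
    ∃ d : Set ι, cf lam d ≤ μ ∧ ∀ r ∈ s, cf lam (b r \ d) < rho r := by
  obtain ⟨T, D, hT, hD, hdom⟩ := cf_le_iff.1 hs
  choose f hf hfs using fun t => exists_sup hR hlam b (D t)
  obtain ⟨h, hh, hmod⟩ := exists_bound_mod hι hlam hμ hT f hf
  obtain ⟨t, ht⟩ := hdom _ (gam_mem hι hlam s b hne hb hrho hh)
  refine ⟨{a | h a < f t a}, hmod t, fun r hr => ?_⟩
  have hsub : b r \ {a | h a < f t a} ⊆
      {a | scale lam (b r) (D t r) a < scale lam (b r) (gam lam s b h r) a} := by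
    intro a ha
    have h1 : f t a ≤ h a := not_lt.1 ha.2
    exact ((hfs t r a).trans_le h1).trans_le ((gam_spec hι hlam s b hne hb hh hr).2 a ha.1)
  rcases (ht r hr).lt_or_eq with hlt | heq
  · have hγ : D t r < (cf lam (b r)).ord := by rw [hb r hr]; exact hD t r
    rw [← hb r hr]
    exact lt_of_le_of_lt (cf_mono hsub) ((isScale_scale hι hlam (hne r hr)).2.1 _ _ hlt hγ)
  · have hemp : b r \ {a | h a < f t a} = ∅ := by
      refine subset_empty_iff.1 (hsub.trans fun a ha => ?_)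
      rw [Set.mem_ofPred_eq, heq] at ha
      exact absurd ha (lt_irrefl _)
    rw [hemp]
    exact cf_empty.trans_lt (lt_of_lt_of_le Cardinal.one_lt_aleph0 (hrho r).1.aleph0_le)

end Pool.Agent.Helper14.PCF
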