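import Mathlib
import Pool.Agent.Helper14.PCF.LemW

/-!
Module M5: from an undominated product to a nondecreasing one of length `ω₁` with small
initial segments (note 751, step 4).
-/

open Cardinal Ordinal Set

universe u v

namespace Pool.Agent.Helper14.PCF

namespace LemB

theorem countable_Iic {Ω : Type u} [LinearOrder Ω] (hIio : ∀ y : Ω, (Iio y).Countable) (y : Ω) :
    (Iic y).Countable := by
  rw [← Iio_insert]
  exact (hIio y).insert y

theorem dom_congr {ι : Type u} {lam lam' : ι → Cardinal.{u}} {c : Set ι} {μ : Cardinal.{u}}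
    (hlam : Fam lam) (hlam' : Fam lam') (h : ∀ a ∈ c, lam a = lam' a) (hD : Dom lam μ c) :
    Dom lam' μ c := by
  classical
  obtain ⟨T, g, hT, hg, hdom⟩ := hD
  refine ⟨T, fun t a => if a ∈ c then g t a else 0, hT, fun t a => ?_, fun f hf => ?_⟩
  · by_cases ha : a ∈ c
    · simp only [if_pos ha]
      rw [← h a ha]
      exact hg t a
    · simp only [if_neg ha]
      exact (hlam' a).1.ord_pos
  · have hf' : (fun a => if a ∈ c then f a else 0) ∈ Pr lam := by
      intro a
      by_cases ha : a ∈ c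
      · simp only [if_pos ha]
        rw [h a ha]
        exact hf a
      · simp only [if_neg ha]
        exact (hlam a).1.ord_pos
    obtain ⟨t, ht⟩ := hdom _ hf'
    refine ⟨t, fun a ha => ?_⟩
    have := ht a ha
    simp only [if_pos ha] at this ⊢
    exact this

theorem cf_congr {ι : Type u} {lam lam' : ι → Cardinal.{u}} {c : Set ι}
    (hlam : Fam lam) (hlam' : Fam lam') (h : ∀ a ∈ c, lam a = lam' a) : cf lam c = cf lam' c := by
  unfold cf
  congr 1
  ext μ
  exact ⟨dom_congr hlam hlam' h, dom_congr hlam' hlam fun a ha => (h a ha).symm⟩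

theorem big_four : Big (ℵ_ 4 : Cardinal.{u}) := by
  refine ⟨?_, le_rfl⟩
  have h : (ℵ_ 4 : Cardinal.{u}) = ℵ_ (3 + 1) := by
    congr 1
  rw [h]
  exact isRegular_aleph_add_one 3

end LemB

open LemB

theorem exists_gt_countable {Ω : Type u} [LinearOrder Ω] (hΩ : #Ω = ℵ₁)
    (hIio : ∀ y : Ω, (Iio y).Countable) (s : Set Ω) (hs : s.Countable) : ∃ y, ∀ z ∈ s, z < y := by
  have h1 : (⋃ z ∈ s, Iic z).Countable := hs.biUnion fun z _ => countable_Iic hIio z
  by_contra hcon
  push Not at hcon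
  have h2 : (⋃ z ∈ s, Iic z) = Set.univ := by
    rw [eq_univ_iff_forall]
    intro y
    obtain ⟨z, hz, hyz⟩ := hcon y
    exact mem_biUnion hz hyz
  rw [h2, ← Cardinal.le_aleph0_iff_set_countable, Cardinal.mk_univ, hΩ] at h1
  exact absurd h1 (not_le.2 aleph0_lt_aleph_one)

theorem exists_monotone {Ω : Type u} [LinearOrder Ω] [WellFoundedLT Ω] (hΩ : #Ω = ℵ₁)
    (hIio : ∀ y : Ω, (Iio y).Countable) {κ : Cardinal.{u}} (hκ : κ ^ ℵ₀ = κ) (hκ4 : ℵ_ 4 ≤ κ)
    {ι : Type u} (hι : #ι ≤ ℵ₁) {lam : ι → Cardinal.{u}} (hlam : Fam lam)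
    (hle : ∀ a, lam a ≤ κ) (hpos : κ < cf lam univ) :
    ∃ rho : Ω → Cardinal.{u}, Fam rho ∧ (∀ y, rho y ≤ κ) ∧ Monotone rho ∧ κ < cf rho univ ∧
      ∀ y, cf rho (Iic y) ≤ rho y := by
  classical
  have h0 : ℵ₀ ≤ κ := (aleph0_le_aleph 4).trans hκ4
  have h1 : 1 ≤ κ := one_le_aleph0.trans h0
  have hne : Nonempty ι := by
    by_contra hcon
    rw [not_nonempty_iff] at hcon
    have h2 : (univ : Set ι) = ∅ := Set.eq_empty_of_isEmpty _
    rw [h2] at hpos
    exact absurd (cf_empty.trans h1) (not_le.2 hpos)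
  obtain ⟨j⟩ : Nonempty (ι ↪ Ω) := Cardinal.le_def ι Ω |>.1 (hΩ ▸ hι)
  let π : Ω → ι := Function.invFun j
  have hπ : Function.Surjective π := Function.invFun_surjective j.injective
  let A : Ω → Set ι := fun y => π '' Iic y
  have hAc : ∀ y, (A y).Countable := fun y => (countable_Iic hIio y).image π
  have hAm : Monotone A := fun y z hyz => image_mono (Iic_subset_Iic.2 hyz)
  have hAu : ∀ a, ∃ y, a ∈ A y := by
    intro a
    obtain ⟨y, rfl⟩ := hπ a
    exact ⟨y, mem_image_of_mem π (mem_Iic.2 le_rfl)⟩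
  let r : Set ι → Ω → Cardinal.{u} := fun B y =>
    if (B ∩ A y).Nonempty then cf lam (B ∩ A y) else ℵ_ 4
  have hr : ∀ B y, (B ∩ A y).Nonempty → r B y = cf lam (B ∩ A y) := fun B y h => if_pos h
  have hrF : ∀ B, Fam (r B) := by
    intro B y
    by_cases h : (B ∩ A y).Nonempty
    · rw [hr B y h]
      exact big_cf hι hlam h
    · show Big (if (B ∩ A y).Nonempty then cf lam (B ∩ A y) else ℵ_ 4)
      rw [if_neg h]
      exact big_four
  have hrle : ∀ B y, r B y ≤ κ := by
    intro B y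
    by_cases h : (B ∩ A y).Nonempty
    · rw [hr B y h]
      exact cf_countable hlam hκ h1 ((hAc y).mono inter_subset_right) fun a _ => hle a
    · show (if (B ∩ A y).Nonempty then cf lam (B ∩ A y) else ℵ_ 4) ≤ κ
      rw [if_neg h]
      exact hκ4
  -- a stage at which the family of cofinalities is positive
  obtain ⟨B, hB⟩ : ∃ B : Set ι, κ < cf (r B) {y | (B ∩ A y).Nonempty} := by
    by_contra hcon
    push Not at hcon
    have h2 : ∀ B : Set ι, ∃ d : Set ι, cf lam d ≤ κ ∧
        ∀ y, (B ∩ A y).Nonempty → cf lam ((B ∩ A y) \ d) < cf lam (B ∩ A y) := by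
      intro B
      obtain ⟨d, hd, hd'⟩ := W_b hι hΩ.le hlam {y | (B ∩ A y).Nonempty} (fun y => B ∩ A y)
        (fun y hy => hy) (fun y hy => (hr B y hy).symm) (hrF B) h0 (hcon B)
      refine ⟨d, hd, fun y hy => ?_⟩
      rw [← hr B y hy]
      exact hd' y hy
    choose D hD hD' using h2
    let S : ℕ → Set ι := fun n => Nat.rec univ (fun _ B => B \ D B) n
    have hS : ∀ n, S (n + 1) = S n \ D (S n) := fun n => rfl
    have hleave : ∀ y, ∃ n, ¬ (S n ∩ A y).Nonempty := by
      intro y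
      by_contra hc
      push Not at hc
      have h3 : ∀ n, cf lam (S (n + 1) ∩ A y) < cf lam (S n ∩ A y) := by
        intro n
        have h4 := hD' (S n) y (hc n)
        have h5 : S (n + 1) ∩ A y = (S n ∩ A y) \ D (S n) := by
          rw [hS]
          ext a
          simp only [mem_inter_iff, mem_sdiff]
          tauto
        rw [h5]
        exact h4
      have h6 : StrictAnti fun n => cf lam (S n ∩ A y) := strictAnti_nat_of_succ_lt h3
      exact (not_strictAnti_of_wellFoundedLT _) h6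
    have hcov : (univ : Set ι) = ⋃ n, D (S n) := by
      symm
      rw [eq_univ_iff_forall]
      intro a
      obtain ⟨y, hy⟩ := hAu a
      obtain ⟨n, hn⟩ := hleave y
      have han : a ∉ S n := fun h => hn ⟨a, h, hy⟩
      have : ∀ n : ℕ, a ∉ S n → ∃ m : ℕ, a ∈ D (S m) := by
        intro n
        induction n with
        | zero => exact fun h => absurd (mem_univ a) h
        | succ n ih =>
          intro h
          rw [hS] at h
          rcases Classical.em (a ∈ S n) with h7 | h7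
          · rcases Classical.em (a ∈ D (S n)) with h8 | h8
            · exact ⟨n, h8⟩
            · exact absurd ⟨h7, h8⟩ h
          · exact ih h7
      obtain ⟨m, hm⟩ := this n han
      exact mem_iUnion.2 ⟨m, hm⟩
    have h9 := cf_iUnion_nat hlam hκ (fun n => D (S n)) fun n => hD (S n)
    rw [← hcov] at h9
    exact absurd h9 (not_le.2 hpos)
  obtain ⟨y0, hy0⟩ : {y | (B ∩ A y).Nonempty}.Nonempty := by
    by_contra hcon
    rw [not_nonempty_iff_eq_empty] at hcon
    rw [hcon] at hB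
    exact absurd (cf_empty.trans h1) (not_le.2 hB)
  have hup : ∀ y, y0 ≤ y → (B ∩ A y).Nonempty := fun y hy =>
    Set.Nonempty.mono (inter_subset_inter_right B (hAm hy)) hy0
  have hmax : ∀ y, (B ∩ A (max y y0)).Nonempty := fun y => hup _ (le_max_right _ _)
  let rho : Ω → Cardinal.{u} := fun y => cf lam (B ∩ A (max y y0))
  have hF : Fam rho := fun y => big_cf hι hlam (hmax y)
  have hbm : Monotone fun y => B ∩ A (max y y0) := fun y z hyz =>
    inter_subset_inter_right B (hAm (max_le_max_right y0 hyz))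
  refine ⟨rho, hF, fun y => ?_, fun y z hyz => cf_mono (hbm hyz), ?_, fun y => ?_⟩
  · exact cf_countable hlam hκ h1 ((hAc _).mono inter_subset_right) fun a _ => hle a
  · by_contra hcon
    rw [not_lt] at hcon
    refine absurd ?_ (not_le.2 hB)
    have h2 : cf (r B) (Ici y0) ≤ κ := by
      rw [cf_congr (lam' := rho) (hrF B) hF (fun y hy => by
        show r B y = cf lam (B ∩ A (max y y0))
        rw [max_eq_left hy, hr B y (hup y hy)])]
      exact (cf_mono (subset_univ _)).trans hcon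
    have h3 : cf (r B) (Iio y0) ≤ κ := cf_countable (hrF B) hκ h1 (hIio y0) fun a _ => hrle B a
    have h4 : {y | (B ∩ A y).Nonempty} ⊆ Iio y0 ∪ Ici y0 := by
      rw [Iio_union_Ici]
      exact subset_univ _
    exact (cf_mono h4).trans (cf_union h0 h3 h2)
  · refine (W_a hι hΩ.le hlam (Iic y) (fun z => B ∩ A (max z y0)) (fun z _ => hmax z)
      (fun z _ => rfl) hF).trans (cf_mono ?_)
    exact iUnion₂_subset fun z hz => hbm hz

/-- a positive nondecreasing family is not eventually constant -/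
theorem exists_lt_of_pos {Ω : Type u} [LinearOrder Ω] (hΩ : #Ω = ℵ₁)
    (hIio : ∀ y : Ω, (Iio y).Countable) {κ : Cardinal.{u}} (hκ : κ ^ ℵ₀ = κ) (hκ4 : ℵ_ 4 ≤ κ)
    {rho : Ω → Cardinal.{u}} (hrho : Fam rho) (hle : ∀ y, rho y ≤ κ) (hmono : Monotone rho)
    (hpos : κ < cf rho univ) (y : Ω) : ∃ z, y < z ∧ rho y < rho z := by
  have h0 : ℵ₀ ≤ κ := (aleph0_le_aleph 4).trans hκ4
  have h1 : 1 ≤ κ := one_le_aleph0.trans h0
  by_contra hcon
  push Not at hcon
  have h2 : cf rho (Ici y) ≤ κ := by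
    refine (cf_const hΩ.le (hrho y) fun z hz => ?_).trans (hle y)
    rcases (mem_Ici.1 hz).eq_or_lt with h | h
    · rw [h]
    · exact le_antisymm (hcon z h) (hmono h.le)
  have h3 : cf rho (Iio y) ≤ κ := cf_countable hrho hκ h1 (hIio y) fun a _ => hle a
  have h4 := cf_union h0 h3 h2
  rw [Iio_union_Ici] at h4
  exact absurd h4 (not_le.2 hpos)

/-- end segments are positive -/
theorem pos_Ici {Ω : Type u} [LinearOrder Ω]
    (hIio : ∀ y : Ω, (Iio y).Countable) {κ : Cardinal.{u}} (hκ : κ ^ ℵ₀ = κ) (hκ4 : ℵ_ 4 ≤ κ)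
    {rho : Ω → Cardinal.{u}} (hrho : Fam rho) (hle : ∀ y, rho y ≤ κ)
    (hpos : κ < cf rho univ) (y : Ω) : κ < cf rho (Ici y) := by
  have h0 : ℵ₀ ≤ κ := (aleph0_le_aleph 4).trans hκ4
  have h1 : 1 ≤ κ := one_le_aleph0.trans h0
  by_contra hcon
  rw [not_lt] at hcon
  have h3 : cf rho (Iio y) ≤ κ := cf_countable hrho hκ h1 (hIio y) fun a _ => hle a
  have h4 := cf_union h0 h3 hcon
  rw [Iio_union_Ici] at h4
  exact absurd h4 (not_le.2 hpos)

end Pool.Agent.Helper14.PCF
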