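import Mathlib
import Pool.Agent.Helper14.PCF.Catch
import Pool.Agent.Helper14.PCF.Chain
import Pool.Agent.Helper14.PCF.LemB

/-!
Module PCF-9: the main argument (note 751, step 6).
-/

open Cardinal Ordinal Set

universe u v

namespace Pool.Agent.Helper14.PCF

theorem exists_rec {Ω : Type u} [LinearOrder Ω] [WellFoundedLT Ω] {X : Type v}
    (R : (y : Ω) → (Iio y → X) → X → Prop) (h : ∀ y g, ∃ x, R y g x) :
    ∃ g : Ω → X, ∀ y, R y (fun z => g z) (g y) := by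
  choose F hF using h
  refine ⟨(wellFounded_lt (α := Ω)).fix (fun y ih => F y (fun z => ih z.1 z.2)), fun y => ?_⟩
  rw [WellFounded.fix_eq]
  exact hF y _

section

variable {Ω : Type u} [LinearOrder Ω]

/-- limit points below which `rho` is not eventually constant -/
def Q (rho : Ω → Cardinal.{u}) : Set Ω :=
  {i | (∃ z, z < i) ∧ ∀ z < i, ∃ z' < i, z < z' ∧ rho z < rho z'}

theorem exists_bounded [WellFoundedLT Ω] (hΩ : #Ω = ℵ₁) (hIio : ∀ y : Ω, (Iio y).Countable)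
    {rho : Ω → Cardinal.{u}} (hmono : Monotone rho) (hlt : ∀ y, ∃ z, y < z ∧ rho y < rho z)
    (j : Ω → Ω) (hj : ∀ i ∈ Q rho, j i < i) :
    ∃ jst, ∀ x, ∃ i ∈ Q rho, x < i ∧ j i ≤ jst := by
  by_contra hcon
  push Not at hcon
  choose g hg using hcon
  have hIic : ∀ y : Ω, (Iic y).Countable := by
    intro y
    rw [← Iio_insert]
    exact (hIio y).insert y
  have hne : Nonempty Ω := by
    rw [← mk_ne_zero_iff, hΩ]
    exact (aleph_pos 1).ne'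
  have hnext : ∀ x : Ω, ∃ y, x < y ∧ rho x < rho y ∧ ∀ z ≤ x, g z < y := by
    intro x
    obtain ⟨y1, hy1, hy1'⟩ := hlt x
    obtain ⟨y2, hy2⟩ := exists_gt_countable hΩ hIio (g '' Iic x) ((hIic x).image g)
    refine ⟨max y1 y2, hy1.trans_le (le_max_left _ _), hy1'.trans_le (hmono (le_max_left _ _)),
      fun z hz => (hy2 _ ⟨z, hz, rfl⟩).trans_le (le_max_right _ _)⟩
  choose nx hnx1 hnx2 hnx3 using hnext
  obtain ⟨x0⟩ := hne
  let s : ℕ → Ω := fun n => nx^[n] x0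
  have hs : ∀ n, s (n + 1) = nx (s n) := fun n => Function.iterate_succ_apply' nx _ _
  obtain ⟨y0, hy0⟩ := exists_gt_countable hΩ hIio (range s) (countable_range s)
  have hmin : ∃ i, (∀ n, s n < i) ∧ ∀ i' < i, ∃ n, i' ≤ s n := by
    let A : Set Ω := {x | ∀ n, s n < x}
    have hA : A.Nonempty := ⟨y0, fun n => hy0 _ ⟨n, rfl⟩⟩
    refine ⟨(wellFounded_lt (α := Ω)).min A hA, (wellFounded_lt (α := Ω)).min_mem A hA, ?_⟩
    intro i' hi'
    by_contra hcon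
    push Not at hcon
    exact (wellFounded_lt (α := Ω)).not_lt_min A hcon hi'
  obtain ⟨i, hi1, hi2⟩ := hmin
  have hiQ : i ∈ Q rho := by
    refine ⟨⟨s 0, hi1 0⟩, fun z hz => ?_⟩
    obtain ⟨n, hn⟩ := hi2 z hz
    refine ⟨s (n + 1), hi1 _, ?_, ?_⟩
    · rw [hs]
      exact hn.trans_lt (hnx1 _)
    · rw [hs]
      exact (hmono hn).trans_lt (hnx2 _)
  obtain ⟨n, hn⟩ := hi2 (j i) (hj i hiQ)
  have h1 : g (j i) < i := by
    have := hnx3 (s n) (j i) hn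
    rw [← hs] at this
    exact this.trans (hi1 _)
  exact absurd (hg (j i) i hiQ h1) (lt_irrefl _)

/-- the first family -/
def lam0 (rho : Ω → Cardinal.{u}) : Ω × ℕ → Cardinal.{u} := fun q => rho q.1

/-- the data extracted from one state -/
structure Dt (Ω : Type u) where
  /-- the bound of the regressive function -/
  jst : Ω
  /-- the increasing sequence -/
  t : Ω → Ω
  /-- the lists of objects -/
  L : Ω → List (Set (Ω × ℕ))

/-- the object with index `q` -/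
def ob (D : Dt Ω) (q : Ω × ℕ) : Set (Ω × ℕ) := (D.L q.1).getD q.2 ∅

/-- valid indices -/
def dm (D : Dt Ω) : Set (Ω × ℕ) := {q | q.2 < (D.L q.1).length}

open Classical in
/-- the second family -/
noncomputable def mu (rho : Ω → Cardinal.{u}) (D : Dt Ω) (q : Ω × ℕ) : Cardinal.{u} :=
  if q ∈ dm D then cf (lam0 rho) (ob D q) else ℵ_ 4

/-- valid indices with first coordinate in `B` -/
def ovr (D : Dt Ω) (B : Set Ω) : Set (Ω × ℕ) := {q | q ∈ dm D ∧ q.1 ∈ B}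

structure IsDt (rho : Ω → Cardinal.{u}) (S : St (Ω × ℕ)) (D : Dt Ω) : Prop where
  mem : ∀ y, ∀ e ∈ D.L y, (lam0 rho, e) ∈ S.C
  sub : ∀ y, ∀ e ∈ D.L y, ∀ q ∈ e, q.1 < D.t y
  lt : ∀ y, ∀ e ∈ D.L y, ∀ z < D.t y, rho z < cf (lam0 rho) e
  good : ∀ y q, D.jst ≤ q.1 → q.1 < D.t y → ∃ e ∈ D.L y, q ∈ e ∧
    S.K (lam0 rho q) = Fhat (lam0 rho) e (S.K (cf (lam0 rho) e)) q
  gap : ∀ y, ∃ s < D.t y, ∀ y' < y, D.t y' ≤ s

omit [LinearOrder Ω] in
theorem mem_list_iff (D : Dt Ω) (y : Ω) (e : Set (Ω × ℕ)) :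
    e ∈ D.L y ↔ ∃ k, (y, k) ∈ dm D ∧ ob D (y, k) = e := by
  constructor
  · intro h
    obtain ⟨k, hk, rfl⟩ := List.mem_iff_getElem.1 h
    refine ⟨k, hk, ?_⟩
    simp [ob, hk]
  · rintro ⟨k, hk, rfl⟩
    have hk' : k < (D.L y).length := hk
    simp [ob, hk']

omit [LinearOrder Ω] in
theorem ob_mem {D : Dt Ω} {q : Ω × ℕ} (hq : q ∈ dm D) : ob D q ∈ D.L q.1 :=
  (mem_list_iff D q.1 _).2 ⟨q.2, hq, rfl⟩

/-- existence of the data at stages of cofinality `ℵ₂` -/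
theorem exists_isDt [WellFoundedLT Ω] (hΩ : #Ω = ℵ₁) (hIio : ∀ y : Ω, (Iio y).Countable)
    {rho : Ω → Cardinal.{u}} (hrho : Fam rho) (hmono : Monotone rho)
    (hlt : ∀ y, ∃ z, y < z ∧ rho y < rho z)
    {Req : St (Ω × ℕ) → St (Ω × ℕ) → Cardinal.{u} → Set Ordinal.{u}}
    {New : St (Ω × ℕ) → St (Ω × ℕ) → Set (Ob (Ω × ℕ))} {C0 : Set (Ob (Ω × ℕ))}
    {S : Ordinal.{u} → St (Ω × ℕ)} (hι : #(Ω × ℕ) ≤ ℵ₁) (hS : IsChain Req New C0 S)
    (hR : ∀ S S' σ, Req0 S S' σ ⊆ Req S S' σ) (hN : ∀ S S', New0 S S' ⊆ New S S')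
    (hC0 : ∀ i : Ω, (lam0 rho, {q | q.1 < i}) ∈ C0)
    {ε : Ordinal.{u}} (hε : ε ≤ ω_ 3) (hcof : ℵ₁ < ε.cof) :
    ∃ D, IsDt rho (S ε) D := by
  have hlam : Fam (lam0 rho) := fun q => hrho q.1
  have hmem0 : ∀ i : Ω, (lam0 rho, {q : Ω × ℕ | q.1 < i}) ∈ (S ε).C :=
    fun i => hS.monoC 0 ε (zero_le) (hS.subC (hC0 i))
  have h1 : ∀ i : Ω, ∃ (L : List (Set (Ω × ℕ))) (j : Ω), i ∈ Q rho → j < i ∧
      (∀ e ∈ L, (lam0 rho, e) ∈ (S ε).C ∧ (∀ q ∈ e, q.1 < i) ∧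
        ∀ z < i, rho z < cf (lam0 rho) e) ∧
      ∀ q : Ω × ℕ, j ≤ q.1 → q.1 < i → ∃ e ∈ L, q ∈ e ∧
        (S ε).K (lam0 rho q) = Fhat (lam0 rho) e ((S ε).K (cf (lam0 rho) e)) q := by
    intro i
    by_cases hi : i ∈ Q rho
    swap
    · exact ⟨[], i, fun h => absurd h hi⟩
    obtain ⟨L, d, hL1, hd, hL2⟩ := hS.exists_list hι hR hN hε hcof hlam
      (fun e => ∀ z < i, ∃ q ∈ e, z < q.1) (by
        intro h
        obtain ⟨z, hz⟩ := hi.1
        obtain ⟨q, hq, _⟩ := h z hz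
        exact hq) _ (hmem0 i)
    simp only [not_forall, not_exists, not_and, not_lt] at hd
    obtain ⟨z0, hz0, hd⟩ := hd
    obtain ⟨z1, hz1, hz01, -⟩ := hi.2 z0 hz0
    refine ⟨L, z1, fun _ => ⟨hz1, ?_, ?_⟩⟩
    · intro e he
      obtain ⟨hP, hsub, hmem⟩ := hL1 e he
      refine ⟨hmem, fun q hq => hsub hq, ?_⟩
      intro z hz
      obtain ⟨z', hz', hzz', hr⟩ := hi.2 z hz
      obtain ⟨q, hq, hq'⟩ := hP z' hz'
      exact (hr.trans_le (hmono hq'.le)).trans_le (le_cf hlam (lam := lam0 rho) hq)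
    · intro q hq1 hq2
      rcases hL2 q hq2 with h | h
      · exact absurd (hq1.trans (hd q h)) (not_le.2 hz01)
      · exact h
  choose L j h2 using h1
  obtain ⟨jst, hjst⟩ := exists_bounded hΩ hIio hmono hlt j (fun i hi => (h2 i hi).1)
  -- the increasing sequence
  obtain ⟨t, ht⟩ := exists_rec (Ω := Ω) (X := Ω)
    (fun y g x => x ∈ Q rho ∧ j x ≤ jst ∧ ∃ s < x, ∀ z, g z ≤ s) (by
      intro y g
      obtain ⟨s, hs⟩ := exists_gt_countable hΩ hIio (range g) (by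
        have : Countable (Iio y) := (hIio y).to_subtype
        exact countable_range g)
      obtain ⟨i, hi, hsi, hij⟩ := hjst s
      exact ⟨i, hi, hij, s, hsi, fun z => (hs _ ⟨z, rfl⟩).le⟩)
  refine ⟨⟨jst, t, fun y => L (t y)⟩, ?_, ?_, ?_, ?_, ?_⟩
  · intro y e he
    exact ((h2 _ (ht y).1).2.1 e he).1
  · intro y e he
    exact ((h2 _ (ht y).1).2.1 e he).2.1
  · intro y e he
    exact ((h2 _ (ht y).1).2.1 e he).2.2
  · intro y q hq1 hq2
    exact (h2 _ (ht y).1).2.2 q ((ht y).2.1.trans hq1) hq2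
  · intro y
    obtain ⟨s, hs, hs'⟩ := (ht y).2.2
    exact ⟨s, hs, fun y' hy' => hs' ⟨y', hy'⟩⟩

section

variable {rho : Ω → Cardinal.{u}} {S : St (Ω × ℕ)} {D : Dt Ω}

theorem IsDt.nonempty (hrho : Fam rho) (hD : IsDt rho S D) {y : Ω} {e : Set (Ω × ℕ)}
    (he : e ∈ D.L y) : e.Nonempty := by
  rw [nonempty_iff_ne_empty]
  rintro rfl
  obtain ⟨s, hs, -⟩ := hD.gap y
  have h1 := (hD.lt y _ he s hs).trans_le cf_empty
  exact absurd ((one_le_aleph0.trans (hrho s).1.aleph0_le)) (not_le.2 h1)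

theorem IsDt.fam_mu (hι : #(Ω × ℕ) ≤ ℵ₁) (hrho : Fam rho) (hD : IsDt rho S D) :
    Fam (mu rho D) := by
  intro q
  unfold mu
  split_ifs with hq
  · exact big_cf hι (fun q => hrho q.1) (hD.nonempty hrho (ob_mem hq))
  · refine ⟨?_, le_rfl⟩
    have h : (4 : Ordinal.{u}) = 3 + 1 := by norm_num
    rw [h]
    exact isRegular_aleph_add_one 3

theorem IsDt.mu_le {κ : Cardinal.{u}} (hκ4 : ℵ_ 4 ≤ κ) (hι : #(Ω × ℕ) ≤ ℵ₁) (hrho : Fam rho)
    (hle : ∀ y, rho y ≤ κ) (hseg : ∀ y, cf rho (Iic y) ≤ rho y)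
    (hD : IsDt rho S D) (q : Ω × ℕ) : mu rho D q ≤ κ := by
  unfold mu
  split_ifs with hq
  · have hsub : ob D q ⊆ Prod.fst ⁻¹' (Iic (D.t q.1)) :=
      fun q' hq' => (hD.sub _ _ (ob_mem hq) q' hq').le
    refine (cf_mono hsub).trans ?_
    have h1 := cf_comap hι (Prod.fst : Ω × ℕ → Ω) Prod.fst_surjective hrho (Iic (D.t q.1))
    have h2 : cf (lam0 rho) (Prod.fst ⁻¹' (Iic (D.t q.1))) = cf rho (Iic (D.t q.1)) := h1
    rw [h2]
    exact (hseg _).trans (hle _)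
  · exact hκ4

theorem IsDt.cf_below (hι : #(Ω × ℕ) ≤ ℵ₁) (hrho : Fam rho)
    (hseg : ∀ y, cf rho (Iic y) ≤ rho y)
    (hD : IsDt rho S D) {q : Ω × ℕ} (hq : q ∈ dm D) :
    cf (mu rho D) (ovr D (Iio q.1)) < mu rho D q := by
  have hlam : Fam (lam0 rho) := fun q => hrho q.1
  obtain ⟨s, hs1, hs2⟩ := hD.gap q.1
  have h1 : cf (mu rho D) (ovr D (Iio q.1)) ≤
      cf (lam0 rho) (⋃ r ∈ ovr D (Iio q.1), ob D r) := by
    refine W_a hι hι hlam _ _ ?_ ?_ (hD.fam_mu hι hrho)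
    · intro r hr
      exact hD.nonempty hrho (ob_mem hr.1)
    · intro r hr
      unfold mu
      rw [if_pos hr.1]
  have hsub : (⋃ r ∈ ovr D (Iio q.1), ob D r) ⊆ Prod.fst ⁻¹' (Iic s) := by
    intro q' hq'
    obtain ⟨r, hr, hq'⟩ := mem_iUnion₂.1 hq'
    exact (hD.sub _ _ (ob_mem hr.1) q' hq').le.trans (hs2 r.1 hr.2)
  have h2 : cf (lam0 rho) (Prod.fst ⁻¹' (Iic s)) = cf rho (Iic s) :=
    cf_comap hι (Prod.fst : Ω × ℕ → Ω) Prod.fst_surjective hrho (Iic s)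
  have h3 : mu rho D q = cf (lam0 rho) (ob D q) := by
    unfold mu
    rw [if_pos hq]
  rw [h3]
  calc cf (mu rho D) (ovr D (Iio q.1)) ≤ cf (lam0 rho) (Prod.fst ⁻¹' (Iic s)) :=
        h1.trans (cf_mono hsub)
    _ = cf rho (Iic s) := h2
    _ ≤ rho s := hseg s
    _ < _ := hD.lt _ _ (ob_mem hq) s hs1

open Classical in
/-- codes for the restriction of a function to the valid indices -/
noncomputable def cdD (D : Dt Ω) {κ : Cardinal.{u}} (dft : κ.ord.ToType) (w : Ω × ℕ → Ordinal.{u}) :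
    Ω → ℕ → κ.ord.ToType := fun y k =>
  if h : (y, k) ∈ dm D ∧ w (y, k) < κ.ord then Ordinal.ToType.mk ⟨w (y, k), h.2⟩ else dft

theorem cdD_congr (D : Dt Ω) {κ : Cardinal.{u}} (dft : κ.ord.ToType)
    {w w' : Ω × ℕ → Ordinal.{u}} {y : Ω} (h : ∀ q ∈ ovr D (Iio y), w q = w' q) {z : Ω}
    (hz : z < y) : cdD D dft w z = cdD D dft w' z := by
  funext k
  unfold cdD
  by_cases hd : (z, k) ∈ dm D
  · have h1 := h (z, k) ⟨hd, hz⟩
    by_cases hw : w (z, k) < κ.ord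
    · have hw' : w' (z, k) < κ.ord := h1 ▸ hw
      rw [dif_pos ⟨hd, hw⟩, dif_pos ⟨hd, hw'⟩]
      congr 1
      exact Subtype.ext h1
    · have hw' : ¬ w' (z, k) < κ.ord := h1 ▸ hw
      rw [dif_neg (fun h => hw h.2), dif_neg (fun h => hw' h.2)]
  · have h1 : ¬ ((z, k) ∈ dm D ∧ w (z, k) < κ.ord) := fun h => hd h.1
    have h2 : ¬ ((z, k) ∈ dm D ∧ w' (z, k) < κ.ord) := fun h => hd h.1
    rw [dif_neg h1, dif_neg h2]

/-- the bound of the predicted values -/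
theorem IsDt.exists_K0 {κ : Cardinal.{u}} (hκ4 : ℵ_ 4 ≤ κ) (hι : #(Ω × ℕ) ≤ ℵ₁)
    (hrho : Fam rho) (hseg : ∀ y, cf rho (Iic y) ≤ rho y) (hD : IsDt rho S D)
    (dft : κ.ord.ToType) {P : Type u} (hP : #P ≤ κ)
    (p : P → Ω → (Ω → ℕ → κ.ord.ToType) → ℕ → κ.ord.ToType)
    (hloc : ∀ s y x x', (∀ z < y, x z = x' z) → p s y x = p s y x') :
    ∃ K0 ∈ Pr (mu rho D), ∀ s, cf (mu rho D) {q | q ∈ dm D ∧ ∃ w : Ω × ℕ → Ordinal.{u},
      Caught (mu rho D) w (ovr D (Iio q.1)) ∧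
      (Ordinal.ToType.toOrd (p s q.1 (cdD D dft w) q.2)).1 < (mu rho D q).ord ∧
      K0 q < (Ordinal.ToType.toOrd (p s q.1 (cdD D dft w) q.2)).1} ≤ κ := by
  classical
  have hmu := hD.fam_mu hι hrho
  choose T H hT hH1 hH2 using fun y : Ω => card_caught hι hmu (ovr D (Iio y))
  have h1 : ∀ (s : P) (q : Ω × ℕ), ∃ β < (mu rho D q).ord, q ∈ dm D → ∀ h : T q.1,
      (Ordinal.ToType.toOrd (p s q.1 (cdD D dft (H q.1 h)) q.2)).1 < (mu rho D q).ord →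
      (Ordinal.ToType.toOrd (p s q.1 (cdD D dft (H q.1 h)) q.2)).1 < β := by
    intro s q
    by_cases hq : q ∈ dm D
    swap
    · exact ⟨0, (hmu q).1.ord_pos, fun h => absurd h hq⟩
    obtain ⟨β, hβ, hβ'⟩ := exists_bound (hmu q).1 (T := T q.1) (by
      rw [Cardinal.lift_lt]
      refine (hT q.1).trans_lt (max_lt (hD.cf_below hι hrho hseg hq) ?_)
      exact (aleph0_lt_aleph.2 (by norm_num)).trans_le (hmu q).2)
      (fun h => if (Ordinal.ToType.toOrd (p s q.1 (cdD D dft (H q.1 h)) q.2)).1 <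
        (mu rho D q).ord then (Ordinal.ToType.toOrd (p s q.1 (cdD D dft (H q.1 h)) q.2)).1
        else 0) (by
        intro h
        split_ifs with h1
        · exact h1
        · exact (hmu q).1.ord_pos)
    refine ⟨β, hβ, fun _ h h2 => ?_⟩
    have := hβ' h
    rw [if_pos h2] at this
    exact this
  choose f hf1 hf2 using h1
  have hκ0 : ℵ₀ ≤ κ := (aleph0_le_aleph 4).trans hκ4
  obtain ⟨K0, hK0, hK0'⟩ := exists_bound_mod hι hmu hκ0 hP f (fun s q => hf1 s q)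
  refine ⟨K0, hK0, fun s => (cf_mono ?_).trans (hK0' s)⟩
  rintro q ⟨hq, w, hw, hlt, hK⟩
  obtain ⟨h, hh⟩ := hH2 q.1 w hw
  have heq : p s q.1 (cdD D dft w) = p s q.1 (cdD D dft (H q.1 h)) :=
    hloc _ _ _ _ (fun z hz => cdD_congr D dft hh hz)
  rw [heq] at hlt hK
  exact hK.trans (hf2 s q hq h hlt)

/-- the undominated function -/
theorem IsDt.exists_K1 {κ : Cardinal.{u}} (hκ4 : ℵ_ 4 ≤ κ) (hι : #(Ω × ℕ) ≤ ℵ₁)
    (hrho : Fam rho) (hpos : κ < cf rho (Ici D.jst)) (hD : IsDt rho S D) (B : Set Ω)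
    (hB : cf (mu rho D) (ovr D B) ≤ κ) :
    ∃ K1 ∈ Pr (lam0 rho), ∀ w, Caught (mu rho D) w (ovr D B) →
      ∃ q', D.jst ≤ q'.1 ∧ ∀ q ∈ ovr D B, Fhat (lam0 rho) (ob D q) (w q) q' < K1 q' := by
  have hmu := hD.fam_mu hι hrho
  have hlam : Fam (lam0 rho) := fun q => hrho q.1
  have hκ0 : ℵ₀ ≤ κ := (aleph0_le_aleph 4).trans hκ4
  obtain ⟨T, H, hT, hH1, hH2⟩ := card_caught hι hmu (ovr D B)
  have h1 : ∀ h : T, ∃ b ∈ Pr (lam0 rho), ∀ (q q' : Ω × ℕ),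
      Fhat (lam0 rho) (ob D q) (H h q) q' < b q' := by
    intro h
    obtain ⟨b, hb, hb'⟩ := exists_bound_fun hlam (T := Ω × ℕ) (by
      have h13 : (ℵ₁ : Cardinal.{u}) ≤ ℵ_ 3 := aleph_le_aleph.2 (by norm_num)
      have := hι.trans h13
      simpa using Cardinal.lift_le.{u}.2 this)
      (fun q => Fhat (lam0 rho) (ob D q) (H h q)) (fun q => Fhat_mem hlam _)
    exact ⟨b, hb, hb'⟩
  choose b hb1 hb2 using h1
  have hpos' : κ < cf (lam0 rho) (Prod.fst ⁻¹' (Ici D.jst)) := by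
    have h2 : cf (lam0 rho) (Prod.fst ⁻¹' (Ici D.jst)) = cf rho (Ici D.jst) :=
      cf_comap hι (Prod.fst : Ω × ℕ → Ω) Prod.fst_surjective hrho (Ici D.jst)
    rw [h2]
    exact hpos
  obtain ⟨K1, hK1, hK1'⟩ := exists_not_le hpos' (hT.trans (max_le hB hκ0)) b hb1
  refine ⟨K1, hK1, fun w hw => ?_⟩
  obtain ⟨h, hh⟩ := hH2 w hw
  obtain ⟨q', hq', hlt⟩ := hK1' h
  refine ⟨q', hq', fun q hq => ?_⟩
  rw [hh q hq]
  exact (hb2 h q q').trans hlt

end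

/-- The main theorem: products are dominated by `κ` functions. -/
theorem cf_le_of_predictors [WellFoundedLT Ω] (hΩ : #Ω = ℵ₁)
    (hIio : ∀ y : Ω, (Iio y).Countable) {κ : Cardinal.{u}} (hκ : κ ^ ℵ₀ = κ) (hκ4 : ℵ_ 4 ≤ κ)
    {P : Type u} (hP : #P ≤ κ)
    (p : P → Ω → (Ω → ℕ → κ.ord.ToType) → ℕ → κ.ord.ToType)
    (hloc : ∀ s y x x', (∀ z < y, x z = x' z) → p s y x = p s y x')
    (hpred : ∀ x, ∃ s, ¬ {y | x y = p s y x}.Countable)
    {ι : Type u} (hι : #ι ≤ ℵ₁) {lam : ι → Cardinal.{u}} (hlam : Fam lam)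
    (hle : ∀ a, lam a ≤ κ) : cf lam univ ≤ κ := by
  classical
  by_contra hcon
  obtain ⟨rho, hrho, hrle, hmono, hpos, hseg⟩ := exists_monotone hΩ hIio hκ hκ4 hι hlam hle
    (not_le.1 hcon)
  have hlt := exists_lt_of_pos hΩ hIio hκ hκ4 hrho hrle hmono hpos
  have hκ0 : ℵ₀ ≤ κ := (aleph0_le_aleph 4).trans hκ4
  have hJ : #(Ω × ℕ) ≤ ℵ₁ := by
    rw [mk_prod, hΩ]
    simp
  have hlam0 : Fam (lam0 rho) := fun q => hrho q.1
  have hne : Nonempty κ.ord.ToType := by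
    rw [← mk_ne_zero_iff, mk_ord_toType]
    exact (aleph0_pos.trans_le hκ0).ne'
  obtain ⟨dft⟩ := hne
  -- first choice: data and the function `K0`
  have hO1 : ∀ S : St (Ω × ℕ), ∃ (D : Dt Ω) (K0 : Ω × ℕ → Ordinal.{u}),
      (∃ D', IsDt rho S D') → IsDt rho S D ∧ K0 ∈ Pr (mu rho D) ∧
      ∀ s, cf (mu rho D) {q | q ∈ dm D ∧ ∃ w : Ω × ℕ → Ordinal.{u},
      Caught (mu rho D) w (ovr D (Iio q.1)) ∧
      (Ordinal.ToType.toOrd (p s q.1 (cdD D dft w) q.2)).1 < (mu rho D q).ord ∧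
      K0 q < (Ordinal.ToType.toOrd (p s q.1 (cdD D dft w) q.2)).1} ≤ κ := by
    intro S
    by_cases h : ∃ D', IsDt rho S D'
    · obtain ⟨D, hD⟩ := h
      obtain ⟨K0, hK0, hK0'⟩ := hD.exists_K0 hκ4 hJ hrho hseg dft hP p hloc
      exact ⟨D, K0, fun _ => ⟨hD, hK0, hK0'⟩⟩
    · obtain ⟨x⟩ : Nonempty Ω := by
        rw [← mk_ne_zero_iff, hΩ]
        exact (aleph_pos 1).ne'
      exact ⟨⟨x, fun _ => x, fun _ => []⟩, fun _ => 0, fun h' => absurd h' h⟩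
  choose D K0 hO1 using hO1
  -- second choice: a good predictor and the function `K1`
  have hO2 : ∀ S S' : St (Ω × ℕ), ∃ (s : P) (K1 : Ω × ℕ → Ordinal.{u}),
      ¬ {y | cdD (D S) dft (fun q => S'.K (mu rho (D S) q)) y =
        p s y (cdD (D S) dft (fun q => S'.K (mu rho (D S) q)))}.Countable ∧
      (IsDt rho S (D S) → cf (mu rho (D S)) (ovr (D S)
        {y | cdD (D S) dft (fun q => S'.K (mu rho (D S) q)) y =
        p s y (cdD (D S) dft (fun q => S'.K (mu rho (D S) q)))}) ≤ κ →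
        K1 ∈ Pr (lam0 rho) ∧ ∀ w, Caught (mu rho (D S)) w (ovr (D S)
        {y | cdD (D S) dft (fun q => S'.K (mu rho (D S) q)) y =
        p s y (cdD (D S) dft (fun q => S'.K (mu rho (D S) q)))}) →
        ∃ q', (D S).jst ≤ q'.1 ∧ ∀ q ∈ ovr (D S)
        {y | cdD (D S) dft (fun q => S'.K (mu rho (D S) q)) y =
        p s y (cdD (D S) dft (fun q => S'.K (mu rho (D S) q)))},
        Fhat (lam0 rho) (ob (D S) q) (w q) q' < K1 q') := by
    intro S S'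
    obtain ⟨s, hs⟩ := hpred (cdD (D S) dft (fun q => S'.K (mu rho (D S) q)))
    refine ⟨s, ?_⟩
    by_cases h : IsDt rho S (D S) ∧ cf (mu rho (D S)) (ovr (D S)
        {y | cdD (D S) dft (fun q => S'.K (mu rho (D S) q)) y =
        p s y (cdD (D S) dft (fun q => S'.K (mu rho (D S) q)))}) ≤ κ
    · obtain ⟨K1, hK1, hK1'⟩ := h.1.exists_K1 hκ4 hJ hrho
        (pos_Ici hIio hκ hκ4 hrho hrle hpos _) _ h.2
      exact ⟨K1, hs, fun _ _ => ⟨hK1, hK1'⟩⟩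
    · exact ⟨fun _ => 0, hs, fun h1 h2 => absurd ⟨h1, h2⟩ h⟩
  choose s K1 hO2a hO2b using hO2
  let B : St (Ω × ℕ) → St (Ω × ℕ) → Set Ω := fun S S' =>
    {y | cdD (D S) dft (fun q => S'.K (mu rho (D S) q)) y =
        p (s S S') y (cdD (D S) dft (fun q => S'.K (mu rho (D S) q)))}
  -- the requirements
  let Req : St (Ω × ℕ) → St (Ω × ℕ) → Cardinal.{u} → Set Ordinal.{u} := fun S S' σ =>
    Req0 S S' σ ∪ (range (K0 S) ∩ {β | ∃ q, mu rho (D S) q = σ ∧ β = K0 S q} ∪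
      range (K1 S S') ∩ {β | ∃ q, lam0 rho q = σ ∧ β = K1 S S' q})
  let New : St (Ω × ℕ) → St (Ω × ℕ) → Set (Ob (Ω × ℕ)) := fun S S' =>
    New0 S S' ∪ (range (fun y : Ω => (mu rho (D S), ovr (D S) (Iio y))) ∪
      {(mu rho (D S), ovr (D S) (B S S'))})
  let C0 : Set (Ob (Ω × ℕ)) := range (fun i : Ω => (lam0 rho, {q : Ω × ℕ | q.1 < i}))
  have hl2 : ∀ {X : Type u} (f : X → Ordinal.{u}), #X ≤ ℵ₁ → #(range f) ≤ ℵ_ 2 := by
    intro X f hX
    have h12 : (ℵ₁ : Cardinal.{u + 1}) ≤ ℵ_ 2 := aleph_le_aleph.2 (by norm_num)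
    have h1 := mk_range_le_lift (f := f)
    have h2 : Cardinal.lift.{u + 1} #X ≤ ℵ_ 2 := by
      refine le_trans ?_ h12
      simpa using Cardinal.lift_le.{u + 1}.2 hX
    have h3 : Cardinal.lift.{u, u + 1} #(range f) = #(range f) :=
      Cardinal.lift_id'.{u, u + 1} _
    rw [h3] at h1
    exact h1.trans h2
  have hl2' : ∀ {X : Type u} (f : X → Ob (Ω × ℕ)), #X ≤ ℵ₁ → #(range f) ≤ ℵ_ 2 := by
    intro X f hX
    have h12 : (ℵ₁ : Cardinal.{u + 1}) ≤ ℵ_ 2 := aleph_le_aleph.2 (by norm_num)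
    have h1 := mk_range_le_lift (f := f)
    have h2 : Cardinal.lift.{u + 1} #X ≤ ℵ_ 2 := by
      refine le_trans ?_ h12
      simpa using Cardinal.lift_le.{u + 1}.2 hX
    have h3 : Cardinal.lift.{u, u + 1} #(range f) = #(range f) :=
      Cardinal.lift_id'.{u, u + 1} _
    rw [h3] at h1
    exact h1.trans h2
  have h20 : (ℵ₀ : Cardinal.{u + 1}) ≤ ℵ_ 2 := aleph0_le_aleph 2
  obtain ⟨S, hS⟩ := exists_chain Req New C0 (by
    intro S S' σ _ h'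
    refine (mk_union_le _ _).trans ?_
    refine (add_le_add (card_Req0 hJ S S' σ h') ((mk_union_le _ _).trans (add_le_add
      ((mk_le_mk_of_subset inter_subset_left).trans (hl2 _ hJ))
      ((mk_le_mk_of_subset inter_subset_left).trans (hl2 _ hJ))))).trans ?_
    rw [add_eq_self h20, add_eq_self h20]) (by
    intro S S' _ h'
    refine (mk_union_le _ _).trans ?_
    refine (add_le_add (card_New0 S S' h') ((mk_union_le _ _).trans (add_le_add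
      (hl2' _ hΩ.le) (show _ ≤ ℵ_ 2 from ?_)))).trans ?_
    · rw [mk_singleton]
      exact one_le_aleph0.trans h20
    · rw [add_eq_self h20, add_eq_self h20]) (hl2' _ hΩ.le)
  have hR : ∀ S S' σ, Req0 S S' σ ⊆ Req S S' σ := fun S S' σ => subset_union_left
  have hN : ∀ S S', New0 S S' ⊆ New S S' := fun S S' => subset_union_left
  -- the stages
  have h12 : (ℵ₁ : Cardinal.{u}) < ℵ_ 2 := aleph_lt_aleph.2 (by norm_num)
  have h13 : (ℵ₁ : Cardinal.{u}) < ℵ_ 3 := aleph_lt_aleph.2 (by norm_num)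
  obtain ⟨ε, -, hε3, hεcof, htr⟩ := hS.transfer hJ hR 0 (by
    exact (isSuccLimit_omega 3).bot_lt)
  obtain ⟨ε', hεε', hε'3, hε'cof, hε'lim, -⟩ := exists_closed (fun x => x) (fun x hx => hx) ε hε3
  have hdat : ∃ D', IsDt rho (S ε) D' := exists_isDt hΩ hIio hrho hmono hlt hJ hS hR hN
    (fun i => ⟨i, rfl⟩) hε3.le (by rw [hεcof]; exact h12)
  obtain ⟨hD, hK0, hK0'⟩ := hO1 (S ε) hdat
  have hmu := hD.fam_mu hJ hrho
  have hmule := hD.mu_le hκ4 hJ hrho hrle hseg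
  -- requirements at stage `ε`
  have hreq1 : ∀ q, K0 (S ε) q < (S ε').K (mu rho (D (S ε)) q) := by
    intro q
    have h1 := hS.req ε ε le_rfl (mu rho (D (S ε)) q) (K0 (S ε) q)
      (Or.inr (Or.inl ⟨⟨q, rfl⟩, q, rfl, rfl⟩)) (hK0 q)
    exact h1.trans_le (hS.mono _ (Order.add_one_le_of_lt hεε'))
  have hmemD : ∀ y : Ω, (mu rho (D (S ε)), ovr (D (S ε)) (Iio y)) ∈ (S ε').C := fun y =>
    hS.monoC _ _ (Order.add_one_le_of_lt hεε') (hS.new ε ε le_rfl (Or.inr (Or.inl ⟨y, rfl⟩)))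
  -- the set where the prediction is right has small cofinality
  have hcaught : ∀ y : Ω, Caught (mu rho (D (S ε)))
      (fun q => (S ε').K (mu rho (D (S ε)) q)) (ovr (D (S ε)) (Iio y)) := fun y =>
    hS.caught hJ hR hN hε'3.le (by rw [hε'cof]; exact h12) hmu _ (hmemD y)
  have hBle : cf (mu rho (D (S ε))) (ovr (D (S ε)) (B (S ε) (S ε'))) ≤ κ := by
    refine (cf_mono ?_).trans (hK0' (s (S ε) (S ε')))
    rintro ⟨y, k⟩ ⟨hq, hqB⟩
    have hlt' : (S ε').K (mu rho (D (S ε)) (y, k)) < (mu rho (D (S ε)) (y, k)).ord :=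
      hS.lt_ord ε' hε'3.le _ (hmu (y, k))
    have hltκ : (S ε').K (mu rho (D (S ε)) (y, k)) < κ.ord :=
      hlt'.trans_le (ord_le_ord.2 (hmule (y, k)))
    have heq : (Ordinal.ToType.toOrd (p (s (S ε) (S ε')) y
        (cdD (D (S ε)) dft (fun q => (S ε').K (mu rho (D (S ε)) q))) k)).1 =
        (S ε').K (mu rho (D (S ε)) (y, k)) := by
      have h1 : cdD (D (S ε)) dft (fun q => (S ε').K (mu rho (D (S ε)) q)) y k =
        p (s (S ε) (S ε')) y (cdD (D (S ε)) dft (fun q => (S ε').K (mu rho (D (S ε)) q))) k :=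
        congrFun hqB k
      rw [← h1]
      unfold cdD
      rw [dif_pos ⟨hq, hltκ⟩]
      simp [Ordinal.ToType.toOrd]
    refine ⟨hq, fun q => (S ε').K (mu rho (D (S ε)) q), hcaught y, ?_, ?_⟩
    · rw [heq]
      exact hlt'
    · rw [heq]
      exact hreq1 (y, k)
  obtain ⟨hK1, hK1'⟩ := hO2b (S ε) (S ε') hD hBle
  have hε'succ : ε' + 1 < ω_ 3 := (isSuccLimit_omega 3).add_one_lt hε'3
  have hmemB : (mu rho (D (S ε)), ovr (D (S ε)) (B (S ε) (S ε'))) ∈ (S (ω_ 3)).C :=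
    hS.monoC _ _ hε'succ.le (hS.new ε ε' hεε'.le (Or.inr (Or.inr rfl)))
  have hcaught3 := hS.caught hJ hR hN le_rfl (by rw [cof_omega_three]; exact h13) hmu _ hmemB
  obtain ⟨q', hq'1, hq'2⟩ := hK1' _ hcaught3
  -- find `y`
  have hmonot : StrictMono (D (S ε)).t := by
    intro y y' hyy'
    obtain ⟨s', hs', hs''⟩ := hD.gap y'
    exact (hs'' y hyy').trans_lt hs'
  obtain ⟨y, hyB, hy⟩ : ∃ y ∈ B (S ε) (S ε'), q'.1 < y := by
    by_contra hno
    push Not at hno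
    apply hO2a (S ε) (S ε')
    have hIic : (Iic q'.1).Countable := by
      rw [← Iio_insert]
      exact (hIio _).insert _
    exact hIic.mono hno
  obtain ⟨e, he, hqe, hgood⟩ := hD.good y q' hq'1 (hy.trans_le (hmonot.le_apply))
  obtain ⟨k, hk, rfl⟩ := (mem_list_iff _ _ _).1 he
  have h1 := htr (lam0 rho) _ hlam0 (hD.mem y _ he) q' hgood
  have h2 := hq'2 (y, k) ⟨hk, hyB⟩
  have h3 : mu rho (D (S ε)) (y, k) = cf (lam0 rho) (ob (D (S ε)) (y, k)) := by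
    unfold mu
    rw [if_pos hk]
  simp only [h3] at h2
  rw [← h1] at h2
  have h4 : K1 (S ε) (S ε') q' < (S (ε' + 1)).K (lam0 rho q') :=
    hS.req ε ε' hεε'.le _ _ (Or.inr (Or.inr ⟨⟨q', rfl⟩, q', rfl, rfl⟩)) (hK1 q')
  exact absurd (h4.trans_le (hS.mono _ hε'succ.le)) (not_lt.2 h2.le)

end

end Pool.Agent.Helper14.PCF
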