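import Mathlib
import Pool.Agent.Helper14.NW.Main

/-!
Module M9: predictors (note 751, predictors; idea of helper93).
-/

open Cardinal Ordinal Set

universe u v

namespace Pool.Agent.Helper14.PCF

open Pool.Agent.Helper14.NW

set_option linter.unusedSectionVars false

namespace PredAux

variable {Ω R : Type u} [LinearOrder Ω] [WellFoundedLT Ω] (E : R → Setoid Ω)

/-- the least element of the class of `y` for the meet of `E (s 0), …, E (s n)` -/
noncomputable def mn (s : ℕ → R) (n : ℕ) (y : Ω) : Ω :=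
  (wellFounded_lt (α := Ω)).min {z | ∀ k ≤ n, (E (s k)).r y z} ⟨y, fun _ _ => (E _).refl y⟩

lemma mn_rel (s : ℕ → R) (n : ℕ) (y : Ω) : ∀ k ≤ n, (E (s k)).r y (mn E s n y) :=
  (wellFounded_lt (α := Ω)).min_mem {z | ∀ k ≤ n, (E (s k)).r y z} ⟨y, fun _ _ => (E _).refl y⟩

lemma mn_le (s : ℕ → R) (n : ℕ) (y z : Ω) (h : ∀ k ≤ n, (E (s k)).r y z) : mn E s n y ≤ z := by
  have := (wellFounded_lt (α := Ω)).not_lt_min {z | ∀ k ≤ n, (E (s k)).r y z} (x := z) h
  exact not_lt.1 this

lemma mn_le_self (s : ℕ → R) (n : ℕ) (y : Ω) : mn E s n y ≤ y :=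
  mn_le E s n y y (fun _ _ => (E _).refl y)

lemma mn_congr (s : ℕ → R) (n : ℕ) (y z : Ω) (h : ∀ k ≤ n, (E (s k)).r y z) :
    mn E s n y = mn E s n z := by
  apply le_antisymm
  · apply mn_le
    intro k hk
    exact (E (s k)).trans (h k hk) (mn_rel E s n z k hk)
  · apply mn_le
    intro k hk
    exact (E (s k)).trans ((E (s k)).symm (h k hk)) (mn_rel E s n y k hk)

lemma sep_subsingleton {S : Set Ω} (h : ∀ a ∈ S, ∀ b ∈ S, a = b) : Sep E S :=
  ⟨fun _ => ∅, fun _ => finite_empty, fun a ha b hb hab => absurd (h a ha b hb) hab⟩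

lemma sep_meet [Nonempty Ω] (s : ℕ → R) (m : ℕ) : ∀ S : Set Ω,
    (∀ a, Sep E (S ∩ {b | ∀ k < m, (E (s k)).r a b})) → Sep E S := by
  induction m with
  | zero =>
    intro S h
    have := h (Classical.arbitrary Ω)
    simpa using this
  | succ m ih =>
    intro S h
    apply ih S
    intro a
    apply Sep.class' E (s m)
    intro a'
    rcases (S ∩ {b | ∀ k < m, (E (s k)).r a b} ∩ {b | (E (s m)).r a' b}).eq_empty_or_nonempty with
      he | ⟨c, hc⟩
    · rw [he]
      exact sep_subsingleton E (by simp)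
    · refine Sep.mono E ?_ (h c)
      rintro b ⟨⟨hb1, hb2⟩, hb3⟩
      refine ⟨hb1, ?_⟩
      intro k hk
      rcases Nat.lt_succ_iff_lt_or_eq.1 hk with hk | rfl
      · exact (E (s k)).trans ((E (s k)).symm (hc.1.2 k hk)) (hb2 k hk)
      · exact (E (s k)).trans ((E (s k)).symm hc.2) hb3

lemma sep_fix [Nonempty Ω] (s : ℕ → R) (n : ℕ) : Sep E {y | mn E s n y = y} := by
  apply sep_meet E s (n + 1)
  intro a
  apply sep_subsingleton
  rintro b ⟨hb1, hb2⟩ c ⟨hc1, hc2⟩
  have hb1' : mn E s n b = b := hb1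
  have hc1' : mn E s n c = c := hc1
  rw [← hb1', ← hc1']
  apply mn_congr
  intro k hk
  exact (E (s k)).trans ((E (s k)).symm (hb2 k (Nat.lt_succ_of_le hk))) (hc2 k (Nat.lt_succ_of_le hk))

open Classical in
/-- the element whose bits are the diagonal bits of a sequence of elements -/
noncomputable def dg {V : Type u} [Nonempty V] (j : V → ℕ → Bool) (w : ℕ → V) : V :=
  if h : ∃ v, ∀ n, j v n = j (w n) n then h.choose else Classical.arbitrary V

open Classical in
/-- the predictor -/
noncomputable def prd {V : Type u} [Nonempty V] (j : V → ℕ → Bool) (s : ℕ → R) (y : Ω)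
    (x : Ω → V) : V :=
  if ∀ n, mn E s n y < y then dg j (fun n => x (mn E s n y)) else Classical.arbitrary V

lemma prd_local {V : Type u} [Nonempty V] (j : V → ℕ → Bool) (s : ℕ → R) (y : Ω)
    (x x' : Ω → V) (h : ∀ z < y, x z = x' z) : prd E j s y x = prd E j s y x' := by
  unfold prd
  by_cases hm : ∀ n, mn E s n y < y
  · have : (fun n => x (mn E s n y)) = fun n => x' (mn E s n y) := by
      funext n
      exact h _ (hm n)
    rw [if_pos hm, if_pos hm, this]
  · rw [if_neg hm, if_neg hm]

end PredAux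

open PredAux in
theorem exists_predictors {Ω R : Type u} [LinearOrder Ω] [WellFoundedLT Ω]
    (E : R → Setoid Ω) (hR : #R ≤ 𝔠)
    (hcap : ∀ Z : Set Ω, ∃ r, ∀ a b, (E r).r a b → a ∈ Z → b ∈ Z) (hsep : ¬ Sep E univ)
    {V : Type u} (hV : #V ≤ 𝔠) :
    ∃ (P : Type u) (p : P → Ω → (Ω → V) → V), #P ≤ 𝔠 ∧
      (∀ s y x x', (∀ z < y, x z = x' z) → p s y x = p s y x') ∧
      ∀ x : Ω → V, ∃ s, ¬ {y | x y = p s y x}.Countable := by
  classical
  have hΩ : Nonempty Ω := by
    by_contra hne
    rw [not_nonempty_iff] at hne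
    exact hsep (sep_subsingleton E (fun a => isEmptyElim a))
  have hP : #(ℕ → R) ≤ 𝔠 := by
    rw [Cardinal.mk_arrow]
    simp only [Cardinal.mk_nat, Cardinal.lift_aleph0, Cardinal.lift_uzero]
    exact (Cardinal.power_le_power_right hR).trans Cardinal.continuum_power_aleph0.le
  by_cases hVe : Nonempty V
  swap
  · refine ⟨ℕ → R, fun s y x => x y, hP, ?_, ?_⟩
    · intro s y x x' _
      exact absurd ⟨x y⟩ hVe
    · intro x
      exact absurd ⟨x (Classical.arbitrary Ω)⟩ hVe
  obtain ⟨j⟩ : Nonempty (V ↪ (ℕ → Bool)) := by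
    rw [← Cardinal.lift_mk_le']
    have : #(ℕ → Bool) = 𝔠 := by simp
    rw [this]
    simpa using hV
  refine ⟨ℕ → R, fun s y x => prd E j s y x, hP, ?_, ?_⟩
  · intro s y x x' h
    exact prd_local E j s y x x' h
  · intro x
    choose r hr using fun n : ℕ => hcap {y | j (x y) n = true}
    refine ⟨r, fun hc => hsep ?_⟩
    -- values agree off the fixed points
    have hagree : ∀ n y, j (x y) n = j (x (mn E r n y)) n := by
      intro n y
      have h1 := mn_rel E r n y n le_rfl
      have h2 := hr n y _ h1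
      have h3 := hr n _ y ((E (r n)).symm h1)
      simp only [mem_ofPred_eq] at h2 h3
      by_cases h : j (x y) n = true
      · rw [h, h2 h]
      · have h4 : ¬ j (x (mn E r n y)) n = true := fun h5 => h (h3 h5)
        rw [Bool.not_eq_true] at h h4
        rw [h, h4]
    have hpred : ∀ y, (∀ n, mn E r n y ≠ y) → x y = prd E j r y x := by
      intro y hy
      have h1 : ∀ n, mn E r n y < y := fun n => lt_of_le_of_ne (mn_le_self E r n y) (hy n)
      have h2 : ∃ v, ∀ n, j v n = j (x (mn E r n y)) n := ⟨x y, fun n => hagree n y⟩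
      unfold prd dg
      rw [if_pos h1, dif_pos h2]
      apply j.injective
      funext n
      rw [h2.choose_spec n]
      exact hagree n y
    have hA : Sep E (⋃ n, {y | mn E r n y = y}) := Sep.iUnion E hcap _ (fun n => sep_fix E r n)
    have hB : Sep E {y | x y = prd E j r y x} := by
      rcases eq_empty_or_nonempty {y | x y = prd E j r y x} with he | hne
      · rw [he]
        exact sep_subsingleton E (by simp)
      · obtain ⟨f, hf⟩ := hc.exists_eq_range hne
        have : {y | x y = prd E j r y x} = ⋃ n, {f n} := by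
          rw [hf]
          ext z
          simp [eq_comm]
        rw [this]
        apply Sep.iUnion E hcap
        intro n
        exact sep_subsingleton E (by rintro a rfl b rfl; rfl)
    have huniv : (univ : Set Ω) ⊆ ⋃ n : ℕ, (if n = 0 then (⋃ n, {y | mn E r n y = y}) else
        {y | x y = prd E j r y x}) := by
      intro y _
      by_cases h : ∀ n, mn E r n y ≠ y
      · exact mem_iUnion.2 ⟨1, by simpa using hpred y h⟩
      · push Not at h
        obtain ⟨n, hn⟩ := h
        exact mem_iUnion.2 ⟨0, by simpa using ⟨n, hn⟩⟩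
    refine Sep.mono E huniv (Sep.iUnion E hcap _ ?_)
    intro n
    by_cases h : n = 0
    · simpa [h] using hA
    · simpa [h] using hB

end Pool.Agent.Helper14.PCF
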