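import Mathlib
import Pool.Agent.Helper14.NW.Main
import Pool.Agent.Helper14.PCF.Main
import Pool.Agent.Helper14.PCF.Hull
import Pool.Agent.Helper14.PCF.Pred

/-!
The full combinatorial theorem (note 751): if the continuum is smaller than `2 ^ ℵ₁`, then at most
continuum many equivalence relations capturing all subsets of a set of size `ℵ₁` separate it.
-/

open Cardinal Ordinal Set

universe u v

namespace Pool.Agent.Helper14.PCF

open Pool.Agent.Helper14.NW

theorem sep_of_lt {Ω R : Type u} (E : R → Setoid Ω) (hΩ : #Ω = ℵ₁)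
    (hcap : ∀ Z : Set Ω, ∃ r, ∀ a b, (E r).r a b → a ∈ Z → b ∈ Z)
    (hR : #R ≤ 𝔠) (hlt : (𝔠 : Cardinal.{u}) < 2 ^ (ℵ₁ : Cardinal.{u})) : Sep E univ := by
  classical
  by_contra hsep
  -- it is enough to prove the covering property
  suffices hcov : ∀ T : Type u, #T = 𝔠 → Cov T 𝔠 from
    hsep (comb E hΩ hcap 𝔠 hR le_rfl hlt hcov)
  intro T hT
  rcases lt_or_ge (𝔠 : Cardinal.{u}) (ℵ_ 4) with h4 | h4
  · have h : (𝔠 : Cardinal.{u}) < ℵ_ ω₁ := by
      refine h4.trans (aleph_lt_aleph.2 ?_)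
      exact_mod_cast natCast_lt_omega0 4 |>.trans omega0_lt_omega_one
    exact (cov_of_lt 𝔠 h T hT).mono (max_le le_rfl aleph0_le_continuum)
  -- transfer to `ω₁`
  let W := (ℵ₁ : Cardinal.{u}).ord.ToType
  have hW : #W = ℵ₁ := mk_ord_toType _
  obtain ⟨e⟩ : Nonempty (Ω ≃ W) := Cardinal.eq.1 (by rw [hΩ, hW])
  have hIio : ∀ b : W, (Iio b).Countable := by
    intro b
    have h1 : #(Iio b) < ℵ₁ := by
      have := mk_Iio_lt b (by simp [W])
      rwa [hW] at this
    have h2 : #(Iio b) < Order.succ ℵ₀ := h1.trans_eq succ_aleph0.symm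
    exact mk_le_aleph0_iff.1 (Order.lt_succ_iff.1 h2)
  let E' : R → Setoid W := fun r => (E r).comap e.symm
  have hcap' : ∀ Z : Set W, ∃ r, ∀ a b, (E' r).r a b → a ∈ Z → b ∈ Z := by
    intro Z
    obtain ⟨r, hr⟩ := hcap (e ⁻¹' Z)
    refine ⟨r, fun a b hab ha => ?_⟩
    have := hr (e.symm a) (e.symm b) hab (by simpa using ha)
    simpa using this
  have hsep' : ¬ Sep E' univ := by
    rintro ⟨h, h1, h2⟩
    apply hsep
    refine ⟨fun a => h (e a), fun a => h1 _, ?_⟩
    intro a _ b _ hab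
    obtain ⟨r, hr, hr'⟩ := h2 (e a) (mem_univ _) (e b) (mem_univ _) (e.injective.ne hab)
    refine ⟨r, hr, fun h3 => hr' ?_⟩
    show (E r).r (e.symm (e a)) (e.symm (e b))
    simpa using h3
  have hV : #(ℕ → (𝔠 : Cardinal.{u}).ord.ToType) ≤ 𝔠 := by
    rw [mk_pi]
    simp
  obtain ⟨P, p, hP, hloc, hpred⟩ := exists_predictors E' hR hcap' hsep' hV
  exact cov_of_cf continuum_power_aleph0 h4 (fun ι hι lam hlam hle =>
    cf_le_of_predictors hW hIio continuum_power_aleph0 h4 hP p hloc hpred hι hlam hle) T hT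

end Pool.Agent.Helper14.PCF
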